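import Mathlib

/-!
Anticoncentration of subset sums of powers of a fixed complex number.
-/

namespace Pool.Agent.P.MP_8cce2a_nt

open Finset

/-- conditioning on the coordinates outside the image of an embedding -/
lemma restrict_card {ι : Type*} [Fintype ι] (I : Finset ℕ) (e : ι → ℕ)
    (he : Function.Injective e) (hI : ∀ x, e x ∈ I) (v : ℕ → ℂ) (q : ℕ)
    (hq : ∀ c : ℂ, ∀ B' : Finset (Finset ι), (∀ U ∈ B', ∑ x ∈ U, v (e x) = c) → B'.card ≤ q)
    (c : ℂ) (B : Finset (Finset ℕ)) (hB : ∀ S ∈ B, S ⊆ I ∧ ∑ i ∈ S, v i = c) :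
    B.card ≤ q * 2 ^ (I.card - Fintype.card ι) := by
  classical
  set J : Finset ℕ := univ.image e with hJ
  have hJI : J ⊆ I := fun i hi => by
    obtain ⟨x, -, rfl⟩ := Finset.mem_image.1 hi
    exact hI x
  have hc : ((I \ J).powerset).card = 2 ^ (I.card - Fintype.card ι) := by
    rw [Finset.card_powerset, Finset.card_sdiff_of_subset hJI, hJ,
      Finset.card_image_of_injective _ he, Finset.card_univ]
  rw [← hc]
  refine Finset.card_le_mul_card_image_of_maps_to (f := fun S => S \ J)
    (fun S hS => Finset.mem_powerset.2 (Finset.sdiff_subset_sdiff (hB S hS).1 le_rfl)) q ?_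
  intro T _
  set φ : Finset ℕ → Finset ι := fun S => univ.filter fun x => e x ∈ S with hφ
  have himg : ∀ S : Finset ℕ, (φ S).image e = S ∩ J := by
    intro S
    ext i
    simp only [hφ, hJ, Finset.mem_image, Finset.mem_filter, Finset.mem_univ, true_and,
      Finset.mem_inter]
    constructor
    · rintro ⟨x, h, rfl⟩
      exact ⟨h, x, rfl⟩
    · rintro ⟨h, x, rfl⟩
      exact ⟨x, h, rfl⟩
  have hinj : Set.InjOn φ (B.filter fun S => S \ J = T : Finset _) := by
    intro S hS S' hS' h
    have h1 := (Finset.mem_filter.1 (Finset.mem_coe.1 hS)).2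
    have h2 := (Finset.mem_filter.1 (Finset.mem_coe.1 hS')).2
    rw [← Finset.sdiff_union_inter S J, ← Finset.sdiff_union_inter S' J, h1, h2, ← himg, ← himg, h]
  rw [← Finset.card_image_of_injOn hinj]
  refine hq (c - ∑ i ∈ T, v i) _ fun U hU => ?_
  obtain ⟨S, hS, rfl⟩ := Finset.mem_image.1 hU
  obtain ⟨h1, h2⟩ := Finset.mem_filter.1 hS
  rw [← (hB S h1).2, ← h2, ← Finset.sum_inter_add_sum_sdiff S J v, ← himg,
    Finset.sum_image fun x _ y _ h => he h]
  ring

lemma geom_lt {t : ℝ} (ht : 2 ≤ t) (N : ℕ) : ∑ i ∈ range N, t ^ i < t ^ N := by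
  induction N with
  | zero => simp
  | succ N ih =>
    rw [Finset.sum_range_succ, pow_succ]
    have : 0 < t ^ N := by positivity
    nlinarith

lemma digits_zero {γ : ℂ} (hγ : 2 ≤ ‖γ‖) (ε : ℕ → ℂ) (hε : ∀ t, ε t = 0 ∨ ‖ε t‖ = 1) (N : ℕ)
    (h : ∑ t ∈ range N, ε t * γ ^ t = 0) : ∀ t < N, ε t = 0 := by
  induction N with
  | zero => simp
  | succ N ih =>
    rw [Finset.sum_range_succ] at h
    have hN : ε N = 0 := by
      rcases hε N with h0 | h0
      · exact h0
      exfalso
      have h1 : ‖ε N * γ ^ N‖ = ‖∑ t ∈ range N, ε t * γ ^ t‖ := by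
        rw [← norm_neg, neg_eq_of_add_eq_zero_left h]
      have h2 : ‖∑ t ∈ range N, ε t * γ ^ t‖ ≤ ∑ t ∈ range N, ‖γ‖ ^ t := by
        refine norm_sum_le_of_le _ fun t _ => ?_
        rw [norm_mul, norm_pow]
        rcases hε t with h3 | h3
        · rw [h3, norm_zero, zero_mul]
          positivity
        · rw [h3, one_mul]
      rw [norm_mul, h0, one_mul, norm_pow] at h1
      linarith [geom_lt hγ N]
    rw [hN, zero_mul, add_zero] at h
    intro t ht
    rcases Nat.lt_succ_iff_lt_or_eq.1 ht with ht | rfl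
    · exact ih h t ht
    · exact hN

/-- a point off the unit circle is rarely a root -/
lemma card_big {β : ℂ} {K : ℕ} (hK : 0 < K) (hβ : 2 ≤ ‖β‖ ^ K) (n N : ℕ) (hN : K * N < n)
    (c : ℂ) (B : Finset (Finset ℕ)) (hB : ∀ S ∈ B, S ⊆ Ioo 0 n ∧ ∑ i ∈ S, β ^ i = c) :
    B.card ≤ 2 ^ (n - 1 - N) := by
  classical
  have h0 : β ≠ 0 := by
    rintro rfl
    rw [norm_zero, zero_pow hK.ne'] at hβ
    linarith
  have := restrict_card (Ioo 0 n) (fun t : Fin N => 1 + K * t.1)
    (fun s t h => Fin.ext (Nat.eq_of_mul_eq_mul_left hK (by simpa using h)))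
    (fun t => Finset.mem_Ioo.2 ⟨by omega, by
      have : K * (t.1 + 1) ≤ K * N := Nat.mul_le_mul_left _ t.2
      rw [Nat.mul_succ] at this
      omega⟩) (fun i => β ^ i) 1 (by
      intro c B' hB'
      refine Finset.card_le_one.2 fun U hU U' hU' => ?_
      set ε : ℕ → ℂ := fun t => (if t ∈ U.map Fin.valEmbedding then 1 else 0)
        - (if t ∈ U'.map Fin.valEmbedding then 1 else 0) with hε
      have hs : ∀ W : Finset (Fin N), ∑ x ∈ W, β ^ (1 + K * x.1)
          = β * ∑ t ∈ range N, (if t ∈ W.map Fin.valEmbedding then 1 else 0) * (β ^ K) ^ t := by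
        intro W
        have hsub : W.map Fin.valEmbedding ⊆ range N := fun t ht => by
          obtain ⟨x, -, rfl⟩ := Finset.mem_map.1 ht
          exact Finset.mem_range.2 x.2
        simp only [ite_mul, one_mul, zero_mul]
        rw [← Finset.sum_filter, Finset.filter_mem_eq_inter, Finset.inter_eq_right.2 hsub,
          Finset.sum_map, Finset.mul_sum]
        refine Finset.sum_congr rfl fun x _ => ?_
        rw [pow_add, pow_one, pow_mul]
        rfl
      have hz := digits_zero (γ := β ^ K) (by rwa [norm_pow]) ε (by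
        intro t
        simp only [hε]
        split_ifs <;> simp) N (by
        have e := (hB' U hU).trans (hB' U' hU').symm
        rw [hs, hs] at e
        simp only [hε, sub_mul, Finset.sum_sub_distrib]
        exact sub_eq_zero.2 (mul_left_cancel₀ h0 e))
      ext x
      have := hz x.1 x.2
      have m1 : ∀ W : Finset (Fin N), x.1 ∈ W.map Fin.valEmbedding ↔ x ∈ W :=
        fun W => Finset.mem_map' Fin.valEmbedding
      simp only [hε, m1] at this
      by_cases a : x ∈ U <;> by_cases b : x ∈ U' <;> simp_all) c B hB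
  simpa using this

/-- a root of unity of degree at least `r` -/
lemma card_unity {α : ℂ} {m r : ℕ} (hm : 0 < m) (hα : α ^ m = 1) (hr : r ≤ m)
    (hli : LinearIndependent ℚ fun j : Fin r => α ^ j.1) (n N : ℕ) (hN : m * N < n)
    (c : ℂ) (B : Finset (Finset ℕ)) (hB : ∀ S ∈ B, S ⊆ Ioo 0 n ∧ ∑ i ∈ S, α ^ i = c) :
    B.card ≤ N.choose (N / 2) ^ r * 2 ^ (n - 1 - r * N) := by
  classical
  have h0 : α ≠ 0 := by
    rintro rfl
    rw [zero_pow hm.ne'] at hα
    exact zero_ne_one hα
  have := restrict_card (Ioo 0 n) (fun x : Fin r × Fin N => 1 + (x.1.1 + m * x.2.1))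
    (by
      rintro ⟨j, t⟩ ⟨j', t'⟩ h
      have h1 : j.1 + m * t.1 = j'.1 + m * t'.1 := by simpa using h
      have h2 := congrArg (· % m) h1
      simp only [Nat.add_mul_mod_self_left, Nat.mod_eq_of_lt (j.2.trans_le hr),
        Nat.mod_eq_of_lt (j'.2.trans_le hr)] at h2
      rw [h2] at h1
      exact Prod.ext (Fin.ext h2)
        (Fin.ext (Nat.eq_of_mul_eq_mul_left hm (Nat.add_left_cancel h1))))
    (fun x => Finset.mem_Ioo.2 ⟨by omega, by
      have : m * (x.2.1 + 1) ≤ m * N := Nat.mul_le_mul_left _ x.2.2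
      rw [Nat.mul_succ] at this
      have := x.1.2
      omega⟩) (fun i => α ^ i) (N.choose (N / 2) ^ r) (by
      intro c B' hB'
      set ψ : Finset (Fin r × Fin N) → Fin r → Finset (Fin N) :=
        fun U j => univ.filter fun t => (j, t) ∈ U with hψ
      have hs : ∀ U : Finset (Fin r × Fin N), ∑ x ∈ U, α ^ (1 + (x.1.1 + m * x.2.1))
          = α * ∑ j : Fin r, ((ψ U j).card : ℚ) • α ^ j.1 := by
        intro U
        have e1 : ∑ x ∈ U, α ^ (1 + (x.1.1 + m * x.2.1))
            = ∑ x : Fin r × Fin N, if x ∈ U then α * α ^ x.1.1 else 0 := by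
          rw [← Finset.sum_filter, Finset.filter_mem_eq_inter, Finset.univ_inter]
          refine Finset.sum_congr rfl fun x _ => ?_
          rw [pow_add, pow_add, pow_mul, hα, one_pow, pow_one, mul_one]
        rw [e1, Fintype.sum_prod_type, Finset.mul_sum]
        refine Finset.sum_congr rfl fun j _ => ?_
        rw [← Finset.sum_filter]
        simp only [Finset.sum_const, hψ, nsmul_eq_mul, Rat.smul_def, Rat.cast_natCast]
        ring
      rcases B'.eq_empty_or_nonempty with rfl | ⟨U0, hU0⟩
      · simp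
      have hmap : ∀ U ∈ B', ψ U ∈ Fintype.piFinset fun j : Fin r =>
          Finset.powersetCard (ψ U0 j).card (univ : Finset (Fin N)) := by
        intro U hU
        have e := (hB' U hU).trans (hB' U0 hU0).symm
        rw [hs, hs] at e
        have e2 := mul_left_cancel₀ h0 e
        have e3 := Fintype.linearIndependent_iff.1 hli
          (fun j => ((ψ U j).card : ℚ) - (ψ U0 j).card) (by
            simp only [sub_smul, Finset.sum_sub_distrib]
            exact sub_eq_zero.2 e2)
        refine Fintype.mem_piFinset.2 fun j => Finset.mem_powersetCard.2 ⟨subset_univ _, ?_⟩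
        exact_mod_cast sub_eq_zero.1 (e3 j)
      refine (Finset.card_le_card_of_injOn ψ hmap ?_).trans ?_
      · intro U _ U' _ h
        ext ⟨j, t⟩
        have := congrArg (fun W => t ∈ W) (congrFun h j)
        simpa [hψ] using this
      · rw [Fintype.card_piFinset]
        refine (Finset.prod_le_pow_card _ _ (N.choose (N / 2)) fun j _ => ?_).trans (by simp)
        rw [Finset.card_powersetCard, Finset.card_univ, Fintype.card_fin]
        exact Nat.choose_le_middle _ _) c B hB
  simpa using this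

end Pool.Agent.P.MP_8cce2a_nt
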