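import Mathlib

/-!
Counting tools: weighted sequential counting, exponential moments, Gaussian lattice sums.
-/

namespace Pool.Agent.P.MP_8cce2a_nt.G

open Finset Real

/-- weighted sequential counting -/
lemma wb_sum {ι σ Λ : Type*} [Fintype Λ] [Zero σ] [DecidableEq Λ] [DecidableEq (ℕ → σ)]
    (B : Finset ι) (x : ι → ℕ → σ) (lab : ι → Λ) (ω : ℕ → σ → ℝ) (hω : ∀ t s, 0 ≤ ω t s)
    {T : ℝ} (hT : 0 ≤ T) (L : ℕ)
    (hstep : ∀ t < L, ∀ a ∈ B, ∀ U : Finset σ,
      (∀ s ∈ U, ∃ b ∈ B, lab b = lab a ∧ (∀ r < t, x b r = x a r) ∧ x b t = s) →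
        ∑ s ∈ U, ω t s ≤ T) :
    ∑ p ∈ B.image (fun a => (lab a, fun r => if r < L then x a r else 0)),
      ∏ t ∈ range L, ω t (p.2 t) ≤ Fintype.card Λ * T ^ L := by
  classical
  induction L with
  | zero =>
    simp only [Finset.range_zero, Finset.prod_empty, Finset.sum_const, nsmul_eq_mul, mul_one,
      pow_zero, Nat.not_lt_zero, if_false]
    have : (B.image fun a => (lab a, fun _ : ℕ => (0 : σ))).card ≤ Fintype.card Λ := by
      refine Finset.card_le_card_of_injOn (t := univ) Prod.fst (fun _ _ => Finset.mem_univ _) ?_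
      intro p hp p' hp' h
      obtain ⟨a, -, rfl⟩ := Finset.mem_image.1 (Finset.mem_coe.1 hp)
      obtain ⟨b, -, rfl⟩ := Finset.mem_image.1 (Finset.mem_coe.1 hp')
      exact Prod.ext h rfl
    exact_mod_cast this
  | succ L ih =>
    have ih' := ih fun t ht => hstep t (by omega)
    set cut : Λ × (ℕ → σ) → Λ × (ℕ → σ) := fun p => (p.1, fun r => if r < L then p.2 r else 0)
      with hcut
    have hcuta : ∀ a, cut (lab a, fun r => if r < L + 1 then x a r else 0)
        = (lab a, fun r => if r < L then x a r else 0) := by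
      intro a
      refine Prod.ext rfl (funext fun r => ?_)
      by_cases h : r < L
      · simp only [hcut, if_pos h, if_pos (Nat.lt_succ_of_lt h)]
      · simp [hcut, h]
    rw [← Finset.sum_fiberwise_of_maps_to (g := cut)
      (t := B.image (fun a => (lab a, fun r => if r < L then x a r else 0))) (by
        intro p hp
        obtain ⟨a, ha, rfl⟩ := Finset.mem_image.1 hp
        exact Finset.mem_image.2 ⟨a, ha, (hcuta a).symm⟩), pow_succ, ← mul_assoc]
    refine le_trans (Finset.sum_le_sum fun p' hp' => ?_)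
      ((Finset.sum_mul _ _ _).symm.trans_le (mul_le_mul_of_nonneg_right ih' hT))
    obtain ⟨a, ha, rfl⟩ := Finset.mem_image.1 hp'
    set F := (B.image (fun a => (lab a, fun r => if r < L + 1 then x a r else 0))).filter
      fun p => cut p = (lab a, fun r => if r < L then x a r else 0) with hF
    have hmem : ∀ p ∈ F, ∃ b ∈ B, lab b = lab a ∧ (∀ r < L, x b r = x a r) ∧
        p = (lab b, fun r => if r < L + 1 then x b r else 0) := by
      intro p hp
      obtain ⟨h1, h2⟩ := Finset.mem_filter.1 hp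
      obtain ⟨b, hb, rfl⟩ := Finset.mem_image.1 h1
      rw [hcuta] at h2
      refine ⟨b, hb, (Prod.mk.inj h2).1, fun r hr => ?_, rfl⟩
      simpa [hr] using congrFun (Prod.mk.inj h2).2 r
    have e1 : ∑ p ∈ F, ∏ t ∈ range (L + 1), ω t (p.2 t)
        = (∏ t ∈ range L, ω t (if t < L then x a t else 0)) * ∑ p ∈ F, ω L (p.2 L) := by
      rw [Finset.mul_sum]
      refine Finset.sum_congr rfl fun p hp => ?_
      obtain ⟨b, -, -, h2, rfl⟩ := hmem p hp
      rw [Finset.prod_range_succ]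
      congr 1
      refine Finset.prod_congr rfl fun t ht => ?_
      have := Finset.mem_range.1 ht
      simp [this, Nat.lt_succ_of_lt this, h2 t this]
    rw [e1]
    refine mul_le_mul_of_nonneg_left ?_ (Finset.prod_nonneg fun _ _ => hω _ _)
    rw [← Finset.sum_image (g := fun p : Λ × (ℕ → σ) => p.2 L) (f := ω L) (by
      intro p hp p' hp' h
      obtain ⟨b, -, h1, h2, rfl⟩ := hmem p hp
      obtain ⟨b', -, h1', h2', rfl⟩ := hmem p' hp'
      refine Prod.ext (h1.trans h1'.symm) (funext fun r => ?_)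
      rcases lt_trichotomy r L with h3 | rfl | h3
      · simp [Nat.lt_succ_of_lt h3, h2 r h3, h2' r h3]
      · exact h
      · simp [show ¬ r < L + 1 by omega])]
    refine hstep L (by omega) a ha _ fun s hs => ?_
    obtain ⟨p, hp, rfl⟩ := Finset.mem_image.1 hs
    obtain ⟨b, hb, h1, h2, rfl⟩ := hmem p hp
    exact ⟨b, hb, h1, h2, by simp⟩

lemma wb_card {ι σ Λ : Type*} [Fintype Λ] [Zero σ]
    (B : Finset ι) (x : ι → ℕ → σ) (lab : ι → Λ) (φ : ℕ → σ → ℝ) {T R : ℝ} (hT : 0 ≤ T) (L : ℕ)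
    (hinj : ∀ a ∈ B, ∀ b ∈ B, lab a = lab b → (∀ t < L, x a t = x b t) → a = b)
    (hstep : ∀ t < L, ∀ a ∈ B, ∀ U : Finset σ,
      (∀ s ∈ U, ∃ b ∈ B, lab b = lab a ∧ (∀ r < t, x b r = x a r) ∧ x b t = s) →
        ∑ s ∈ U, exp (φ t s) ≤ T)
    (hR : ∀ a ∈ B, R ≤ ∑ t ∈ range L, φ t (x a t)) :
    (B.card : ℝ) ≤ Fintype.card Λ * T ^ L * exp (-R) := by
  classical
  have h := wb_sum B x lab (fun t s => exp (φ t s)) (fun _ _ => (exp_pos _).le) hT L hstep
  rw [Finset.sum_image (by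
    intro a ha b hb e
    refine hinj a ha b hb (Prod.mk.inj e).1 fun t ht => ?_
    simpa [ht] using congrFun (Prod.mk.inj e).2 t)] at h
  have h2 : (B.card : ℝ) * exp R ≤ Fintype.card Λ * T ^ L := by
    refine le_trans ?_ h
    rw [← nsmul_eq_mul]
    refine Finset.card_nsmul_le_sum _ _ _ fun a ha => ?_
    rw [← exp_sum]
    refine exp_le_exp.2 ((hR a ha).trans (le_of_eq (Finset.sum_congr rfl fun t ht => ?_)))
    simp [Finset.mem_range.1 ht]
  rw [exp_neg, ← div_eq_mul_inv, le_div_iff₀ (exp_pos _)]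
  exact h2

/-- exponential moment bound -/
lemma chernoff {ι σ Λ : Type*} [Fintype Λ] [Zero σ]
    (B : Finset ι) (x : ι → ℕ → σ) (lab : ι → Λ) (N : Finset σ) (F : ℕ → σ → ℝ) {C τ R : ℝ}
    (hτ : 0 ≤ τ) (hτC : τ * C ≤ 1) (L : ℕ)
    (hinj : ∀ a ∈ B, ∀ b ∈ B, lab a = lab b → (∀ t < L, x a t = x b t) → a = b)
    (hN : ∀ a ∈ B, ∀ t < L, x a t ∈ N) (hF0 : ∀ t, ∑ s ∈ N, F t s ≤ 0)
    (hFC : ∀ t, ∀ s ∈ N, |F t s| ≤ C) (hR : ∀ a ∈ B, R ≤ ∑ t ∈ range L, F t (x a t)) :
    (B.card : ℝ) ≤ Fintype.card Λ * N.card ^ L * exp (τ ^ 2 * C ^ 2 * L - τ * R) := by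
  have h := wb_card B x lab (fun t s => τ * F t s) (T := N.card * exp (τ ^ 2 * C ^ 2))
    (R := τ * R) (by positivity) L hinj (by
      intro t ht a _ U hU
      have hUN : U ⊆ N := fun s hs => by
        obtain ⟨b, hb, -, -, rfl⟩ := hU s hs
        exact hN b hb t ht
      refine (Finset.sum_le_sum_of_subset_of_nonneg hUN fun _ _ _ => (exp_pos _).le).trans ?_
      have h1 : ∀ s ∈ N, exp (τ * F t s) ≤ exp (τ ^ 2 * C ^ 2) + τ * F t s := by
        intro s hs
        have a1 : |τ * F t s| ≤ τ * C := by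
          rw [abs_mul, abs_of_nonneg hτ]
          exact mul_le_mul_of_nonneg_left (hFC t s hs) hτ
        have a2 := (abs_le.1 (abs_exp_sub_one_sub_id_le (a1.trans hτC))).2
        have a3 : (τ * F t s) ^ 2 ≤ (τ * C) ^ 2 := sq_le_sq' (abs_le.1 a1).1 (abs_le.1 a1).2
        have a4 := add_one_le_exp (τ ^ 2 * C ^ 2)
        nlinarith
      refine (Finset.sum_le_sum h1).trans ?_
      rw [Finset.sum_add_distrib, Finset.sum_const, nsmul_eq_mul, ← Finset.mul_sum]
      nlinarith [hF0 t]) (by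
      intro a ha
      rw [← Finset.mul_sum]
      exact mul_le_mul_of_nonneg_left (hR a ha) hτ)
  refine h.trans (le_of_eq ?_)
  rw [mul_pow, ← exp_nat_mul, sub_eq_add_neg, exp_add]
  ring_nf

/-- Gaussian sums over the integers -/
lemma gauss_sum {l : ℝ} (hl : 0 < l) (y : ℝ) (U : Finset ℤ) :
    ∑ u ∈ U, exp (-l * ((u : ℝ) - y) ^ 2) ≤ exp (l / 12) * √(π / l) := by
  have hint := integrable_exp_neg_mul_sq hl
  have h1 : ∀ z : ℝ, exp (-l * z ^ 2)
      ≤ exp (l / 12) * ∫ x in Set.Ioc (z - 1 / 2) (z + 1 / 2), exp (-l * x ^ 2) := by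
    intro z
    rw [← intervalIntegral.integral_of_le (by linarith)]
    have a1 : ∫ x in (z - 1 / 2)..(z + 1 / 2),
        exp (-l * (z ^ 2 + 1 / 12)) * (1 + l * (z ^ 2 + 1 / 12) - l * x ^ 2)
        ≤ ∫ x in (z - 1 / 2)..(z + 1 / 2), exp (-l * x ^ 2) := by
      refine intervalIntegral.integral_mono_on (by linarith)
        (Continuous.intervalIntegrable (by fun_prop) _ _)
        (Continuous.intervalIntegrable (by fun_prop) _ _) fun x _ => ?_
      have : exp (-l * x ^ 2) = exp (-l * (z ^ 2 + 1 / 12))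
          * exp (l * (z ^ 2 + 1 / 12) - l * x ^ 2) := by
        rw [← exp_add]
        ring_nf
      rw [this]
      refine mul_le_mul_of_nonneg_left ?_ (exp_pos _).le
      linarith [add_one_le_exp (l * (z ^ 2 + 1 / 12) - l * x ^ 2)]
    have a2 : ∫ x in (z - 1 / 2)..(z + 1 / 2),
        exp (-l * (z ^ 2 + 1 / 12)) * (1 + l * (z ^ 2 + 1 / 12) - l * x ^ 2)
        = exp (-l * (z ^ 2 + 1 / 12)) := by
      rw [intervalIntegral.integral_const_mul, intervalIntegral.integral_sub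
        (Continuous.intervalIntegrable (by fun_prop) _ _)
        (Continuous.intervalIntegrable (by fun_prop) _ _), intervalIntegral.integral_const,
        intervalIntegral.integral_const_mul, integral_pow]
      simp only [smul_eq_mul]
      push_cast
      ring
    rw [a2] at a1
    calc exp (-l * z ^ 2) = exp (l / 12) * exp (-l * (z ^ 2 + 1 / 12)) := by
          rw [← exp_add]
          ring_nf
      _ ≤ _ := mul_le_mul_of_nonneg_left a1 (exp_pos _).le
  refine (Finset.sum_le_sum fun u _ => h1 _).trans ?_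
  rw [← Finset.mul_sum, ← integral_gaussian]
  refine mul_le_mul_of_nonneg_left ?_ (exp_pos _).le
  rw [← MeasureTheory.integral_biUnion_finset U (fun _ _ => measurableSet_Ioc) (by
    intro u _ v _ huv
    rw [Function.onFun, Set.Ioc_disjoint_Ioc]
    rcases lt_or_gt_of_ne huv with h | h
    · have : (u : ℝ) + 1 ≤ v := by exact_mod_cast h
      exact (min_le_left _ _).trans (le_trans (by linarith) (le_max_right _ _))
    · have : (v : ℝ) + 1 ≤ u := by exact_mod_cast h
      exact (min_le_right _ _).trans (le_trans (by linarith) (le_max_left _ _)))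
    (fun _ _ => hint.integrableOn)]
  exact MeasureTheory.setIntegral_le_integral hint
    (Filter.Eventually.of_forall fun _ => (exp_pos _).le)

lemma sinh_le {y : ℝ} (hy : 0 ≤ y) : sinh y ≤ y * exp (y ^ 2 / 6) := by
  rw [sinh_eq_tsum, exp_eq_exp_ℝ, NormedSpace.exp_eq_tsum ℝ, ← tsum_mul_left]
  refine y.hasSum_sinh.summable.tsum_le_tsum (fun i => ?_)
    ((NormedSpace.expSeries_summable' (y ^ 2 / 6)).mul_left y)
  have h : ∀ i : ℕ, 6 ^ i * i.factorial ≤ (2 * i + 1).factorial := by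
    intro i
    induction i with
    | zero => simp
    | succ i ih =>
      rw [show 2 * (i + 1) + 1 = 2 * i + 1 + 1 + 1 by ring, Nat.factorial_succ (2 * i + 1 + 1),
        Nat.factorial_succ (2 * i + 1), Nat.factorial_succ i, pow_succ]
      calc 6 ^ i * 6 * ((i + 1) * i.factorial) = (6 * (i + 1)) * (6 ^ i * i.factorial) := by ring
        _ ≤ ((2 * i + 1 + 1 + 1) * (2 * i + 1 + 1)) * (2 * i + 1).factorial :=
            Nat.mul_le_mul (by nlinarith) ih
        _ = _ := by ring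
  simp only [div_pow, pow_succ y (2 * i), pow_mul, smul_eq_mul, inv_mul_eq_div, div_div]
  rw [← mul_div_assoc, mul_comm y]
  gcongr
  exact_mod_cast h i

lemma subgauss_range (q : ℕ) (l : ℝ) :
    ∑ i ∈ range q, exp (l * (2 * (i : ℝ) - (q - 1))) ≤ q * exp (l ^ 2 * q ^ 2 / 6) := by
  wlog hl : 0 ≤ l generalizing l
  · have := this (-l) (by linarith)
    rw [neg_sq, ← Finset.sum_range_reflect] at this
    refine le_trans (le_of_eq (Finset.sum_congr rfl fun i hi => ?_)) this
    have hi' := Finset.mem_range.1 hi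
    rw [Nat.cast_sub (by omega), Nat.cast_sub (by omega)]
    push_cast
    ring_nf
  rcases hl.eq_or_lt with rfl | hl
  · simp
  have h1 : ∀ i ∈ range q, 2 * l * exp (l * (2 * (i : ℝ) - (q - 1)))
      ≤ exp (l * (2 * ((i + 1 : ℕ) : ℝ) - q)) - exp (l * (2 * (i : ℝ) - q)) := by
    intro i _
    have a1 := self_le_sinh_iff.2 hl.le
    rw [sinh_eq] at a1
    have a2 : exp (l * (2 * ((i + 1 : ℕ) : ℝ) - q))
        = exp (l * (2 * (i : ℝ) - (q - 1))) * exp l := by
      rw [← exp_add]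
      push_cast
      ring_nf
    have a3 : exp (l * (2 * (i : ℝ) - q)) = exp (l * (2 * (i : ℝ) - (q - 1))) * exp (-l) := by
      rw [← exp_add]
      ring_nf
    rw [a2, a3]
    nlinarith [exp_pos (l * (2 * (i : ℝ) - (q - 1)))]
  have h2 := Finset.sum_le_sum h1
  rw [← Finset.mul_sum, Finset.sum_range_sub (fun i : ℕ => exp (l * (2 * (i : ℝ) - q)))] at h2
  have h3 := sinh_le (y := l * q) (by positivity)
  rw [sinh_eq, mul_pow] at h3
  have e1 : l * (2 * (q : ℝ) - q) = l * q := by ring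
  have e2 : l * (2 * ((0 : ℕ) : ℝ) - q) = -(l * q) := by
    push_cast
    ring
  rw [e1, e2] at h2
  refine le_of_mul_le_mul_left (h2.trans ?_) (show 0 < 2 * l by positivity)
  linarith

lemma sum_range_lin (q : ℕ) : ∑ i ∈ range q, (2 * (i : ℝ) - (q - 1)) = 0 := by
  have : ∀ m : ℕ, ∑ i ∈ range m, (2 * (i : ℝ) - (q - 1)) = m * (m - 1) - m * (q - 1) := by
    intro m
    induction m with
    | zero => simp
    | succ m ih =>
      rw [Finset.sum_range_succ, ih]
      push_cast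
      ring
  rw [this]
  ring

lemma sum_range_sq (q : ℕ) :
    ∑ i ∈ range q, (2 * (i : ℝ) - (q - 1)) ^ 2 = (q : ℝ) * (((q : ℝ) ^ 2 - 1) / 3) := by
  have : ∀ m : ℕ, ∑ i ∈ range m, (2 * (i : ℝ) - (q - 1)) ^ 2
      = 4 * (((m : ℝ) - 1) * m * (2 * m - 1) / 6) - 2 * (q - 1) * (m * (m - 1))
        + m * (q - 1) ^ 2 := by
    intro m
    induction m with
    | zero => simp
    | succ m ih =>
      rw [Finset.sum_range_succ, ih]
      push_cast
      ring
  rw [this]
  ring

/-- the centred and doubled value -/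
noncomputable def cc (A : ℤ) (q : ℕ) (x : ℤ) : ℝ := 2 * (x : ℝ) - (2 * A + q - 1)

lemma sum_Ico_cc (A : ℤ) (q : ℕ) (F : ℝ → ℝ) :
    ∑ x ∈ Ico A (A + q), F (cc A q x) = ∑ i ∈ range q, F (2 * (i : ℝ) - (q - 1)) := by
  symm
  refine Finset.sum_nbij' (fun i : ℕ => A + i) (fun x => (x - A).toNat) ?_ ?_ ?_ ?_ ?_
  · intro i hi
    have := Finset.mem_range.1 hi
    exact Finset.mem_Ico.2 (by omega)
  · intro x hx
    have := Finset.mem_Ico.1 hx
    exact Finset.mem_range.2 (by omega)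
  · intro i _
    simp
  · intro x hx
    have := Finset.mem_Ico.1 hx
    omega
  · intro i _
    congr 1
    simp only [cc]
    push_cast
    ring

lemma subgauss (A : ℤ) (q : ℕ) (l : ℝ) :
    ∑ x ∈ Ico A (A + q), exp (l * cc A q x) ≤ q * exp (l ^ 2 * q ^ 2 / 6) :=
  (sum_Ico_cc A q fun y => exp (l * y)).trans_le (subgauss_range q l)

lemma sum_cc (A : ℤ) (q : ℕ) : ∑ x ∈ Ico A (A + q), cc A q x = 0 :=
  (sum_Ico_cc A q fun y => y).trans (sum_range_lin q)

lemma sum_cc_sq (A : ℤ) (q : ℕ) :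
    ∑ x ∈ Ico A (A + q), cc A q x ^ 2 = (q : ℝ) * (((q : ℝ) ^ 2 - 1) / 3) :=
  (sum_Ico_cc A q fun y => y ^ 2).trans (sum_range_sq q)

lemma abs_cc_le {A : ℤ} {q : ℕ} {x : ℤ} (hx : x ∈ Ico A (A + q)) : |cc A q x| ≤ q := by
  obtain ⟨h1, h2⟩ := Finset.mem_Ico.1 hx
  have a1 : (A : ℝ) ≤ x := by exact_mod_cast h1
  have a2 : (x : ℝ) + 1 ≤ A + q := by exact_mod_cast h2
  rw [cc, abs_le]
  constructor <;> linarith

/-- the representative in the interval -/
def rep (A : ℤ) (q : ℕ) (x : ℤ) : ℤ := A + (x - A) % q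

lemma rep_mem (A : ℤ) {q : ℕ} (hq : 0 < q) (x : ℤ) : rep A q x ∈ Ico A (A + q) := by
  have h : (0 : ℤ) < q := by exact_mod_cast hq
  have := Int.emod_nonneg (x - A) h.ne'
  have := Int.emod_lt_of_pos (x - A) h
  exact Finset.mem_Ico.2 (by simp only [rep]; omega)

lemma rep_cast (A : ℤ) (q : ℕ) (x : ℤ) : ((rep A q x : ℤ) : ZMod q) = x := by
  simp [rep]

lemma eq_of_cast {A : ℤ} {q : ℕ} {x y : ℤ} (hx : x ∈ Ico A (A + q)) (hy : y ∈ Ico A (A + q))
    (h : (x : ZMod q) = y) : x = y := by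
  rw [ZMod.intCast_eq_intCast_iff_dvd_sub] at h
  obtain ⟨h1, h2⟩ := Finset.mem_Ico.1 hx
  obtain ⟨h3, h4⟩ := Finset.mem_Ico.1 hy
  have := Int.eq_zero_of_abs_lt_dvd h (by rw [abs_lt]; omega)
  omega

lemma cc_rep_le (A : ℤ) {q : ℕ} (hq : 0 < q) (x : ℤ) : cc A q (rep A q x) ^ 2 ≤ cc A q x ^ 2 := by
  by_cases hx : x ∈ Ico A (A + q)
  · rw [eq_of_cast (rep_mem A hq x) hx (rep_cast A q x)]
  · have h1 := abs_cc_le (rep_mem A hq x)
    rw [sq_le_sq]
    refine h1.trans ?_
    rw [Finset.mem_Ico, not_and_or, not_le, not_lt] at hx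
    rcases hx with h | h
    · have : (x : ℝ) + 1 ≤ A := by exact_mod_cast h
      rw [le_abs']
      left
      rw [cc]
      linarith
    · have : (A : ℝ) + q ≤ x := by exact_mod_cast h
      rw [le_abs]
      left
      rw [cc]
      linarith

end Pool.Agent.P.MP_8cce2a_nt.G
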