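import Pool.Agent.P.MP_8cce2a_nt.Large
import Pool.Agent.P.MP_8cce2a_nt.GTools

/-!
Polynomials with coefficients in an interval of integers: the twist and typical events.
-/

namespace Pool.Agent.P.MP_8cce2a_nt.G

open Polynomial Finset Real

/-- monic polynomials with given constant term and middle coefficients in the interval -/
structure Adm (A : ℤ) (q : ℕ) (κ : ℤ) (n : ℕ) (f : ℤ[X]) : Prop where
  mo : f.Monic
  dg : f.natDegree = n
  c0 : f.coeff 0 = κ
  mem : ∀ i, 0 < i → i < n → f.coeff i ∈ Ico A (A + q)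

/-- a factorisation with prescribed degrees and constant terms -/
structure GF (α γ : ℤ) (d e : ℕ) (g h : ℤ[X]) : Prop where
  mg : g.Monic
  mh : h.Monic
  dg : g.natDegree = d
  dh : h.natDegree = e
  g0 : g.coeff 0 = α
  h0 : h.coeff 0 = γ

lemma GF.symm {α γ : ℤ} {d e : ℕ} {g h : ℤ[X]} (F : GF α γ d e g h) : GF γ α e d h g :=
  ⟨F.mh, F.mg, F.dh, F.dg, F.h0, F.g0⟩

lemma refl0 {R : Type*} [Semiring R] {g : R[X]} {d : ℕ} (hg : g.Monic) (hd : g.natDegree = d) :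
    (reflect d g).coeff 0 = 1 := by
  rw [coeff_reflect, revAt_le (Nat.zero_le _), Nat.sub_zero, ← hd]
  exact hg

lemma Adm.cn {A κ : ℤ} {q n : ℕ} {f : ℤ[X]} (h : Adm A q κ n f) : f.coeff n = 1 := by
  rw [← h.dg]
  exact h.mo

lemma Adm.rmem {A κ : ℤ} {q n : ℕ} {f : ℤ[X]} (h : Adm A q κ n f) {i : ℕ} (h1 : 0 < i)
    (h2 : i < n) : (reflect n f).coeff i ∈ Ico A (A + q) := by
  rw [coeff_reflect, revAt_le h2.le]
  exact h.mem _ (by omega) (by omega)

lemma Adm.ext {A κ : ℤ} {q n : ℕ} {f f' : ℤ[X]} (h : Adm A q κ n f) (h' : Adm A q κ n f')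
    (e : ∀ i, 0 < i → i < n → f.coeff i = f'.coeff i) : f = f' := by
  ext i
  rcases Nat.eq_zero_or_pos i with rfl | h0
  · rw [h.c0, h'.c0]
  rcases lt_trichotomy i n with h1 | rfl | h1
  · exact e i h0 h1
  · rw [h.cn, h'.cn]
  · rw [coeff_eq_zero_of_natDegree_lt (h.dg ▸ h1), coeff_eq_zero_of_natDegree_lt (h'.dg ▸ h1)]

lemma Adm.ext_map {A κ : ℤ} {q n : ℕ} {f f' : ℤ[X]} (h : Adm A q κ n f) (h' : Adm A q κ n f')
    (e : f.map (Int.castRingHom (ZMod q)) = f'.map (Int.castRingHom (ZMod q))) : f = f' := by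
  refine h.ext h' fun i h1 h2 => eq_of_cast (h.mem i h1 h2) (h'.mem i h1 h2) ?_
  simpa using congrArg (fun p => p.coeff i) e

lemma dvd_cancel {R : Type*} [CommRing R] {G U : R[X]} (h0 : G.coeff 0 = 1) {m : ℕ}
    (h : X ^ m ∣ U * G) : X ^ m ∣ U := by
  induction m with
  | zero => simp
  | succ m ih =>
    have h1 := ih ((pow_dvd_pow _ (Nat.le_succ m)).trans h)
    have h2 := X_pow_dvd_iff.1 h m (Nat.lt_succ_self m)
    rw [coeff_mul_of_dvd h1, h0, mul_one] at h2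
    refine X_pow_dvd_iff.2 fun i hi => ?_
    rcases Nat.lt_succ_iff_lt_or_eq.1 hi with hi | rfl
    · exact X_pow_dvd_iff.1 h1 i hi
    · exact h2

lemma cancel_l {R : Type*} [CommRing R] {G G' H H' : R[X]} {m : ℕ} (h0 : G.coeff 0 = 1)
    (h1 : X ^ m ∣ G - G') (h2 : X ^ m ∣ G * H - G' * H') : X ^ m ∣ H - H' := by
  refine dvd_cancel h0 ?_
  have : (H - H') * G = (G * H - G' * H') - (G - G') * H' := by ring
  rw [this]
  exact dvd_sub h2 (h1.mul_right _)

lemma low_high {R : Type*} [CommRing R] {G G' : R[X]} {d m a : ℕ} (hG : G.natDegree ≤ d)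
    (hG' : G'.natDegree ≤ d) (h1 : X ^ a ∣ G - G')
    (h2 : X ^ m ∣ reflect d G - reflect d G')
    (h3 : ∀ i, a ≤ i → i + m ≤ d → G.coeff i = G'.coeff i) : G = G' := by
  ext i
  by_cases c1 : i < a
  · have := X_pow_dvd_iff.1 h1 i c1
    rwa [coeff_sub, sub_eq_zero] at this
  by_cases c2 : i + m ≤ d
  · exact h3 i (by omega) c2
  by_cases c3 : i ≤ d
  · have := X_pow_dvd_iff.1 h2 (d - i) (by omega)
    rwa [coeff_sub, sub_eq_zero, coeff_reflect, coeff_reflect, revAt_le (Nat.sub_le _ _),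
      Nat.sub_sub_self c3] at this
  · rw [coeff_eq_zero_of_natDegree_lt (by omega), coeff_eq_zero_of_natDegree_lt (by omega)]

lemma dvd_of_coeffs {R : Type*} [CommRing R] {P P' : R[X]} {t : ℕ} (h0 : P.coeff 0 = P'.coeff 0)
    (h : ∀ r < t, P.coeff (r + 1) = P'.coeff (r + 1)) : X ^ (t + 1) ∣ P - P' := by
  refine X_pow_dvd_iff.2 fun i hi => ?_
  rcases i with _ | i
  · rw [coeff_sub, h0, sub_self]
  · rw [coeff_sub, h i (by omega), sub_self]

lemma mapq_dvd {P P' : ℤ[X]} {m : ℕ} (q : ℕ) (h : X ^ m ∣ P - P') :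
    X ^ m ∣ P.map (Int.castRingHom (ZMod q)) - P'.map (Int.castRingHom (ZMod q)) := by
  have := Polynomial.map_dvd (Int.castRingHom (ZMod q)) h
  simpa using this

/-- monic polynomials of the same degree with the same lower coefficients -/
lemma map_eq_of_low {g g' : ℤ[X]} {d : ℕ} (q : ℕ) (hg : g.Monic) (hg' : g'.Monic)
    (hd : g.natDegree = d) (hd' : g'.natDegree = d)
    (h : X ^ d ∣ g.map (Int.castRingHom (ZMod q)) - g'.map (Int.castRingHom (ZMod q))) :
    g.map (Int.castRingHom (ZMod q)) = g'.map (Int.castRingHom (ZMod q)) := by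
  refine low_high (d := d) (m := 0 + 1) (natDegree_map_le.trans hd.le)
    (natDegree_map_le.trans hd'.le) h (dvd_of_coeffs ?_ (by simp)) fun i _ _ => by omega
  rw [reflect_map, reflect_map, coeff_map, coeff_map, refl0 hg hd, refl0 hg' hd']

lemma coeff_mul_sub' {A B A' B' : ℤ[X]} {j : ℕ} (hA : X ^ j ∣ A - A') (hB : X ^ j ∣ B - B') :
    (A * B).coeff j - (A' * B').coeff j
      = (A.coeff j - A'.coeff j) * B.coeff 0 + (B.coeff j - B'.coeff j) * A'.coeff 0 := by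
  have : A * B - A' * B' = (A - A') * B + (B - B') * A' := by ring
  rw [← coeff_sub, this, coeff_add, coeff_mul_of_dvd hA, coeff_mul_of_dvd hB, coeff_sub,
    coeff_sub]

lemma l2_eq (A : ℤ) (q : ℕ) {p p' : ℤ[X]} {n : ℕ} (hp : p.natDegree ≤ n) (hp' : p'.natDegree ≤ n)
    (h : p * reflect n p = p' * reflect n p') (h1 : p.eval 1 = p'.eval 1) :
    ∑ i ∈ range (n + 1), cc A q (p.coeff i) ^ 2 = ∑ i ∈ range (n + 1), cc A q (p'.coeff i) ^ 2 := by
  have e2 : ∑ i ∈ range (n + 1), p.coeff i ^ 2 = ∑ i ∈ range (n + 1), p'.coeff i ^ 2 := by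
    rw [← coeff_mul_reflect, ← coeff_mul_reflect, h]
  rw [eval_one_eq hp, eval_one_eq hp'] at h1
  have e3 : ∑ i ∈ range (n + 1), (p.coeff i : ℝ) ^ 2
      = ∑ i ∈ range (n + 1), (p'.coeff i : ℝ) ^ 2 := by exact_mod_cast e2
  have e4 : ∑ i ∈ range (n + 1), (p.coeff i : ℝ) = ∑ i ∈ range (n + 1), (p'.coeff i : ℝ) := by
    exact_mod_cast h1
  have : ∀ x : ℤ, cc A q x ^ 2
      = 4 * (x : ℝ) ^ 2 - 4 * (2 * A + q - 1) * x + (2 * A + q - 1) ^ 2 := by
    intro x
    rw [cc]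
    ring
  simp only [this, Finset.sum_add_distrib, Finset.sum_sub_distrib, ← Finset.mul_sum, e3, e4]

lemma sum_ends (F : ℕ → ℝ) {n : ℕ} (hn : 0 < n) :
    ∑ i ∈ range (n + 1), F i = ∑ t ∈ range (n - 1), F (t + 1) + F 0 + F n := by
  obtain ⟨m, rfl⟩ : ∃ m, n = m + 1 := ⟨n - 1, by omega⟩
  rw [Finset.sum_range_succ, Finset.sum_range_succ', Nat.add_sub_cancel]

section twist

variable {α γ : ℤ} {d e : ℕ} {g h : ℤ[X]}

lemma GF.w_deg (F : GF α γ d e g h) : (reflect d g * h).natDegree ≤ d + e :=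
  natDegree_mul_le.trans (add_le_add (natDegree_reflect_le' F.dg.le) F.dh.le)

lemma GF.w_refl (F : GF α γ d e g h) : reflect (d + e) (reflect d g * h) = g * reflect e h := by
  rw [reflect_mul _ _ (natDegree_reflect_le' F.dg.le) F.dh.le, reflect_reflect]

lemma GF.f_refl (F : GF α γ d e g h) : reflect (d + e) (g * h) = reflect d g * reflect e h :=
  reflect_mul _ _ F.dg.le F.dh.le

lemma GF.f_deg (F : GF α γ d e g h) : (g * h).natDegree ≤ d + e :=
  natDegree_mul_le.trans (add_le_add F.dg.le F.dh.le)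

lemma GF.l2 (F : GF α γ d e g h) (A : ℤ) (q : ℕ) :
    ∑ i ∈ range (d + e + 1), cc A q ((reflect d g * h).coeff i) ^ 2
      = ∑ i ∈ range (d + e + 1), cc A q ((g * h).coeff i) ^ 2 := by
  refine l2_eq A q F.w_deg F.f_deg ?_ ?_
  · rw [F.w_refl, F.f_refl]
    ring
  · rw [eval_mul, eval_mul, eval_one_reflect F.dg.le]

end twist

/-- the variance -/
noncomputable def s2 (q : ℕ) : ℝ := ((q : ℝ) ^ 2 - 1) / 3

lemma s2_nonneg {q : ℕ} (hq : 0 < q) : 0 ≤ s2 q := by
  have : (1 : ℝ) ≤ q := by exact_mod_cast hq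
  rw [s2]
  nlinarith

lemma s2_le (q : ℕ) : s2 q ≤ q ^ 2 := by
  rw [s2]
  nlinarith [sq_nonneg (q : ℝ)]

lemma cc_sq_le {A : ℤ} {q : ℕ} {x : ℤ} (hx : x ∈ Ico A (A + q)) : cc A q x ^ 2 ≤ q ^ 2 :=
  sq_le_sq' (abs_le.1 (abs_cc_le hx)).1 (abs_le.1 (abs_cc_le hx)).2

lemma card_I (A : ℤ) (q : ℕ) : (Ico A (A + q)).card = q := by simp

lemma chern {ι σ Λ : Type*} [Fintype Λ] [Zero σ]
    (B : Finset ι) (x : ι → ℕ → σ) (lab : ι → Λ) (N : Finset σ) (F : ℕ → σ → ℝ) {q n : ℕ} {η : ℝ}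
    (hq : 0 < q) (hη : 0 ≤ η) (hη1 : η ≤ 1) (L : ℕ) (hL : L ≤ n)
    (hinj : ∀ a ∈ B, ∀ b ∈ B, lab a = lab b → (∀ t < L, x a t = x b t) → a = b)
    (hN : ∀ a ∈ B, ∀ t < L, x a t ∈ N) (hF0 : ∀ t, ∑ s ∈ N, F t s ≤ 0)
    (hFC : ∀ t, ∀ s ∈ N, |F t s| ≤ 2 * q ^ 2)
    (hR : ∀ a ∈ B, η * n ≤ ∑ t ∈ range L, F t (x a t)) :
    (B.card : ℝ) ≤ Fintype.card Λ * N.card ^ L * exp (-(η ^ 2 / (16 * q ^ 4) * n)) := by
  have h1 : (1 : ℝ) ≤ q := by exact_mod_cast hq
  have h2 : (1 : ℝ) ≤ q ^ 2 := one_le_pow₀ h1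
  refine (chernoff B x lab N F (C := 2 * q ^ 2) (τ := η / (8 * q ^ 4)) (by positivity) ?_ L hinj
    hN hF0 hFC hR).trans (mul_le_mul_of_nonneg_left (exp_le_exp.2 ?_) (by positivity))
  · rw [div_mul_eq_mul_div, div_le_one (by positivity)]
    nlinarith
  · have h3 : (L : ℝ) ≤ n := by exact_mod_cast hL
    have e1 : (η / (8 * q ^ 4)) ^ 2 * (2 * (q : ℝ) ^ 2) ^ 2 = η ^ 2 / (16 * q ^ 4) := by
      field_simp
      ring
    have e2 : η / (8 * q ^ 4) * (η * n) = 2 * (η ^ 2 / (16 * q ^ 4) * n) := by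
      field_simp
      ring
    rw [e1, e2]
    have : η ^ 2 / (16 * q ^ 4) * L ≤ η ^ 2 / (16 * q ^ 4) * n := by gcongr
    linarith

lemma card_E1 {A κ : ℤ} {q n : ℕ} {η : ℝ} (hq : 0 < q) (hη : 0 ≤ η) (hη1 : η ≤ 1)
    (B : Finset ℤ[X]) (hB : ∀ f ∈ B, Adm A q κ n f ∧
      η * n ≤ ∑ t ∈ range (n - 1), (cc A q (f.coeff (t + 1)) ^ 2 - s2 q)) :
    (B.card : ℝ) ≤ q ^ (n - 1) * exp (-(η ^ 2 / (16 * q ^ 4) * n)) := by
  have := chern (Λ := Unit) B (fun f t => f.coeff (t + 1)) (fun _ => ()) (Ico A (A + q))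
    (fun _ s => cc A q s ^ 2 - s2 q) hq hη hη1 (n - 1) (Nat.sub_le _ _)
    (fun a ha b hb _ h => (hB a ha).1.ext (hB b hb).1 fun i h1 h2 => by
      have := h (i - 1) (by omega)
      rwa [Nat.sub_add_cancel h1] at this)
    (fun a ha t ht => (hB a ha).1.mem _ (by omega) (by omega))
    (fun _ => by
      rw [Finset.sum_sub_distrib, sum_cc_sq, Finset.sum_const, card_I, nsmul_eq_mul, s2, sub_self])
    (fun _ s hs => by
      rw [abs_le]
      constructor <;> nlinarith [cc_sq_le hs, sq_nonneg (cc A q s), s2_nonneg hq, s2_le q,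
        sq_nonneg (q : ℝ)])
    (fun a ha => (hB a ha).2)
  simpa using this

lemma card_E4 {A κ : ℤ} {q n k : ℕ} {η : ℝ} (hq : 0 < q) (hη : 0 ≤ η) (hη1 : η ≤ 1)
    (hk : 2 * k < n) (B : Finset ℤ[X]) (hB : ∀ f ∈ B, Adm A q κ n f ∧
      η * n ≤ ∑ t ∈ range k, (s2 q - (cc A q (f.coeff (t + 1))
        + κ * cc A q ((reflect n f).coeff (t + 1))) ^ 2 / (1 + κ ^ 2))) :
    (B.card : ℝ) ≤ q ^ (n - 1) * exp (-(η ^ 2 / (16 * q ^ 4) * n)) := by
  have : NeZero q := ⟨hq.ne'⟩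
  have hκ : (0 : ℝ) < 1 + κ ^ 2 := by positivity
  have := chern (Λ := Fin (n - 1 - 2 * k) → ZMod q) B
    (fun f t => (f.coeff (t + 1), (reflect n f).coeff (t + 1)))
    (fun f i => (f.coeff (k + 1 + i.1) : ZMod q)) (Ico A (A + q) ×ˢ Ico A (A + q))
    (fun _ s => s2 q - (cc A q s.1 + κ * cc A q s.2) ^ 2 / (1 + κ ^ 2)) hq hη hη1 k
    (n := n) (by omega)
    (fun a ha b hb hl h => by
      have ha' := (hB a ha).1
      have hb' := (hB b hb).1
      refine low_high (d := n) (m := k + 1) (a := k + 1) ha'.dg.le hb'.dg.le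
        (dvd_of_coeffs (ha'.c0.trans hb'.c0.symm) fun r hr => (Prod.mk.inj (h r hr)).1)
        (dvd_of_coeffs ((refl0 ha'.mo ha'.dg).trans (refl0 hb'.mo hb'.dg).symm)
          fun r hr => (Prod.mk.inj (h r hr)).2) fun i h1 h2 => ?_
      refine eq_of_cast (ha'.mem i (by omega) (by omega)) (hb'.mem i (by omega) (by omega)) ?_
      have := congrFun hl ⟨i - (k + 1), by omega⟩
      simp only at this
      rwa [show k + 1 + (i - (k + 1)) = i by omega] at this)
    (fun a ha t ht => Finset.mem_product.2 ⟨(hB a ha).1.mem _ (by omega) (by omega),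
      (hB a ha).1.rmem (by omega) (by omega)⟩)
    (fun _ => by
      have e : ∀ a b : ℝ, (a + κ * b) ^ 2 = a ^ 2 + 2 * κ * (a * b) + κ ^ 2 * b ^ 2 := by
        intro a b
        ring
      rw [Finset.sum_sub_distrib, ← Finset.sum_div, Finset.sum_const, Finset.card_product, card_I,
        Finset.sum_product]
      simp only [e, Finset.sum_add_distrib, ← Finset.mul_sum, sum_cc, sum_cc_sq, mul_zero,
        Finset.sum_const, card_I, nsmul_eq_mul, add_zero]
      rw [s2]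
      push_cast
      refine le_of_eq ?_
      field_simp
      ring)
    (fun _ s hs => by
      obtain ⟨h1, h2⟩ := Finset.mem_product.1 hs
      have a1 : (cc A q s.1 + κ * cc A q s.2) ^ 2 / (1 + κ ^ 2) ≤ 2 * q ^ 2 := by
        rw [div_le_iff₀ hκ]
        have : cc A q s.1 ^ 2 + cc A q s.2 ^ 2 ≤ 2 * q ^ 2 := by
          linarith [cc_sq_le h1, cc_sq_le h2]
        nlinarith [sq_nonneg (κ * cc A q s.1 - cc A q s.2), mul_le_mul_of_nonneg_right this hκ.le]
      have a2 : 0 ≤ (cc A q s.1 + κ * cc A q s.2) ^ 2 / (1 + κ ^ 2) := by positivity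
      rw [abs_le]
      constructor <;> nlinarith [s2_nonneg hq, s2_le q, sq_nonneg (q : ℝ)])
    (fun a ha => (hB a ha).2)
  refine this.trans (le_of_eq ?_)
  rw [Finset.card_product, card_I, Fintype.card_fun, ZMod.card, Fintype.card_fin]
  push_cast
  rw [← sq, ← pow_mul, ← pow_add, show n - 1 - 2 * k + 2 * k = n - 1 by omega]

lemma card_E2 {A κ α γ : ℤ} {q n d e : ℕ} (k : ℕ) {η : ℝ} (hq : 0 < q) (hη : 0 ≤ η) (hη1 : η ≤ 1)
    (hd : 0 < d) (he : 0 < e) (hn : d + e = n) (B : Finset ℤ[X])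
    (hB : ∀ f ∈ B, Adm A q κ n f ∧ ∃ g h, GF α γ d e g h ∧ g * h = f ∧
      η * n ≤ ∑ t ∈ range (e - 1), (if t < k then 0 else
        s2 q - cc A q (rep A q ((reflect d g * h).coeff (t + 1))) ^ 2)) :
    (B.card : ℝ) ≤ q ^ (n - 1) * exp (-(η ^ 2 / (16 * q ^ 4) * n)) := by
  have : NeZero q := ⟨hq.ne'⟩
  have hA := fun f hf => (hB f hf).1
  have hC := fun f hf => (hB f hf).2
  choose! g h hF hgh hR using hC
  set φ := Int.castRingHom (ZMod q) with hφ
  have := chern (Λ := Fin (d - 1) → ZMod q) B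
    (fun f t => rep A q ((reflect d (g f) * h f).coeff (t + 1)))
    (fun f i => ((g f).coeff (i.1 + 1) : ZMod q)) (Ico A (A + q))
    (fun t s => if t < k then 0 else s2 q - cc A q s ^ 2) hq hη hη1 (e - 1)
    (n := n) (by omega)
    (fun a ha b hb hl hx => by
      have F := hF a ha
      have F' := hF b hb
      have eg : (g a).map φ = (g b).map φ := by
        refine map_eq_of_low q F.mg F'.mg F.dg F'.dg ?_
        rw [← Nat.sub_add_cancel hd]
        refine dvd_of_coeffs (by rw [coeff_map, coeff_map, F.g0, F'.g0]) fun r hr => ?_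
        rw [coeff_map, coeff_map]
        exact congrFun hl ⟨r, hr⟩
      have eh : (h a).map φ = (h b).map φ := by
        refine map_eq_of_low q F.mh F'.mh F.dh F'.dh ?_
        refine cancel_l (G := (reflect d (g a)).map φ) (G' := (reflect d (g b)).map φ)
          (by rw [coeff_map, refl0 F.mg F.dg, map_one])
          (by rw [← reflect_map, ← reflect_map, eg, sub_self]; exact dvd_zero _) ?_
        rw [← Polynomial.map_mul, ← Polynomial.map_mul, ← Nat.sub_add_cancel he]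
        refine dvd_of_coeffs ?_ fun r hr => ?_
        · rw [coeff_map, coeff_map, mul_coeff_zero, mul_coeff_zero, refl0 F.mg F.dg,
            refl0 F'.mg F'.dg, F.h0, F'.h0]
        · have := congrArg (fun z : ℤ => (z : ZMod q)) (hx r hr)
          simp only [rep_cast] at this
          rw [coeff_map, coeff_map]
          exact this
      refine (hA a ha).ext_map (hA b hb) ?_
      rw [← hgh a ha, ← hgh b hb, Polynomial.map_mul, Polynomial.map_mul, eg, eh])
    (fun a _ t _ => rep_mem A hq _)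
    (fun t => by
      split_ifs
      · simp
      · rw [Finset.sum_sub_distrib, sum_cc_sq, Finset.sum_const, card_I, nsmul_eq_mul, s2,
          sub_self])
    (fun t s hs => by
      split_ifs
      · simp
      · rw [abs_le]
        constructor <;> nlinarith [cc_sq_le hs, sq_nonneg (cc A q s), s2_nonneg hq, s2_le q,
          sq_nonneg (q : ℝ)])
    hR
  refine this.trans (mul_le_mul_of_nonneg_right ?_ (exp_pos _).le)
  rw [card_I, Fintype.card_fun, ZMod.card, Fintype.card_fin]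
  push_cast
  rw [← pow_add]
  exact pow_le_pow_right₀ (by exact_mod_cast hq) (by omega)

end Pool.Agent.P.MP_8cce2a_nt.G
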