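import Pool.Agent.P.MP_8cce2a_nt.GAlg

/-!
Factorisations with both degrees of linear size.
-/

namespace Pool.Agent.P.MP_8cce2a_nt.G

open Polynomial Finset Real

/-- the Gaussian rate used for large degrees -/
noncomputable def b1 (q : ℕ) : ℝ := 3 / (2 * (q : ℝ) ^ 2)

/-- the bound for one lattice sum -/
noncomputable def th (q : ℕ) : ℝ := exp (8 * b1 q / 12) * √(π / (8 * b1 q))

lemma b1_pos {q : ℕ} (hq : 0 < q) : 0 < b1 q := by
  have : (0 : ℝ) < q := by exact_mod_cast hq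
  rw [b1]
  positivity

lemma line_ineq {α γ κ U V s : ℝ} (hγ : γ ≠ 0) (hag : γ ^ 2 ≤ α ^ 2)
    (hN : α ^ 2 + γ ^ 2 ≤ 1 + κ ^ 2) (h : α * U + γ * V = s) :
    s ^ 2 / (1 + κ ^ 2) + 2 * (U - α * s / (α ^ 2 + γ ^ 2)) ^ 2 ≤ U ^ 2 + V ^ 2 := by
  have h1 : 0 < γ ^ 2 := by positivity
  have h2 : 0 < α ^ 2 + γ ^ 2 := by positivity
  have e : γ ^ 2 * (U ^ 2 + V ^ 2) = γ ^ 2 * (s ^ 2 / (α ^ 2 + γ ^ 2))
      + (α ^ 2 + γ ^ 2) * (U - α * s / (α ^ 2 + γ ^ 2)) ^ 2 := by
    rw [← h]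
    field_simp
    ring
  have h3 : s ^ 2 / (1 + κ ^ 2) ≤ s ^ 2 / (α ^ 2 + γ ^ 2) := by gcongr
  refine le_of_mul_le_mul_left ?_ h1
  rw [e]
  nlinarith [mul_le_mul_of_nonneg_left h3 h1.le,
    mul_le_mul_of_nonneg_right hag (sq_nonneg (U - α * s / (α ^ 2 + γ ^ 2)))]

lemma tilt_sum (A : ℤ) {q : ℕ} (hq : 0 < q) (κ D : ℝ) :
    ∑ a ∈ Ico A (A + q), ∑ b ∈ Ico A (A + q),
      exp (b1 q * ((cc A q a + κ * cc A q b) ^ 2 / (1 + κ ^ 2)
        - (cc A q a + κ * cc A q b - D) ^ 2 / (1 + κ ^ 2))) ≤ q ^ 2 := by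
  have hκ : (0 : ℝ) < 1 + κ ^ 2 := by positivity
  have hq' : (0 : ℝ) < q := by exact_mod_cast hq
  set l := 2 * b1 q * D / (1 + κ ^ 2) with hl
  have e : ∀ a b : ℝ, exp (b1 q * ((a + κ * b) ^ 2 / (1 + κ ^ 2)
        - (a + κ * b - D) ^ 2 / (1 + κ ^ 2)))
      = exp (-(b1 q * D ^ 2 / (1 + κ ^ 2))) * (exp (l * a) * exp (l * κ * b)) := by
    intro a b
    rw [← exp_add, ← exp_add, hl]
    congr 1
    field_simp
    ring
  simp only [e, ← Finset.mul_sum, ← Finset.sum_mul]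
  calc _ ≤ exp (-(b1 q * D ^ 2 / (1 + κ ^ 2))) * ((q * exp (l ^ 2 * q ^ 2 / 6))
        * (q * exp ((l * κ) ^ 2 * q ^ 2 / 6))) := by
        gcongr
        · exact subgauss A q l
        · exact subgauss A q (l * κ)
    _ = q ^ 2 * exp (-(b1 q * D ^ 2 / (1 + κ ^ 2)) + l ^ 2 * q ^ 2 / 6
        + (l * κ) ^ 2 * q ^ 2 / 6) := by
        rw [exp_add, exp_add]
        ring
    _ = q ^ 2 := by
        have : -(b1 q * D ^ 2 / (1 + κ ^ 2)) + l ^ 2 * q ^ 2 / 6
            + (l * κ) ^ 2 * q ^ 2 / 6 = 0 := by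
          rw [hl, b1]
          field_simp
          ring
        rw [this, exp_zero, mul_one]

lemma step_half {S : Type*} (A : ℤ) {q : ℕ} (hq : 0 < q) {α γ κ Δ : ℤ} (hγ : γ ≠ 0)
    (hag : γ ^ 2 ≤ α ^ 2) (hN : α ^ 2 + γ ^ 2 ≤ 1 + κ ^ 2) (U : Finset S) (r : S → ZMod q)
    (a b u v : S → ℤ)
    (hinj : ∀ s ∈ U, ∀ s' ∈ U, r s = r s' → a s = a s' → b s = b s' → u s = u s' → v s = v s' →
      s = s')
    (hU : ∀ s ∈ U, a s ∈ Ico A (A + q) ∧ b s ∈ Ico A (A + q) ∧
      a s + κ * b s - α * u s - γ * v s = Δ) :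
    ∑ s ∈ U, exp (b1 q * ((cc A q (a s) + κ * cc A q (b s)) ^ 2 / (1 + κ ^ 2)
      - (cc A q (u s) ^ 2 + cc A q (v s) ^ 2))) ≤ q ^ 3 * th q := by
  classical
  have : NeZero q := ⟨hq.ne'⟩
  have hb := b1_pos hq
  set m : ℝ := 2 * A + q - 1 with hm
  set D : ℝ := 2 * Δ - m * (1 + κ - α - γ) with hD
  set G : ℤ → ℤ → ℝ := fun a b => exp (b1 q * ((cc A q a + κ * cc A q b) ^ 2 / (1 + κ ^ 2)
        - (cc A q a + κ * cc A q b - D) ^ 2 / (1 + κ ^ 2))) with hG
  set y : ℤ → ℤ → ℝ := fun a b =>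
    (α * (cc A q a + κ * cc A q b - D) / (α ^ 2 + γ ^ 2) + m) / 2 with hy
  set Ψ : ZMod q × ℤ × ℤ × ℤ → ℝ := fun p => G p.2.1 p.2.2.1
    * exp (-(8 * b1 q) * ((p.2.2.2 : ℝ) - y p.2.1 p.2.2.1) ^ 2) with hΨ
  set j : S → ZMod q × ℤ × ℤ × ℤ := fun s => (r s, a s, b s, u s) with hj
  have h1 : ∀ s ∈ U, exp (b1 q * ((cc A q (a s) + κ * cc A q (b s)) ^ 2 / (1 + κ ^ 2)
      - (cc A q (u s) ^ 2 + cc A q (v s) ^ 2))) ≤ Ψ (j s) := by
    intro s hs
    have e0 : (a s : ℝ) + κ * b s - α * u s - γ * v s = Δ := by exact_mod_cast (hU s hs).2.2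
    have e1 := line_ineq (α := α) (γ := γ) (κ := κ) (U := cc A q (u s)) (V := cc A q (v s))
      (s := cc A q (a s) + κ * cc A q (b s) - D) (by exact_mod_cast hγ) (by exact_mod_cast hag)
      (by exact_mod_cast hN) (by
        simp only [cc, hD, hm]
        linear_combination (-2) * e0)
    have e2 : 2 * (cc A q (u s) - α * (cc A q (a s) + κ * cc A q (b s) - D) / (α ^ 2 + γ ^ 2)) ^ 2
        = 8 * ((u s : ℝ) - y (a s) (b s)) ^ 2 := by
      simp only [hy]
      rw [show cc A q (u s) = 2 * (u s : ℝ) - m from rfl]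
      ring
    rw [e2] at e1
    simp only [hΨ, hj, hG]
    rw [← exp_add]
    refine exp_le_exp.2 ?_
    nlinarith [mul_le_mul_of_nonneg_left e1 hb.le]
  refine (Finset.sum_le_sum h1).trans ?_
  rw [← Finset.sum_image (g := j) (f := Ψ) (by
    intro s hs s' hs' e
    simp only [hj, Prod.mk.injEq] at e
    obtain ⟨e1, e2, e3, e4⟩ := e
    refine hinj s hs s' hs' e1 e2 e3 e4 (mul_left_cancel₀ hγ ?_)
    have a1 := (hU s hs).2.2
    have a2 := (hU s' hs').2.2
    rw [e2, e3, e4] at a1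
    linarith)]
  have hsub : U.image j ⊆ univ ×ˢ Ico A (A + q) ×ˢ Ico A (A + q) ×ˢ U.image u := by
    intro p hp
    obtain ⟨s, hs, rfl⟩ := Finset.mem_image.1 hp
    exact Finset.mem_product.2 ⟨Finset.mem_univ _, Finset.mem_product.2 ⟨(hU s hs).1,
      Finset.mem_product.2 ⟨(hU s hs).2.1, Finset.mem_image_of_mem _ hs⟩⟩⟩
  refine (Finset.sum_le_sum_of_subset_of_nonneg hsub fun _ _ _ => by positivity).trans ?_
  simp only [Finset.sum_product, hΨ, ← Finset.mul_sum, Finset.sum_const, Finset.card_univ,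
    ZMod.card, nsmul_eq_mul]
  have hth : 0 ≤ th q := by
    rw [th]
    positivity
  calc _ ≤ (q : ℝ) * ∑ a ∈ Ico A (A + q), ∑ b ∈ Ico A (A + q), G a b * th q := by
        gcongr with a _ b _
        exact gauss_sum (by positivity) _ _
    _ ≤ q * (q ^ 2 * th q) := by
        simp only [← Finset.sum_mul]
        gcongr
        exact tilt_sum A hq κ D
    _ = _ := by ring

lemma th_le {q : ℕ} (hq : 2 ≤ q) : th q * exp (b1 q * s2 q) ≤ 24 / 25 * q := by
  have hq' : (2 : ℝ) ≤ q := by exact_mod_cast hq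
  have e1 : √(π / (8 * b1 q)) ≤ 64 / 125 * q := by
    rw [sqrt_le_left (by positivity), b1, div_le_iff₀ (by positivity)]
    have : (64 / 125 * (q : ℝ)) ^ 2 * (8 * (3 / (2 * (q : ℝ) ^ 2))) = 12 * (64 / 125) ^ 2 := by
      field_simp
      norm_num
    rw [this]
    linarith [pi_lt_d4]
  have e2 : 8 * b1 q / 12 + b1 q * s2 q ≤ 5 / 8 := by
    have : 8 * b1 q / 12 + b1 q * s2 q = 1 / 2 + 1 / (2 * (q : ℝ) ^ 2) := by
      rw [b1, s2]
      field_simp
      ring
    rw [this]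
    have : 1 / (2 * (q : ℝ) ^ 2) ≤ 1 / 8 := by
      rw [div_le_div_iff₀ (by positivity) (by norm_num)]
      nlinarith
    linarith
  have e3 : exp (5 / 8) ≤ 15 / 8 := by
    refine le_of_pow_le_pow_left₀ (n := 8) (by norm_num) (by norm_num) ?_
    rw [← exp_nat_mul, show ((8 : ℕ) : ℝ) * (5 / 8) = (5 : ℕ) * 1 by norm_num, exp_nat_mul]
    calc exp 1 ^ 5 ≤ 2.7182818286 ^ 5 := by
          gcongr
          exact exp_one_lt_d9.le
      _ ≤ _ := by norm_num
  calc th q * exp (b1 q * s2 q) = exp (8 * b1 q / 12 + b1 q * s2 q) * √(π / (8 * b1 q)) := by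
        rw [th, exp_add]
        ring
    _ ≤ (15 / 8) * (64 / 125 * q) := mul_le_mul ((exp_le_exp.2 e2).trans e3) e1 (sqrt_nonneg _)
        (by norm_num)
    _ = _ := by ring

lemma window_le {F ρ : ℕ → ℝ} {σ R : ℝ} {k L : ℕ} (hk : k ≤ L) (h : ∀ t, ρ t ≤ F t)
    (hR : ∑ t ∈ range L, (if t < k then 0 else σ - ρ t) ≤ R) :
    ∑ t ∈ range k, F t + ((L : ℝ) - k) * σ - R ≤ ∑ t ∈ range L, F t := by
  obtain ⟨j, rfl⟩ := Nat.exists_eq_add_of_le hk
  rw [Finset.sum_range_add] at hR ⊢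
  rw [Finset.sum_congr rfl (g := fun _ => (0 : ℝ)) fun t ht => if_pos (Finset.mem_range.1 ht),
    Finset.sum_congr (s₂ := range j) rfl (g := fun t => σ - ρ (k + t))
      fun t _ => if_neg (by omega), Finset.sum_sub_distrib] at hR
  have := Finset.sum_le_sum fun t (_ : t ∈ range j) => h (k + t)
  simp only [Finset.sum_const, Finset.card_range, nsmul_eq_mul, mul_zero] at hR
  push_cast
  linarith

lemma two_windows {F : ℕ → ℝ} (hF : ∀ t, 0 ≤ F t) {d e : ℕ} (hd : 0 < d) (he : 0 < e) :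
    ∑ t ∈ range (e - 1), F (t + 1) + ∑ t ∈ range (d - 1), F (d + e - (t + 1))
      ≤ ∑ i ∈ range (d + e + 1), F i := by
  obtain ⟨d, rfl⟩ : ∃ m, d = m + 1 := ⟨d - 1, by omega⟩
  obtain ⟨e, rfl⟩ : ∃ m, e = m + 1 := ⟨e - 1, by omega⟩
  rw [show d + 1 + (e + 1) + 1 = (e + 1) + (d + 1 + 1) by ring, Finset.sum_range_add,
    Finset.sum_range_succ' _ e, Finset.sum_range_succ, Finset.sum_range_succ' _ d,
    Nat.add_sub_cancel, Nat.add_sub_cancel, ← Finset.sum_range_reflect _ d]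
  have : ∑ j ∈ range d, F (d + 1 + (e + 1) - (d - 1 - j + 1))
      = ∑ j ∈ range d, F (e + 1 + (j + 1)) := by
    refine Finset.sum_congr rfl fun j hj => ?_
    have := Finset.mem_range.1 hj
    congr 1
    omega
  rw [this]
  linarith [hF 0, hF (e + 1 + 0), hF (e + 1 + (d + 1))]

lemma card_R1 {A κ α γ : ℤ} {q n d e k : ℕ} {η : ℝ} (hq : 2 ≤ q) (hκ : κ ≠ 0) (hαγ : α * γ = κ)
    (hd : 2 * k < d) (he : 2 * k < e) (hn : d + e = n) (B : Finset ℤ[X])
    (hB : ∀ f ∈ B, Adm A q κ n f ∧ ∃ g h, GF α γ d e g h ∧ g * h = f ∧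
      ∑ t ∈ range (n - 1), (cc A q (f.coeff (t + 1)) ^ 2 - s2 q) ≤ η * n ∧
      ∑ t ∈ range k, (s2 q - (cc A q (f.coeff (t + 1))
        + κ * cc A q ((reflect n f).coeff (t + 1))) ^ 2 / (1 + κ ^ 2)) ≤ η * n ∧
      ∑ t ∈ range (e - 1), (if t < k then 0 else
        s2 q - cc A q (rep A q ((reflect d g * h).coeff (t + 1))) ^ 2) ≤ η * n ∧
      ∑ t ∈ range (d - 1), (if t < k then 0 else
        s2 q - cc A q (rep A q ((reflect e h * g).coeff (t + 1))) ^ 2) ≤ η * n) :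
    (B.card : ℝ) ≤ q ^ (n - 1) * (exp (b1 q * (s2 q + cc A q κ ^ 2 + cc A q 1 ^ 2))
      * ((24 / 25) ^ k * exp (b1 q * (4 * η * n)))) := by
  have hq0 : 0 < q := by omega
  have : NeZero q := ⟨hq0.ne'⟩
  have hb := b1_pos hq0
  have hα : α ≠ 0 := left_ne_zero_of_mul (hαγ ▸ hκ)
  have hγ : γ ≠ 0 := right_ne_zero_of_mul (hαγ ▸ hκ)
  have hN : α ^ 2 + γ ^ 2 ≤ 1 + κ ^ 2 := by
    have a1 : 1 ≤ α ^ 2 := by have := sq_pos_of_ne_zero hα; omega
    have a2 : 1 ≤ γ ^ 2 := by have := sq_pos_of_ne_zero hγ; omega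
    rw [← hαγ, mul_pow]
    nlinarith [mul_nonneg (sub_nonneg.2 a1) (sub_nonneg.2 a2)]
  have hA := fun f hf => (hB f hf).1
  have hC := fun f hf => (hB f hf).2
  choose! g h hF hgh h1 h4 h2 h3 using hC
  subst hn
  set φ := Int.castRingHom (ZMod q) with hφ
  have hth : 0 ≤ th q := by
    rw [th]
    positivity
  have hw0 : ∀ f ∈ B, (reflect d (g f) * h f).coeff 0 = γ := fun f hf => by
    rw [mul_coeff_zero, refl0 (hF f hf).mg (hF f hf).dg, (hF f hf).h0, one_mul]
  have hv0 : ∀ f ∈ B, (reflect e (h f) * g f).coeff 0 = α := fun f hf => by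
    rw [mul_coeff_zero, refl0 (hF f hf).mh (hF f hf).dh, (hF f hf).g0, one_mul]
  have hr : ∀ f ∈ B, reflect (d + e) f = reflect d (g f) * reflect e (h f) := fun f hf => by
    rw [← (hF f hf).f_refl, hgh f hf]
  have key := wb_card
    (Λ := (Fin (d - 1 - 2 * k) → ZMod q) × (Fin (e - 1 - 2 * k) → ZMod q)) B
    (fun f t => ((((reflect d (g f)).coeff (t + 1) : ℤ) : ZMod q), f.coeff (t + 1),
      (reflect (d + e) f).coeff (t + 1), (reflect d (g f) * h f).coeff (t + 1),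
      (reflect e (h f) * g f).coeff (t + 1)))
    (fun f => (fun i => ((g f).coeff (k + 1 + i.1) : ZMod q),
      fun i => ((h f).coeff (k + 1 + i.1) : ZMod q)))
    (fun _ s => b1 q * ((cc A q s.2.1 + κ * cc A q s.2.2.1) ^ 2 / (1 + κ ^ 2)
      - (cc A q s.2.2.2.1 ^ 2 + cc A q s.2.2.2.2 ^ 2))) (T := q ^ 3 * th q)
    (R := -(b1 q * (k * s2 q + (s2 q + cc A q κ ^ 2 + cc A q 1 ^ 2) + 4 * η * (d + e : ℕ))))
    (by positivity) k (by
      intro a ha b hb hl hx
      have F := hF a ha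
      have F' := hF b hb
      simp only [Prod.mk.injEq] at hx
      obtain ⟨l1, l2⟩ := Prod.mk.inj hl
      have G0 : ((reflect d (g a)).map φ).coeff 0 = 1 := by
        rw [coeff_map, refl0 F.mg F.dg, map_one]
      have H0 : ((reflect e (h a)).map φ).coeff 0 = 1 := by
        rw [coeff_map, refl0 F.mh F.dh, map_one]
      have G2 : X ^ (k + 1) ∣ (reflect d (g a)).map φ - (reflect d (g b)).map φ :=
        dvd_of_coeffs (by rw [G0, coeff_map, refl0 F'.mg F'.dg, map_one]) fun r hr => by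
          rw [coeff_map, coeff_map]
          exact (hx r hr).1
      have p1 := mapq_dvd q (dvd_of_coeffs ((refl0 (hA a ha).mo (hA a ha).dg).trans
        (refl0 (hA b hb).mo (hA b hb).dg).symm) fun r hr => (hx r hr).2.2.1)
      have p2 := mapq_dvd q (dvd_of_coeffs ((hw0 a ha).trans (hw0 b hb).symm)
        fun r hr => (hx r hr).2.2.2.1)
      have p3 := mapq_dvd q (dvd_of_coeffs ((hv0 a ha).trans (hv0 b hb).symm)
        fun r hr => (hx r hr).2.2.2.2)
      rw [hr a ha, hr b hb] at p1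
      simp only [Polynomial.map_mul] at p1 p2 p3
      have H2 := cancel_l G0 G2 p1
      have H1 := cancel_l G0 G2 p2
      have G1 := cancel_l H0 H2 p3
      rw [← reflect_map, ← reflect_map] at G2 H2
      have eg : (g a).map φ = (g b).map φ := low_high (natDegree_map_le.trans F.dg.le)
        (natDegree_map_le.trans F'.dg.le) G1 G2 fun i i1 i2 => by
          rw [coeff_map, coeff_map]
          have := congrFun l1 ⟨i - (k + 1), by omega⟩
          simp only at this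
          rwa [show k + 1 + (i - (k + 1)) = i by omega] at this
      have eh : (h a).map φ = (h b).map φ := low_high (natDegree_map_le.trans F.dh.le)
        (natDegree_map_le.trans F'.dh.le) H1 H2 fun i i1 i2 => by
          rw [coeff_map, coeff_map]
          have := congrFun l2 ⟨i - (k + 1), by omega⟩
          simp only at this
          rwa [show k + 1 + (i - (k + 1)) = i by omega] at this
      refine (hA a ha).ext_map (hA b hb) ?_
      rw [← hgh a ha, ← hgh b hb, Polynomial.map_mul, Polynomial.map_mul, eg, eh]) (by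
      intro t ht a ha U hU
      have hU' : ∀ s ∈ U, s.2.1 ∈ Ico A (A + q) ∧ s.2.2.1 ∈ Ico A (A + q) ∧
          s.2.1 + κ * s.2.2.1 - α * s.2.2.2.1 - γ * s.2.2.2.2
            = a.coeff (t + 1) + κ * (reflect (d + e) a).coeff (t + 1)
              - α * (reflect d (g a) * h a).coeff (t + 1)
              - γ * (reflect e (h a) * g a).coeff (t + 1) := by
        intro s hs
        obtain ⟨b, hb, -, hx, rfl⟩ := hU s hs
        refine ⟨(hA b hb).mem _ (by omega) (by omega), (hA b hb).rmem (by omega) (by omega), ?_⟩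
        simp only [Prod.mk.injEq] at hx
        have p0 := dvd_of_coeffs ((hA b hb).c0.trans (hA a ha).c0.symm)
          fun r hr => (hx r hr).2.1
        have p1 := dvd_of_coeffs ((refl0 (hA b hb).mo (hA b hb).dg).trans
          (refl0 (hA a ha).mo (hA a ha).dg).symm) fun r hr => (hx r hr).2.2.1
        have p2 := dvd_of_coeffs ((hw0 b hb).trans (hw0 a ha).symm)
          fun r hr => (hx r hr).2.2.2.1
        have p3 := dvd_of_coeffs ((hv0 b hb).trans (hv0 a ha).symm)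
          fun r hr => (hx r hr).2.2.2.2
        have e1 := coeff_mul_sub' p0 p1
        have e2 := coeff_mul_sub' p2 p3
        have e3 : ∀ f ∈ B, f * reflect (d + e) f
            = (reflect d (g f) * h f) * (reflect e (h f) * g f) := fun f hf => by
          rw [hr f hf]
          nth_rewrite 1 [← hgh f hf]
          ring
        rw [e3 b hb, e3 a ha, e2, refl0 (hA b hb).mo (hA b hb).dg, (hA a ha).c0, hv0 b hb,
          hw0 a ha] at e1
        simp only
        linear_combination -e1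
      rcases le_total (γ ^ 2) (α ^ 2) with hag | hag
      · exact step_half A hq0 hγ hag hN U (fun s => s.1) (fun s => s.2.1) (fun s => s.2.2.1)
          (fun s => s.2.2.2.1) (fun s => s.2.2.2.2)
          (fun s _ s' _ e1 e2 e3 e4 e5 => Prod.ext e1 (Prod.ext e2 (Prod.ext e3 (Prod.ext e4 e5))))
          hU'
      · have := step_half A hq0 hα hag (by linarith) U (fun s => s.1) (fun s => s.2.1)
          (fun s => s.2.2.1) (fun s => s.2.2.2.2) (fun s => s.2.2.2.1)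
          (fun s _ s' _ e1 e2 e3 e4 e5 => Prod.ext e1 (Prod.ext e2 (Prod.ext e3 (Prod.ext e5 e4))))
          (fun s hs => ⟨(hU' s hs).1, (hU' s hs).2.1, (sub_right_comm _ _ _).trans (hU' s hs).2.2⟩)
        refine le_trans (le_of_eq (Finset.sum_congr rfl fun s _ => ?_)) this
        rw [add_comm (cc A q s.2.2.2.1 ^ 2)]) (by
      intro f hf
      have F := hF f hf
      have a1 := h1 f hf
      have a4 := h4 f hf
      have a2 := window_le (F := fun t => cc A q ((reflect d (g f) * h f).coeff (t + 1)) ^ 2)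
        (by omega) (fun t => cc_rep_le A hq0 _) (h2 f hf)
      have a3 := window_le (F := fun t => cc A q ((reflect e (h f) * g f).coeff (t + 1)) ^ 2)
        (by omega) (fun t => cc_rep_le A hq0 _) (h3 f hf)
      have a5 := two_windows (F := fun i => cc A q ((reflect d (g f) * h f).coeff i) ^ 2)
        (fun _ => sq_nonneg _) (d := d) (e := e) (by omega) (by omega)
      have a6 : ∑ t ∈ range (d - 1), cc A q ((reflect d (g f) * h f).coeff (d + e - (t + 1))) ^ 2
          = ∑ t ∈ range (d - 1), cc A q ((reflect e (h f) * g f).coeff (t + 1)) ^ 2 := by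
        refine Finset.sum_congr rfl fun t ht => ?_
        have := Finset.mem_range.1 ht
        rw [mul_comm (reflect e (h f)), ← F.w_refl, coeff_reflect, revAt_le (by omega)]
      rw [a6, F.l2, hgh f hf, sum_ends _ (by omega), (hA f hf).c0, (hA f hf).cn] at a5
      rw [Finset.sum_sub_distrib, Finset.sum_const, Finset.card_range, nsmul_eq_mul] at a1 a4
      rw [Nat.cast_sub (by omega)] at a1 a2 a3
      rw [← Finset.mul_sum, Finset.sum_sub_distrib, Finset.sum_add_distrib, ← mul_neg]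
      refine mul_le_mul_of_nonneg_left ?_ hb.le
      push_cast at a1 a2 a3 a4 ⊢
      linarith)
  refine key.trans ?_
  rw [Fintype.card_prod, Fintype.card_fun, Fintype.card_fun, ZMod.card, Fintype.card_fin,
    Fintype.card_fin, neg_neg, mul_add, mul_add, exp_add, exp_add, mul_left_comm (b1 q) (k : ℝ),
    exp_nat_mul]
  push_cast
  have hq1 : (1 : ℝ) ≤ q := by exact_mod_cast hq0
  have c1 : (th q * exp (b1 q * s2 q)) ^ k ≤ (24 / 25 * q) ^ k :=
    pow_le_pow_left₀ (by positivity) (th_le hq) k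
  have c2 : (q : ℝ) ^ (d - 1 - 2 * k) * q ^ (e - 1 - 2 * k) * (q ^ 3) ^ k * q ^ k
      ≤ q ^ (d + e - 1) := by
    rw [← pow_mul, ← pow_add, ← pow_add, ← pow_add]
    exact pow_le_pow_right₀ hq1 (by omega)
  set E1 := exp (b1 q * (s2 q + cc A q κ ^ 2 + cc A q 1 ^ 2))
  set E2 := exp (b1 q * (4 * η * ((d : ℝ) + e)))
  have : 0 ≤ E1 := (exp_pos _).le
  have : 0 ≤ E2 := (exp_pos _).le
  calc _ = (q : ℝ) ^ (d - 1 - 2 * k) * q ^ (e - 1 - 2 * k) * (q ^ 3) ^ k
        * (th q * exp (b1 q * s2 q)) ^ k * (E1 * E2) := by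
        rw [mul_pow, mul_pow]
        ring
    _ ≤ (q : ℝ) ^ (d - 1 - 2 * k) * q ^ (e - 1 - 2 * k) * (q ^ 3) ^ k
        * (24 / 25 * q) ^ k * (E1 * E2) := by gcongr
    _ = ((q : ℝ) ^ (d - 1 - 2 * k) * q ^ (e - 1 - 2 * k) * (q ^ 3) ^ k * q ^ k)
        * (E1 * ((24 / 25) ^ k * E2)) := by
        rw [mul_pow]
        ring
    _ ≤ _ := by gcongr

end Pool.Agent.P.MP_8cce2a_nt.G
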