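import Mathlib

/-!
Zero-one polynomials rarely vanish at a fixed nonzero point, and only finitely many points can be
roots of factors of bounded degree.
-/

namespace Pool.Agent.P.MP_8cce2a_nt

open Polynomial Finset

/-- Littlewood-Offord bound for exact sums of nonzero reals -/
lemma lo_real (n : ℕ) (x : ℕ → ℝ) (hx : ∀ i < n, x i ≠ 0) (c : ℝ) (B : Finset (Finset ℕ))
    (hB : ∀ S ∈ B, S ⊆ range n ∧ ∑ i ∈ S, x i = c) : B.card ≤ n.choose (n / 2) := by
  classical
  set T : Finset ℕ → Finset (Fin n) := fun S => univ.filter fun i => (i.1 ∈ S ↔ 0 < x i.1)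
    with hT
  have key : ∀ S ∈ B, ∀ S' ∈ B, T S ⊆ T S' → S = S' := by
    intro S hS S' hS' hsub
    obtain ⟨h1, h2⟩ := hB S hS
    obtain ⟨h1', h2'⟩ := hB S' hS'
    have hs : ∀ U : Finset ℕ, U ⊆ range n →
        ∑ i ∈ U, x i = ∑ i ∈ range n, if i ∈ U then x i else 0 := by
      intro U hU
      rw [← Finset.sum_filter, Finset.filter_mem_eq_inter, Finset.inter_eq_right.2 hU]
    have himp : ∀ i < n, (i ∈ S ↔ 0 < x i) → (i ∈ S' ↔ 0 < x i) := by
      intro i hi h
      have : (⟨i, hi⟩ : Fin n) ∈ T S := Finset.mem_filter.2 ⟨Finset.mem_univ _, h⟩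
      exact (Finset.mem_filter.1 (hsub this)).2
    have hnn : ∀ i ∈ range n,
        0 ≤ (if i ∈ S' then x i else 0) - (if i ∈ S then x i else 0) := by
      intro i hi
      have hi' := Finset.mem_range.1 hi
      have h3 := himp i hi'
      by_cases a : i ∈ S <;> by_cases b : i ∈ S'
      · simp [a, b]
      · rw [if_pos a, if_neg b]
        by_contra hc
        exact b ((h3 ⟨fun _ => by linarith, fun _ => a⟩).2 (by linarith))
      · rw [if_neg a, if_pos b]
        by_contra hc
        have h4 : ¬ 0 < x i := by linarith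
        exact h4 ((h3 ⟨fun h => absurd h a, fun h => absurd h h4⟩).1 b)
      · simp [a, b]
    have h0 : ∑ i ∈ range n, ((if i ∈ S' then x i else 0) - (if i ∈ S then x i else 0)) = 0 := by
      rw [Finset.sum_sub_distrib, ← hs S h1, ← hs S' h1', h2, h2', sub_self]
    rw [Finset.sum_eq_zero_iff_of_nonneg hnn] at h0
    ext i
    by_cases hi : i < n
    · have := h0 i (Finset.mem_range.2 hi)
      have h5 := hx i hi
      by_cases a : i ∈ S <;> by_cases b : i ∈ S' <;> simp_all
    · exact ⟨fun h => absurd (Finset.mem_range.1 (h1 h)) hi,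
        fun h => absurd (Finset.mem_range.1 (h1' h)) hi⟩
  have hinj : Set.InjOn T B := fun S hS S' hS' h => key S hS S' hS' (le_of_eq h)
  rw [← Finset.card_image_of_injOn hinj]
  have := IsAntichain.sperner (𝒜 := B.image T) (by
    intro A hA A' hA' hne hsub
    obtain ⟨S, hS, rfl⟩ := Finset.mem_image.1 (Finset.mem_coe.1 hA)
    obtain ⟨S', hS', rfl⟩ := Finset.mem_image.1 (Finset.mem_coe.1 hA')
    exact hne (by rw [key S hS S' hS' hsub]))
  simpa using this

lemma lo_complex (n : ℕ) (z : ℕ → ℂ) (hz : ∀ i < n, z i ≠ 0) (c : ℂ) (B : Finset (Finset ℕ))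
    (hB : ∀ S ∈ B, S ⊆ range n ∧ ∑ i ∈ S, z i = c) : B.card ≤ n.choose (n / 2) := by
  obtain ⟨t, ht⟩ := Infinite.exists_notMem_finset
    ((range n).image fun i => -(z i).re / (z i).im)
  refine lo_real n (fun i => (z i).re + t * (z i).im) (fun i hi h => ?_) (c.re + t * c.im) B
    fun S hS => ⟨(hB S hS).1, ?_⟩
  · by_cases him : (z i).im = 0
    · rw [him, mul_zero, add_zero] at h
      exact hz i hi (Complex.ext h him)
    · refine ht (Finset.mem_image.2 ⟨i, Finset.mem_range.2 hi, ?_⟩)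
      field_simp
      linarith
  · rw [← (hB S hS).2, Complex.re_sum, Complex.im_sum, Finset.sum_add_distrib, Finset.mul_sum]

lemma centralBinom_sq_le (k : ℕ) : (k.centralBinom : ℝ) ^ 2 * (2 * k + 1) ≤ 16 ^ k := by
  induction k with
  | zero => simp
  | succ k ih =>
    have h : ((k : ℝ) + 1) * (k + 1).centralBinom = 2 * (2 * k + 1) * k.centralBinom := by
      exact_mod_cast Nat.succ_mul_centralBinom_succ k
    have hk : (0 : ℝ) < ((k : ℝ) + 1) ^ 2 := by positivity
    refine le_of_mul_le_mul_left ?_ hk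
    push_cast
    calc ((k : ℝ) + 1) ^ 2 * (((k + 1).centralBinom : ℝ) ^ 2 * (2 * (k + 1) + 1))
        = (((k : ℝ) + 1) * (k + 1).centralBinom) ^ 2 * (2 * k + 3) := by ring
      _ = (4 * (2 * k + 1) * (2 * k + 3)) * ((k.centralBinom : ℝ) ^ 2 * (2 * k + 1)) := by
          rw [h]
          ring
      _ ≤ (16 * ((k : ℝ) + 1) ^ 2) * 16 ^ k := by
          refine mul_le_mul (by nlinarith) ih (by positivity) (by positivity)
      _ = _ := by ring

lemma choose_sq_le (n : ℕ) : (n.choose (n / 2) : ℝ) ^ 2 * n ≤ 4 ^ n := by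
  obtain ⟨k, rfl | rfl⟩ := Nat.even_or_odd' n
  · have := centralBinom_sq_le k
    rw [Nat.mul_div_cancel_left _ two_pos, ← Nat.centralBinom_eq_two_mul_choose, pow_mul]
    push_cast
    norm_num
    nlinarith [sq_nonneg (k.centralBinom : ℝ)]
  · have h1 := centralBinom_sq_le k
    have h2 : (2 * k + 1) / 2 = k := by omega
    have h3 : (2 * k + 1).choose k ≤ 2 * k.centralBinom := by
      rcases k with _ | k
      · simp
      · rw [Nat.choose_succ_succ']
        have a := Nat.choose_le_centralBinom k (k + 1)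
        have b := Nat.choose_le_centralBinom (k + 1) (k + 1)
        omega
    have h4 : ((2 * k + 1).choose k : ℝ) ≤ 2 * k.centralBinom := by exact_mod_cast h3
    have h5 : ((2 * k + 1).choose k : ℝ) ^ 2 ≤ (2 * k.centralBinom) ^ 2 := by gcongr
    rw [h2, pow_succ (4 : ℝ), pow_mul]
    push_cast
    norm_num
    nlinarith [mul_le_mul_of_nonneg_right h5 (show (0 : ℝ) ≤ 2 * k + 1 by positivity)]

/-- roots of monic polynomials with coefficients of norm at most one -/
lemma root_le_two {p : ℂ[X]} (hp : p.Monic) (h : ∀ i, ‖p.coeff i‖ ≤ 1) {a : ℂ}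
    (ha : p.IsRoot a) : ‖a‖ ≤ 2 := by
  have h1 := ha.norm_lt_cauchyBound hp.ne_zero
  have h2 : p.cauchyBound ≤ 2 := by
    rw [cauchyBound, hp.leadingCoeff, nnnorm_one, div_one]
    have : (range p.natDegree).sup (fun i => ‖p.coeff i‖₊) ≤ 1 :=
      Finset.sup_le fun i _ => by exact_mod_cast h i
    calc _ ≤ (1 : NNReal) + 1 := by gcongr
      _ = 2 := by norm_num
  exact_mod_cast (h1.trans_le h2).le

/-- finitely many complex numbers are roots of small factors -/
lemma exists_root_set (D : ℕ) : ∃ Z : Finset ℂ, ∀ g : ℤ[X], g.Monic → 0 < g.natDegree →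
    g.natDegree ≤ D → (∀ a : ℂ, aeval a g = 0 → ‖a‖ ≤ 2) → ∃ a ∈ Z, aeval a g = 0 := by
  classical
  set M : ℤ := 2 ^ D * D.choose (D / 2) with hM
  have hfin := Polynomial.bUnion_roots_finite (Int.castRingHom ℂ) D (Set.finite_Icc (-M) M)
  refine ⟨hfin.toFinset, fun g hg h0 hD hr => ?_⟩
  have hroot : ∀ a : ℂ, a ∈ (g.map (Int.castRingHom ℂ)).roots ↔ aeval a g = 0 := by
    intro a
    rw [mem_roots (hg.map _).ne_zero, IsRoot.def, eval_map, aeval_def]
    rfl
  obtain ⟨a, ha⟩ := IsAlgClosed.exists_root (g.map (Int.castRingHom ℂ)) (by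
    rw [hg.degree_map]
    exact (natDegree_pos_iff_degree_pos.1 h0).ne')
  have ha' : a ∈ (g.map (Int.castRingHom ℂ)).roots := (mem_roots (hg.map _).ne_zero).2 ha
  refine ⟨a, ?_, (hroot a).1 ha'⟩
  rw [Set.Finite.mem_toFinset]
  refine Set.mem_iUnion.2 ⟨g, Set.mem_iUnion.2 ⟨⟨hD, fun i => ?_⟩, by simpa using ha'⟩⟩
  have := coeff_bdd_of_roots_le (B := 2) (Int.castRingHom ℂ) hg (IsAlgClosed.splits _) hD
    (fun z hz => hr z ((hroot z).1 hz)) i
  rw [coeff_map, max_eq_left (by norm_num : (1 : ℝ) ≤ 2)] at this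
  simp only [eq_intCast, Complex.norm_intCast] at this
  have h2 : |g.coeff i| ≤ M := by
    rw [hM]
    exact_mod_cast this
  exact abs_le.1 h2

end Pool.Agent.P.MP_8cce2a_nt
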