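import Pool.Agent.P.MP_8cce2a_nt.GAlg
import Pool.Agent.P.MP_8cce2a_nt.Small

/-!
Factors of bounded degree: finitely many possible roots, each of them rare.
-/

namespace Pool.Agent.P.MP_8cce2a_nt.G

open Polynomial Finset Real

lemma lo_gen {ι : Type*} [DecidableEq ι] (T : Finset ι) (z : ι → ℂ) (hz : ∀ i, z i ≠ 0) (c : ℂ)
    (B : Finset (Finset ι)) (hB : ∀ S ∈ B, S ⊆ T ∧ ∑ i ∈ S, z i = c) :
    B.card ≤ T.card.choose (T.card / 2) := by
  classical
  set e : Fin T.card → ι := fun j => (T.equivFin.symm j).1 with he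
  have hei : Function.Injective e := Subtype.val_injective.comp T.equivFin.symm.injective
  set ψ : Finset ι → Finset (Fin T.card) := fun S => univ.filter fun j => e j ∈ S with hψ
  have himg : ∀ S ⊆ T, (ψ S).image e = S := by
    intro S hS
    ext i
    simp only [hψ, Finset.mem_image, Finset.mem_filter, Finset.mem_univ, true_and]
    constructor
    · rintro ⟨j, h, rfl⟩
      exact h
    · intro h
      exact ⟨T.equivFin ⟨i, hS h⟩, by simpa [he] using h, by simp [he]⟩
  have hinj : Set.InjOn (fun S => (ψ S).map Fin.valEmbedding) B := by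
    intro S hS S' hS' h
    rw [← himg S (hB S hS).1, ← himg S' (hB S' hS').1, Finset.map_injective _ h]
  rw [← Finset.card_image_of_injOn hinj]
  refine lo_complex T.card (fun i => if h : i < T.card then z (e ⟨i, h⟩) else 1)
    (fun i hi => by simp only [dif_pos hi]; exact hz _) c _ fun U hU => ?_
  obtain ⟨S, hS, rfl⟩ := Finset.mem_image.1 hU
  refine ⟨fun i hi => ?_, ?_⟩
  · obtain ⟨j, -, rfl⟩ := Finset.mem_map.1 hi
    exact Finset.mem_range.2 j.2
  · rw [Finset.sum_map, ← (hB S hS).2]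
    conv_rhs => rw [← himg S (hB S hS).1, Finset.sum_image fun x _ y _ h => hei h]
    exact Finset.sum_congr rfl fun j _ => by simp

lemma Adm.aeval_eq {A κ : ℤ} {q m : ℕ} {f : ℤ[X]} (h : Adm A q κ (m + 1) f) (z : ℂ) :
    aeval z f = ∑ i : Fin m, (f.coeff (i.1 + 1) : ℂ) * z ^ (i.1 + 1) + κ + z ^ (m + 1) := by
  rw [aeval_eq_sum_range, h.dg, Finset.sum_range_succ, Finset.sum_range_succ', h.c0, h.cn,
    Finset.sum_range (fun i => f.coeff (i + 1) • z ^ (i + 1))]
  simp

lemma card_root {A κ : ℤ} {q m : ℕ} (hq : 2 ≤ q) {z : ℂ} (hz : z ≠ 0) {M : ℕ} (hM : 0 < M)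
    (B : Finset ℤ[X]) (hB : ∀ f ∈ B, Adm A q κ (m + 1) f ∧ aeval z f = 0) :
    (B.card : ℝ) ≤ q ^ m / M + 2 ^ (M ^ 2) * ((q : ℝ) - 1) ^ m := by
  classical
  set V := (Ico A (A + q)).erase (A + 1) with hV
  have hA1 : A + 1 ∈ Ico A (A + q) := Finset.mem_Ico.2 (by omega)
  have hA0 : A ∈ V := Finset.mem_erase.2 ⟨by omega, Finset.mem_Ico.2 (by omega)⟩
  have hVc : (V.card : ℝ) = q - 1 := by
    rw [hV, Finset.card_erase_of_mem hA1, card_I, Nat.cast_sub (by omega), Nat.cast_one]
  set lab : ℤ[X] → Fin m → ℤ := fun f i =>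
    if f.coeff (i.1 + 1) = A + 1 then A else f.coeff (i.1 + 1) with hlab
  set T : (Fin m → ℤ) → Finset (Fin m) := fun p => univ.filter fun i => p i = A with hT
  have hmap : ∀ f ∈ B, lab f ∈ Fintype.piFinset fun _ : Fin m => V := by
    intro f hf
    refine Fintype.mem_piFinset.2 fun i => ?_
    simp only [hlab]
    split_ifs with h
    · exact hA0
    · exact Finset.mem_erase.2 ⟨h, (hB f hf).1.mem _ (by omega) (by have := i.2; omega)⟩
  have hfib : ∀ p : Fin m → ℤ,
      (B.filter fun f => lab f = p).card ≤ (T p).card.choose ((T p).card / 2) := by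
    intro p
    set S : ℤ[X] → Finset (Fin m) := fun f => univ.filter fun i => f.coeff (i.1 + 1) = A + 1
      with hS
    have hc : ∀ f, ∀ i : Fin m, f.coeff (i.1 + 1) = lab f i + if i ∈ S f then 1 else 0 := by
      intro f i
      simp only [hlab, hS, Finset.mem_filter, Finset.mem_univ, true_and]
      split_ifs with h
      · exact h
      · simp
    have hinj : Set.InjOn S (B.filter fun f => lab f = p : Finset _) := by
      intro f hf f' hf' h
      obtain ⟨a1, a2⟩ := Finset.mem_filter.1 (Finset.mem_coe.1 hf)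
      obtain ⟨a3, a4⟩ := Finset.mem_filter.1 (Finset.mem_coe.1 hf')
      refine (hB f a1).1.ext (hB f' a3).1 fun i i1 i2 => ?_
      have e1 := hc f ⟨i - 1, by omega⟩
      have e2 := hc f' ⟨i - 1, by omega⟩
      simp only [Nat.sub_add_cancel i1] at e1 e2
      rw [e1, e2, a2, a4, h]
    rw [← Finset.card_image_of_injOn hinj]
    refine lo_gen (T p) (fun i => z ^ (i.1 + 1)) (fun _ => pow_ne_zero _ hz)
      (-(∑ i : Fin m, (p i : ℂ) * z ^ (i.1 + 1) + κ + z ^ (m + 1))) _ fun U hU => ?_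
    obtain ⟨f, hf, rfl⟩ := Finset.mem_image.1 hU
    obtain ⟨a1, rfl⟩ := Finset.mem_filter.1 hf
    refine ⟨fun i hi => Finset.mem_filter.2 ⟨Finset.mem_univ _, ?_⟩, ?_⟩
    · exact if_pos (Finset.mem_filter.1 hi).2
    · have e := (hB f a1).2
      rw [(hB f a1).1.aeval_eq] at e
      simp only [hc f, Int.cast_add, Int.cast_ite, Int.cast_one, Int.cast_zero, add_mul, ite_mul,
        one_mul, zero_mul, Finset.sum_add_distrib, Finset.sum_ite_mem, Finset.univ_inter] at e
      linear_combination e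
  have c1 : (B.card : ℝ) ≤ ∑ p ∈ Fintype.piFinset fun _ : Fin m => V,
      ((T p).card.choose ((T p).card / 2) : ℝ) := by
    rw [Finset.card_eq_sum_card_fiberwise hmap]
    exact_mod_cast Finset.sum_le_sum fun p _ => hfib p
  have hM' : (0 : ℝ) < M := by exact_mod_cast hM
  have c2 : ∀ t : ℕ, (t.choose (t / 2) : ℝ) ≤ 2 ^ t / M + 2 ^ (M ^ 2) := by
    intro t
    rcases le_total (M ^ 2) t with h | h
    · have a1 : ((t.choose (t / 2) : ℝ) * M) ^ 2 ≤ (2 ^ t) ^ 2 := by
        have a2 : (M : ℝ) ^ 2 ≤ t := by exact_mod_cast h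
        rw [mul_pow, ← pow_mul, mul_comm t 2, pow_mul]
        refine le_trans (by gcongr) ((choose_sq_le t).trans (by norm_num))
      have a3 := (abs_le_of_sq_le_sq' a1 (by positivity)).2
      rw [← le_div_iff₀ hM'] at a3
      exact a3.trans (le_add_of_nonneg_right (by positivity))
    · have a1 : (t.choose (t / 2) : ℝ) ≤ 2 ^ t := by exact_mod_cast Nat.choose_le_two_pow _ _
      exact (a1.trans (pow_le_pow_right₀ (by norm_num) h)).trans
        (le_add_of_nonneg_left (by positivity))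
  refine c1.trans ((Finset.sum_le_sum fun p _ => c2 _).trans (le_of_eq ?_))
  rw [Finset.sum_add_distrib, Finset.sum_const, Fintype.card_piFinset, Finset.prod_const,
    Finset.card_univ, Fintype.card_fin, nsmul_eq_mul, ← Finset.sum_div, mul_comm]
  push_cast
  rw [hVc]
  congr 2
  have e1 : ∀ p : Fin m → ℤ, (2 : ℝ) ^ (T p).card = ∏ i, if p i = A then 2 else 1 := by
    intro p
    rw [Finset.prod_ite, Finset.prod_const_one, mul_one, Finset.prod_const]
  simp only [e1]
  rw [← Finset.prod_univ_sum (fun _ : Fin m => V) (fun _ v => if v = A then (2 : ℝ) else 1),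
    Finset.prod_const, Finset.card_univ, Fintype.card_fin]
  congr 1
  have e2 : ∀ v : ℤ, (if v = A then (2 : ℝ) else 1) = 1 + if v = A then 1 else 0 := by
    intro v
    split_ifs <;> norm_num
  simp only [e2]
  rw [Finset.sum_add_distrib, Finset.sum_ite_eq', if_pos hA0, Finset.sum_const, nsmul_eq_mul, hVc]
  ring

lemma Adm.root_le {A κ : ℤ} {q n : ℕ} {f : ℤ[X]} (h : Adm A q κ n f) {a : ℂ}
    (ha : aeval a f = 0) : ‖a‖ ≤ (A.natAbs + q + κ.natAbs + 2 : ℕ) := by
  have hp := h.mo.map (Int.castRingHom ℂ)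
  have hr : (f.map (Int.castRingHom ℂ)).IsRoot a := by
    rw [IsRoot.def, eval_map]
    exact ha
  have h1 := hr.norm_lt_cauchyBound hp.ne_zero
  have h2 : (f.map (Int.castRingHom ℂ)).cauchyBound ≤ (A.natAbs + q + κ.natAbs + 2 : ℕ) := by
    rw [cauchyBound, hp.leadingCoeff, nnnorm_one, div_one]
    have : (range (f.map (Int.castRingHom ℂ)).natDegree).sup
        (fun i => ‖(f.map (Int.castRingHom ℂ)).coeff i‖₊) ≤ (A.natAbs + q + κ.natAbs + 1 : ℕ) := by
      refine Finset.sup_le fun i hi => ?_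
      have hi' : i < n := h.dg ▸ (Finset.mem_range.1 hi).trans_le natDegree_map_le
      have a1 : (f.coeff i).natAbs ≤ A.natAbs + q + κ.natAbs + 1 := by
        rcases Nat.eq_zero_or_pos i with rfl | h0
        · rw [h.c0]
          omega
        · have := Finset.mem_Ico.1 (h.mem i h0 hi')
          omega
      rw [coeff_map, eq_intCast, Complex.nnnorm_intCast, ← NNReal.natCast_natAbs]
      exact_mod_cast a1
    refine (add_le_add this le_rfl).trans (le_of_eq ?_)
    push_cast
    ring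
  exact_mod_cast (h1.trans_le h2).le

lemma root_set (D H : ℕ) (hH : 1 ≤ H) : ∃ Z : Finset ℂ, ∀ g : ℤ[X], g.Monic → 0 < g.natDegree →
    g.natDegree ≤ D → (∀ a : ℂ, aeval a g = 0 → ‖a‖ ≤ H) → ∃ a ∈ Z, aeval a g = 0 := by
  classical
  set M : ℤ := H ^ D * D.choose (D / 2) with hM
  have hfin := Polynomial.bUnion_roots_finite (Int.castRingHom ℂ) D (Set.finite_Icc (-M) M)
  refine ⟨hfin.toFinset, fun g hg h0 hD hr => ?_⟩
  have hroot : ∀ a : ℂ, a ∈ (g.map (Int.castRingHom ℂ)).roots ↔ aeval a g = 0 := by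
    intro a
    rw [mem_roots (hg.map _).ne_zero, IsRoot.def, eval_map, aeval_def]
    rfl
  obtain ⟨a, ha⟩ := IsAlgClosed.exists_root (g.map (Int.castRingHom ℂ)) (by
    rw [hg.degree_map]
    exact (natDegree_pos_iff_degree_pos.1 h0).ne')
  have ha' : a ∈ (g.map (Int.castRingHom ℂ)).roots := (mem_roots (hg.map _).ne_zero).2 ha
  refine ⟨a, ?_, (hroot a).1 ha'⟩
  rw [Set.Finite.mem_toFinset]
  refine Set.mem_iUnion.2 ⟨g, Set.mem_iUnion.2 ⟨⟨hD, fun i => ?_⟩, by simpa using ha'⟩⟩
  have := coeff_bdd_of_roots_le (B := H) (Int.castRingHom ℂ) hg (IsAlgClosed.splits _) hD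
    (fun z hz => hr z ((hroot z).1 hz)) i
  rw [coeff_map, max_eq_left (by exact_mod_cast hH : (1 : ℝ) ≤ H)] at this
  simp only [eq_intCast, Complex.norm_intCast] at this
  have h2 : |g.coeff i| ≤ M := by
    rw [hM]
    exact_mod_cast this
  exact abs_le.1 h2

/-- the set of all admissible polynomials -/
lemma adm_set (A κ : ℤ) (q m : ℕ) :
    ∃ Ω : Finset ℤ[X], Ω.card = q ^ m ∧ ∀ f, f ∈ Ω ↔ Adm A q κ (m + 1) f := by
  classical
  set P : (Fin m → ℤ) → ℤ[X] := fun c =>
    X ^ (m + 1) + (C κ + ∑ i : Fin m, monomial (i.1 + 1) (c i)) with hP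
  have h1 : ∀ c (i : Fin m), (P c).coeff (i.1 + 1) = c i := by
    intro c i
    have := i.2
    simp only [hP, coeff_add, coeff_X_pow, coeff_C_succ, finsetSum_coeff, coeff_monomial,
      add_left_inj, Fin.val_inj]
    rw [if_neg (by omega)]
    simp
  have h2 : ∀ c, Adm A q κ (m + 1) (P c) ↔ ∀ i, c i ∈ Ico A (A + q) := by
    intro c
    refine ⟨fun h i => h1 c i ▸ h.mem _ (by omega) (by have := i.2; omega), fun h => ?_⟩
    have hd : (C κ + ∑ i : Fin m, monomial (i.1 + 1) (c i)).natDegree < m + 1 := by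
      refine (natDegree_add_le _ _).trans_lt (max_lt (by simp) (Nat.lt_succ_of_le ?_))
      exact natDegree_sum_le_of_forall_le _ _ fun i _ => (natDegree_monomial_le _).trans i.2
    have hd' : (C κ + ∑ i : Fin m, monomial (i.1 + 1) (c i)).degree < (X ^ (m + 1) : ℤ[X]).degree := by
      rw [degree_X_pow]
      exact degree_le_natDegree.trans_lt (by exact_mod_cast hd)
    refine ⟨(monic_X_pow _).add_of_left hd', ?_, ?_, fun i i1 i2 => ?_⟩
    · rw [hP]
      simp only
      rw [natDegree_add_eq_left_of_degree_lt hd', natDegree_X_pow]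
    · simp [hP, coeff_monomial]
    · have := h1 c ⟨i - 1, by omega⟩
      simp only [Nat.sub_add_cancel i1] at this
      rw [this]
      exact h _
  refine ⟨(Fintype.piFinset fun _ : Fin m => Ico A (A + q)).image P, ?_, fun f => ⟨?_, ?_⟩⟩
  · rw [Finset.card_image_of_injective _ fun c c' h => _root_.funext fun i => by
      rw [← h1 c i, ← h1 c' i, h]]
    simp
  · intro hf
    obtain ⟨c, hc, rfl⟩ := Finset.mem_image.1 hf
    exact (h2 c).2 (Fintype.mem_piFinset.1 hc)
  · intro hf
    have hc : ∀ i : Fin m, f.coeff (i.1 + 1) ∈ Ico A (A + q) :=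
      fun i => hf.mem _ (by omega) (by have := i.2; omega)
    refine Finset.mem_image.2 ⟨fun i => f.coeff (i.1 + 1), Fintype.mem_piFinset.2 hc, ?_⟩
    refine ((h2 _).2 hc).ext hf fun i i1 i2 => ?_
    have := h1 (fun i => f.coeff (i.1 + 1)) ⟨i - 1, by omega⟩
    simpa only [Nat.sub_add_cancel i1] using this

end Pool.Agent.P.MP_8cce2a_nt.G
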