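import Pool.Agent.P.MP_8cce2a_nt.Split

/-!
A divisor of degree at most `n/2` of a random zero-one polynomial is self-reciprocal,
outside an event of exponentially small probability.
-/

namespace Pool.Agent.P.MP_8cce2a_nt

open Polynomial Finset

/-- counting sequences which are determined step by step up to few binary choices -/
lemma branch_card {ι σ Λ : Type*} [Fintype Λ] (B : Finset ι) (L q : ℕ) (x : ι → ℕ → σ)
    (lab : ι → Λ) (free : ι → ℕ → Prop) [∀ a, DecidablePred (free a)] (bit : ι → ℕ → Bool)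
    (hinj : ∀ a ∈ B, ∀ b ∈ B, (∀ t < L, x a t = x b t) → a = b)
    (hstep : ∀ a ∈ B, ∀ b ∈ B, lab a = lab b → ∀ t, (∀ s < t, x a s = x b s) →
      (free a t ↔ free b t) ∧ ((free a t → bit a t = bit b t) → x a t = x b t))
    (hq : ∀ a ∈ B, Nat.count (free a) L ≤ q) : B.card ≤ Fintype.card Λ * 2 ^ q := by
  classical
  have := Finset.card_le_card_of_injOn (s := B) (t := (univ : Finset (Λ × (Fin q → Bool))))
    (fun a => (lab a, fun r => bit a (Nat.nth (free a) r.1))) (fun _ _ => Finset.mem_univ _) (by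
      intro a ha b hb h
      obtain ⟨h1, h2⟩ := Prod.mk.inj h
      refine hinj a ha b hb fun t ht => ?_
      induction t using Nat.strong_induction_on with
      | _ t ih =>
        have hpre : ∀ s < t, x a s = x b s := fun s hs => ih s hs (by omega)
        have hfr : ∀ s ≤ t, (free a s ↔ free b s) := fun s hs =>
          (hstep a ha b hb h1 s fun s' hs' => hpre s' (by omega)).1
        refine (hstep a ha b hb h1 t hpre).2 fun hf => ?_
        have hc : Nat.count (free a) t = Nat.count (free b) t := by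
          rw [Nat.count_eq_card_filter_range, Nat.count_eq_card_filter_range]
          congr 1
          exact Finset.filter_congr fun s hs => hfr s (Finset.mem_range.1 hs).le
        have hlt : Nat.count (free a) t < q := by
          have h3 := Nat.count_monotone (free a) (show t + 1 ≤ L by omega)
          rw [Nat.count_succ, if_pos hf] at h3
          have := hq a ha
          omega
        have := congrFun h2 ⟨_, hlt⟩
        simp only at this
        rwa [Nat.nth_count hf, hc, Nat.nth_count ((hfr t le_rfl).1 hf)] at this)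
  simpa using this

lemma zo_step {a b a' b' : ℤ} (ha : a = 0 ∨ a = 1) (hb : b = 0 ∨ b = 1) (ha' : a' = 0 ∨ a' = 1)
    (hb' : b' = 0 ∨ b' = 1) (h : ((a - a' : ℤ) : ZMod 3) = ((b - b' : ℤ) : ZMod 3)) :
    (a = b ↔ a' = b') ∧ ((a = b → decide (a = 1) = decide (a' = 1)) → (a, b) = (a', b')) := by
  revert h
  rcases ha with rfl | rfl <;> rcases hb with rfl | rfl <;> rcases ha' with rfl | rfl <;>
    rcases hb' with rfl | rfl <;> decide

/-- many disagreements between `g h` and its twist -/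
lemma card_many {ι : Type*} (B : Finset ι) (n D q : ℕ) (d e : ι → ℕ) (g h : ι → ℤ[X])
    (hF : ∀ a ∈ B, Fac (d a) (e a) (g a) (h a) ∧ d a ≤ D ∧ d a + e a = n)
    (hinj : ∀ a ∈ B, ∀ b ∈ B, g a * h a = g b * h b → a = b)
    (hq : ∀ a ∈ B, Nat.count
      (fun t => (g a * h a).coeff t = (reflect (d a) (g a) * h a).coeff t) (n + 1) ≤ q) :
    B.card ≤ (D + 1) * 3 ^ (D + 1) * 2 ^ q := by
  classical
  have := branch_card (Λ := Fin (D + 1) × (Fin (D + 1) → ZMod 3)) B (n + 1) q
    (fun a t => ((g a * h a).coeff t, (reflect (d a) (g a) * h a).coeff t))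
    (fun a => (⟨min (d a) D, by omega⟩, fun i => ((g a).coeff i.1 : ZMod 3)))
    (fun a t => (g a * h a).coeff t = (reflect (d a) (g a) * h a).coeff t)
    (fun a t => decide ((g a * h a).coeff t = 1)) (by
      intro a ha b hb hx
      refine hinj a ha b hb ?_
      have hd : ∀ c ∈ B, (g c * h c).natDegree ≤ n := fun c hc => by
        obtain ⟨F, -, F3⟩ := hF c hc
        exact natDegree_mul_le.trans (by rw [F.dg, F.dh, F3])
      ext t
      by_cases ht : t < n + 1
      · exact (Prod.mk.inj (hx t ht)).1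
      · rw [coeff_eq_zero_of_natDegree_lt ((hd a ha).trans_lt (by omega)),
          coeff_eq_zero_of_natDegree_lt ((hd b hb).trans_lt (by omega))]) (by
      intro a ha b hb hl t hpre
      obtain ⟨F, F2, -⟩ := hF a ha
      obtain ⟨F', F2', -⟩ := hF b hb
      obtain ⟨g0, -, r0, -, -, -, z3⟩ := F.facts
      obtain ⟨-, -, -, -, -, -, z3'⟩ := F'.facts
      obtain ⟨l1, l2⟩ := Prod.mk.inj hl
      have hd : d a = d b := by
        have := Fin.mk.inj l1
        omega
      set φ := Int.castRingHom (ZMod 3) with hφ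
      have hg : (g a).map φ = (g b).map φ := by
        ext i
        rw [coeff_map, coeff_map]
        by_cases hi : i < D + 1
        · exact congrFun l2 ⟨i, hi⟩
        · rw [coeff_eq_zero_of_natDegree_lt (by rw [F.dg]; omega),
            coeff_eq_zero_of_natDegree_lt (by rw [F'.dg]; omega)]
      have hr : (reflect (d a) (g a)).map φ = (reflect (d b) (g b)).map φ := by
        rw [← reflect_map, ← reflect_map, hg, hd]
      refine zo_step (F.zo t) (z3 t) (F'.zo t) (z3' t) ?_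
      have d1 : X ^ t ∣ (g a * h a - g b * h b).map φ := by
        rw [X_pow_dvd_iff]
        intro s hs
        rw [coeff_map, coeff_sub, (Prod.mk.inj (hpre s hs)).1, sub_self, map_zero]
      have d2 : X ^ t ∣ (reflect (d a) (g a) * h a - reflect (d b) (g b) * h b).map φ := by
        rw [X_pow_dvd_iff]
        intro s hs
        rw [coeff_map, coeff_sub, (Prod.mk.inj (hpre s hs)).2, sub_self, map_zero]
      have e1 : (g a * h a - g b * h b).map φ * (reflect (d a) (g a)).map φ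
          = (reflect (d a) (g a) * h a - reflect (d b) (g b) * h b).map φ * (g a).map φ := by
        simp only [Polynomial.map_sub, Polynomial.map_mul, ← hg, ← hr]
        ring
      have e2 := congrArg (fun p => p.coeff t) e1
      simp only [coeff_mul_of_dvd d1, coeff_mul_of_dvd d2, coeff_map, g0, r0, map_one, mul_one,
        coeff_sub] at e2
      exact e2) hq
  simpa using this

lemma zo_low_card {ι : Type*} (B : Finset ι) (L : ℕ) (f : ι → ℤ[X]) (hz : ∀ a ∈ B, ZO (f a))
    (hinj : ∀ a ∈ B, ∀ b ∈ B, X ^ L ∣ f a - f b → a = b) : B.card ≤ 2 ^ L := by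
  have := Finset.card_le_card_of_injOn (s := B) (t := (univ : Finset (Fin L → Bool)))
    (fun a t => decide ((f a).coeff t.1 = 1)) (fun _ _ => Finset.mem_univ _) (by
      intro a ha b hb h
      refine hinj a ha b hb (X_pow_dvd_iff.2 fun t ht => ?_)
      have := congrFun h ⟨t, ht⟩
      rw [coeff_sub]
      rcases hz a ha t with h1 | h1 <;> rcases hz b hb t with h2 | h2 <;> simp_all)
  simpa using this

lemma eq_zero_of_halves {u : ℤ[X]} {n : ℕ} (hu : u.natDegree ≤ n) (h1 : X ^ (n / 2 + 1) ∣ u)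
    (h2 : X ^ (n / 2 + 1) ∣ reflect n u) : u = 0 := by
  ext i
  rw [coeff_zero]
  by_cases c1 : i < n / 2 + 1
  · exact X_pow_dvd_iff.1 h1 i c1
  by_cases c3 : i ≤ n
  · have := X_pow_dvd_iff.1 h2 (n - i) (by omega)
    rwa [coeff_reflect, revAt_le (Nat.sub_le _ _), Nat.sub_sub_self c3] at this
  · exact coeff_eq_zero_of_natDegree_lt (by omega)

/-- a fixed difference between a polynomial and its twist -/
lemma card_fixed {ι : Type*} (B : Finset ι) (n : ℕ) (f : ι → ℤ[X]) {ε : ℤ[X]} (hε : ε ≠ 0)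
    (hf : ∀ a ∈ B, ZO (f a) ∧ (f a).natDegree ≤ n ∧
      (f a + ε) * reflect n (f a + ε) = f a * reflect n (f a))
    (hinj : ∀ a ∈ B, ∀ b ∈ B, f a = f b → a = b) : B.card ≤ 2 ^ (n / 2 + 1) := by
  classical
  have hex : ∃ i : ℕ, ¬ (X ^ (i + 1) ∣ ε ∧ X ^ (i + 1) ∣ reflect n ε) :=
    ⟨ε.natDegree, fun h => by
      have := natDegree_le_of_dvd h.1 hε
      rw [natDegree_X_pow] at this
      omega⟩
  have hi : X ^ Nat.find hex ∣ ε ∧ X ^ Nat.find hex ∣ reflect n ε := by
    rcases hD : Nat.find hex with _ | j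
    · simp
    · exact not_not.1 (Nat.find_min hex (m := j) (by omega))
  have hi2 := Nat.find_spec hex
  generalize Nat.find hex = i at hi hi2
  obtain ⟨⟨p, hp⟩, ⟨r, hr⟩⟩ := hi
  have key : ∀ a ∈ B, ∀ b ∈ B, (f a - f b) * r + p * reflect n (f a - f b) = 0 := by
    intro a ha b hb
    have e1 := (hf a ha).2.2
    have e2 := (hf b hb).2.2
    rw [reflect_add] at e1 e2
    have : X ^ i * ((f a - f b) * r + p * reflect n (f a - f b)) = 0 := by
      rw [reflect_sub]
      linear_combination e1 - e2 - (f a - f b) * hr - (reflect n (f a) - reflect n (f b)) * hp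
    exact (mul_eq_zero.1 this).resolve_left (pow_ne_zero _ X_ne_zero)
  have hdeg : ∀ a ∈ B, ∀ b ∈ B, (f a - f b).natDegree ≤ n := fun a ha b hb =>
    (natDegree_sub_le _ _).trans (max_le (hf a ha).2.1 (hf b hb).2.1)
  by_cases hX : X ∣ p
  · have hX' : ¬ X ∣ r := fun h => hi2 ⟨by rw [hp, pow_succ]; exact mul_dvd_mul_left _ hX,
      by rw [hr, pow_succ]; exact mul_dvd_mul_left _ h⟩
    refine zo_low_card B _ (fun a => reflect n (f a)) (fun a ha => (hf a ha).1.reflect n) ?_
    intro a ha b hb h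
    rw [← reflect_sub] at h
    refine hinj a ha b hb (sub_eq_zero.1 (eq_zero_of_halves (hdeg a ha b hb) ?_ h))
    refine prime_X.pow_dvd_of_dvd_mul_left _ hX' ?_
    have : r * (f a - f b) = -(p * reflect n (f a - f b)) := by
      linear_combination key a ha b hb
    rw [this]
    exact (h.mul_left _).neg_right
  · refine zo_low_card B _ f (fun a ha => (hf a ha).1) ?_
    intro a ha b hb h
    refine hinj a ha b hb (sub_eq_zero.1 (eq_zero_of_halves (hdeg a ha b hb) h ?_))
    refine prime_X.pow_dvd_of_dvd_mul_left _ hX ?_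
    have : p * reflect n (f a - f b) = -((f a - f b) * r) := by
      linear_combination key a ha b hb
    rw [this]
    exact (h.mul_right _).neg_right

/-- few disagreements -/
lemma card_few {ι : Type*} (B : Finset ι) (n m : ℕ) (f w : ι → ℤ[X])
    (hf : ∀ a ∈ B, ZO (f a) ∧ ZO (w a) ∧ (f a).natDegree ≤ n ∧ (w a).natDegree ≤ n ∧
      w a ≠ f a ∧ w a * reflect n (w a) = f a * reflect n (f a) ∧
      ((range (n + 1)).filter fun t => ¬ (f a).coeff t = (w a).coeff t).card ≤ m)
    (hinj : ∀ a ∈ B, ∀ b ∈ B, f a = f b → a = b) :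
    (B.card : ℝ) ≤ 2 ^ (n / 2 + 1) * ((9 / 8) ^ (n + 1) * 16 ^ m) := by
  classical
  set E : ι → Finset ℕ := fun a => (range (n + 1)).filter fun t => ¬ (f a).coeff t = (w a).coeff t
    with hE
  set T := (((range (n + 1)).powerset).filter fun U => U.card ≤ m).sigma fun U => U.powerset
    with hT
  have c1 : B.card ≤ 2 ^ (n / 2 + 1) * T.card := by
    refine Finset.card_le_mul_card_image_of_maps_to
      (f := fun a => (⟨E a, (E a).filter fun t => (f a).coeff t = 1⟩ : Σ _ : Finset ℕ, Finset ℕ))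
      (fun a ha => Finset.mem_sigma.2 ⟨Finset.mem_filter.2
        ⟨Finset.mem_powerset.2 (Finset.filter_subset _ _), (hf a ha).2.2.2.2.2.2⟩,
        Finset.mem_powerset.2 (Finset.filter_subset _ _)⟩) _ ?_
    intro p _
    rcases (B.filter fun a => (⟨E a, (E a).filter fun t => (f a).coeff t = 1⟩ :
      Σ _ : Finset ℕ, Finset ℕ) = p).eq_empty_or_nonempty with h | ⟨a0, ha0⟩
    · simp [h]
    obtain ⟨b0, p0⟩ := Finset.mem_filter.1 ha0
    refine card_fixed _ n f (ε := w a0 - f a0) (sub_ne_zero.2 (hf a0 b0).2.2.2.2.1) ?_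
      fun a ha b hb => hinj a (Finset.mem_filter.1 ha).1 b (Finset.mem_filter.1 hb).1
    intro a ha
    obtain ⟨b1, p1⟩ := Finset.mem_filter.1 ha
    obtain ⟨z1, z2, d1, d2, -, e1, -⟩ := hf a b1
    obtain ⟨y1, y2, d3, d4, -⟩ := hf a0 b0
    obtain ⟨s1, s2⟩ := Sigma.mk.inj (p1.trans p0.symm)
    have s3 := eq_of_heq s2
    have : f a + (w a0 - f a0) = w a := by
      ext t
      rw [coeff_add, coeff_sub]
      by_cases ht : t < n + 1
      · have m1 : t ∈ E a ↔ t ∈ E a0 := by rw [s1]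
        have m2 : t ∈ (E a).filter (fun t => (f a).coeff t = 1)
            ↔ t ∈ (E a0).filter (fun t => (f a0).coeff t = 1) := by rw [s3]
        simp only [hE, Finset.mem_filter, Finset.mem_range, ht, true_and] at m1 m2
        rcases z1 t with h1 | h1 <;> rcases z2 t with h2 | h2 <;> rcases y1 t with h3 | h3 <;>
          rcases y2 t with h4 | h4 <;> simp_all
      · rw [coeff_eq_zero_of_natDegree_lt (d1.trans_lt (by omega)),
          coeff_eq_zero_of_natDegree_lt (d2.trans_lt (by omega)),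
          coeff_eq_zero_of_natDegree_lt (d3.trans_lt (by omega)),
          coeff_eq_zero_of_natDegree_lt (d4.trans_lt (by omega))]
        simp
    rw [this]
    exact ⟨z1, d1, e1⟩
  have c2 : (T.card : ℝ) ≤ (9 / 8) ^ (n + 1) * 16 ^ m := by
    have e := Finset.sum_pow_mul_eq_add_pow (1 / 8 : ℝ) 1 (range (n + 1))
    simp only [one_pow, mul_one, Finset.card_range] at e
    rw [hT, Finset.card_sigma, show (9 / 8 : ℝ) = 1 / 8 + 1 by norm_num, ← e, Finset.sum_mul]
    push_cast
    refine le_trans (Finset.sum_le_sum fun U hU => ?_)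
      (Finset.sum_le_sum_of_subset_of_nonneg (Finset.filter_subset _ _) fun _ _ _ => by positivity)
    rw [Finset.card_powerset]
    have h1 : (16 : ℝ) ^ U.card ≤ 16 ^ m :=
      pow_le_pow_right₀ (by norm_num) (Finset.mem_filter.1 hU).2
    push_cast
    calc (2 : ℝ) ^ U.card = (1 / 8) ^ U.card * 16 ^ U.card := by
          rw [← mul_pow]
          norm_num
      _ ≤ _ := by gcongr
  have c3 : (B.card : ℝ) ≤ 2 ^ (n / 2 + 1) * T.card := by exact_mod_cast c1
  exact c3.trans (by gcongr)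

lemma monic_of_dvd {f g : ℤ[X]} (hf : f.Monic) (hg : g ∣ f) (hr : g.reverse ≠ g) :
    ∃ g' h' : ℤ[X], g'.Monic ∧ h'.Monic ∧ g' * h' = f ∧ g'.natDegree = g.natDegree ∧
      reflect g.natDegree g' ≠ g' := by
  obtain ⟨h, rfl⟩ := hg
  have h1 : g.leadingCoeff * h.leadingCoeff = 1 := by
    rw [← leadingCoeff_mul]
    exact hf
  rcases Int.eq_one_or_neg_one_of_mul_eq_one' h1 with ⟨a, b⟩ | ⟨a, b⟩
  · exact ⟨g, h, a, b, rfl, rfl, hr⟩
  · refine ⟨-g, -h, by rw [Monic, leadingCoeff_neg, a, neg_neg],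
      by rw [Monic, leadingCoeff_neg, b, neg_neg], by ring, natDegree_neg _, fun e => hr ?_⟩
    rw [reflect_neg] at e
    exact neg_injective e

open Classical in
lemma nonrec_le (n : ℕ) (hn : 0 < n) :
    ((((Ioo 0 n).powerset).filter fun S =>
      ∃ g : ℤ[X], g ∣ fS n S ∧ 2 * g.natDegree ≤ n ∧ g.reverse ≠ g).card : ℝ)
      ≤ 2 ^ (n - 1) * (9000 * (7 / 8) ^ (n / 64)) := by
  set k := n / 64 with hk
  set P := (Ioo 0 n).powerset with hP
  set A1 := P.filter fun S => ∃ d, k < d ∧ 2 * d ≤ n ∧ HasFac n d S with hA1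
  set Q : Finset ℕ → ℕ × ℕ × ℤ[X] × ℤ[X] → Prop := fun S p =>
    Fac p.1 p.2.1 p.2.2.1 p.2.2.2 ∧ p.1 ≤ k ∧ p.1 + p.2.1 = n ∧ p.2.2.1 * p.2.2.2 = fS n S ∧
      reflect p.1 p.2.2.1 ≠ p.2.2.1 with hQ
  set B := P.filter fun S => ∃ p, Q S p with hB
  have hsub : (P.filter fun S =>
      ∃ g : ℤ[X], g ∣ fS n S ∧ 2 * g.natDegree ≤ n ∧ g.reverse ≠ g) ⊆ A1 ∪ B := by
    intro S hS
    obtain ⟨h1, g0, h2, h3, h4⟩ := Finset.mem_filter.1 hS
    have hS' := Finset.mem_powerset.1 h1
    obtain ⟨m1, m2⟩ := fS_monic hn hS'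
    obtain ⟨g, h, mg, mh, e, dg, hr⟩ := monic_of_dvd m1 h2 h4
    by_cases hd : k < g0.natDegree
    · exact Finset.mem_union_left _ (Finset.mem_filter.2 ⟨h1, _, hd, h3, g, h, mg, mh, e, dg⟩)
    refine Finset.mem_union_right _ (Finset.mem_filter.2
      ⟨h1, (g0.natDegree, h.natDegree, g, h), ⟨mg, mh, dg, rfl, ?_, ?_⟩, by omega, ?_, e, hr⟩)
    · rw [e]
      exact fS_ZO hn hS'
    · rw [e, coeff_fS hn hS']
      simp
    · rw [← e, mg.natDegree_mul mh, dg] at m2
      exact m2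
  have hch : ∀ S ∈ B, ∃ p, Q S p := fun S hS => (Finset.mem_filter.1 hS).2
  choose! p hp using hch
  have hBP : ∀ S ∈ B, S ⊆ Ioo 0 n := fun S hS =>
    Finset.mem_powerset.1 (Finset.mem_filter.1 hS).1
  set w : Finset ℕ → ℤ[X] := fun S => reflect (p S).1 (p S).2.2.1 * (p S).2.2.2 with hw
  set R : Finset ℕ → Prop := fun S =>
    ((range (n + 1)).filter fun t => ¬ (fS n S).coeff t = (w S).coeff t).card ≤ 4 * k with hR
  have c1 : ((B.filter R).card : ℝ) ≤ 2 ^ (n / 2 + 1) * ((9 / 8) ^ (n + 1) * 16 ^ (4 * k)) := by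
    refine card_few _ n (4 * k) (fS n) w (fun S hS => ?_) fun a ha b hb h =>
      fS_inj hn (hBP a (Finset.mem_filter.1 ha).1) (hBP b (Finset.mem_filter.1 hb).1) h
    obtain ⟨h1, h2⟩ := Finset.mem_filter.1 hS
    obtain ⟨F, -, F3, F4, F5⟩ := hp S h1
    obtain ⟨-, -, -, -, -, -, z3⟩ := F.facts
    refine ⟨fS_ZO hn (hBP S h1), z3, (fS_monic hn (hBP S h1)).2.le, ?_, ?_, ?_, h2⟩
    · rw [← F3]
      exact natDegree_mul_le.trans (add_le_add (natDegree_reflect_le' F.dg.le) F.dh.le)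
    · rw [← F4]
      exact fun h => F5 (mul_right_cancel₀ F.mh.ne_zero h)
    · rw [← F4, ← F3, hw]
      simp only
      rw [reflect_mul _ _ (natDegree_reflect_le' F.dg.le) F.dh.le, reflect_reflect,
        reflect_mul _ _ F.dg.le F.dh.le]
      ring
  have c2 : (B.filter fun S => ¬ R S).card ≤ (k + 1) * 3 ^ (k + 1) * 2 ^ (n + 1 - 4 * k) := by
    refine card_many _ n k _ (fun S => (p S).1) (fun S => (p S).2.1) (fun S => (p S).2.2.1)
      (fun S => (p S).2.2.2) (fun S hS => ?_) (fun a ha b hb h => ?_) fun S hS => ?_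
    · obtain ⟨F, F2, F3, -⟩ := hp S (Finset.mem_filter.1 hS).1
      exact ⟨F, F2, F3⟩
    · have h1 := (Finset.mem_filter.1 ha).1
      have h2 := (Finset.mem_filter.1 hb).1
      rw [(hp a h1).2.2.2.1, (hp b h2).2.2.2.1] at h
      exact fS_inj hn (hBP a h1) (hBP b h2) h
    · obtain ⟨h1, h2⟩ := Finset.mem_filter.1 hS
      rw [(hp S h1).2.2.2.1, Nat.count_eq_card_filter_range]
      have := Finset.card_filter_add_card_filter_not (s := range (n + 1))
        (fun t => (fS n S).coeff t = (w S).coeff t)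
      rw [Finset.card_range] at this
      simp only [hR, not_le] at h2
      change ((range (n + 1)).filter fun t => (fS n S).coeff t = (w S).coeff t).card ≤ _
      omega
  have c3 := card_tail n k
  have c4 : (P.filter fun S =>
      ∃ g : ℤ[X], g ∣ fS n S ∧ 2 * g.natDegree ≤ n ∧ g.reverse ≠ g).card
      ≤ A1.card + ((B.filter R).card + (B.filter fun S => ¬ R S).card) := by
    rw [Finset.card_filter_add_card_filter_not]
    exact (Finset.card_le_card hsub).trans (Finset.card_union_le _ _)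
  have hh : (1 / 2 : ℝ) ^ k ≤ (7 / 8) ^ k := pow_le_pow_left₀ (by norm_num) (by norm_num) k
  have c5 : ((B.filter fun S => ¬ R S).card : ℝ) ≤ 2 ^ (n - 1) * (32 * (1 / 2) ^ k) := by
    have a1 : (k + 1) * 3 ^ (k + 1) * 2 ^ (n + 1 - 4 * k) * 2 ^ k ≤ 2 ^ (n - 1) * 2 ^ 5 := by
      calc (k + 1) * 3 ^ (k + 1) * 2 ^ (n + 1 - 4 * k) * 2 ^ k
          ≤ 2 ^ (k + 1) * (2 ^ 2) ^ (k + 1) * 2 ^ (n + 1 - 4 * k) * 2 ^ k := by
            gcongr
            · exact Nat.lt_two_pow_self.le
            · norm_num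
        _ = _ := by
            rw [← pow_mul, ← pow_add, ← pow_add, ← pow_add, ← pow_add]
            congr 1
            omega
    have a2 : ((B.filter fun S => ¬ R S).card : ℝ) * 2 ^ k ≤ 2 ^ (n - 1) * 2 ^ 5 := by
      exact_mod_cast (Nat.mul_le_mul_right _ c2).trans a1
    rw [one_div, inv_pow, ← mul_assoc, ← div_eq_mul_inv, le_div_iff₀ (by positivity)]
    linarith
  have c6 : ((B.filter R).card : ℝ) ≤ 2 ^ (n - 1) * (8192 * (1 / 2) ^ k) := by
    refine c1.trans ?_
    have a1 : (9 / 8 : ℝ) ^ (n + 1) ≤ (2 ^ 11) ^ (k + 1) := by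
      calc (9 / 8 : ℝ) ^ (n + 1) ≤ (9 / 8) ^ (64 * (k + 1)) :=
            pow_le_pow_right₀ (by norm_num) (by omega)
        _ ≤ _ := by
            rw [pow_mul]
            gcongr
            norm_num
    rw [one_div, inv_pow, ← mul_assoc (2 ^ (n - 1) : ℝ), ← div_eq_mul_inv,
      le_div_iff₀ (by positivity)]
    calc (2 : ℝ) ^ (n / 2 + 1) * ((9 / 8) ^ (n + 1) * 16 ^ (4 * k)) * 2 ^ k
        ≤ 2 ^ (n / 2 + 1) * ((2 ^ 11) ^ (k + 1) * (2 ^ 4) ^ (4 * k)) * 2 ^ k := by
          gcongr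
          norm_num
      _ = 2 ^ (n / 2 + 1 + (11 * (k + 1) + 4 * (4 * k)) + k) := by
          rw [← pow_mul, ← pow_mul, ← pow_add, ← pow_add, ← pow_add]
      _ ≤ 2 ^ (n - 1 + 13) := pow_le_pow_right₀ (by norm_num) (by omega)
      _ = _ := by
          rw [pow_add]
          norm_num
  have c7 : ((P.filter fun S =>
      ∃ g : ℤ[X], g ∣ fS n S ∧ 2 * g.natDegree ≤ n ∧ g.reverse ≠ g).card : ℝ)
      ≤ A1.card + ((B.filter R).card + (B.filter fun S => ¬ R S).card) := by exact_mod_cast c4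
  have h0 : (0 : ℝ) ≤ 2 ^ (n - 1) * (7 / 8) ^ k := by positivity
  have h1 := mul_le_mul_of_nonneg_left hh (show (0 : ℝ) ≤ 2 ^ (n - 1) by positivity)
  nlinarith

lemma nonrec_example {n : ℕ} (hn : 7 ≤ n) : ∃ S : Finset ℕ, S ⊆ Ioo 0 n ∧
    ∃ g : ℤ[X], g ∣ fS n S ∧ 2 * g.natDegree ≤ n ∧ g.reverse ≠ g := by
  obtain ⟨m, rfl⟩ : ∃ m, n = m + 7 := ⟨n - 7, by omega⟩
  have hd : (X ^ 3 + X + 1 : ℤ[X]).natDegree = 3 := by compute_degree!
  refine ⟨{1, 3, m + 4, m + 5}, ?_, X ^ 3 + X + 1, ⟨X ^ (m + 4) + 1, ?_⟩, by omega, fun h => ?_⟩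
  · intro i hi
    simp only [Finset.mem_insert, Finset.mem_singleton] at hi
    exact Finset.mem_Ioo.2 (by omega)
  · rw [fS, Finset.sum_insert (by simp), Finset.sum_insert (by simp),
      Finset.sum_insert (by simp), Finset.sum_singleton]
    ring
  · have := congrArg (fun p => p.coeff 1) h
    simp only [coeff_reverse, hd] at this
    rw [revAt_le (by norm_num)] at this
    simp [coeff_X, coeff_one, coeff_X_pow] at this

theorem nonrec_rate : ∃ c : ℝ, 0 < c ∧ ∃ N : ℕ, ∀ n : ℕ, N ≤ n →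
    Real.exp (-(n : ℝ)) ≤ (({S : Finset ℕ | S ⊆ Finset.Ioo 0 n ∧
        ∃ g : ℤ[X], g ∣ fS n S ∧ 2 * g.natDegree ≤ n ∧ g.reverse ≠ g} : Set (Finset ℕ)).ncard : ℝ)
          / (2 : ℝ) ^ (n - 1) ∧
      (({S : Finset ℕ | S ⊆ Finset.Ioo 0 n ∧
        ∃ g : ℤ[X], g ∣ fS n S ∧ 2 * g.natDegree ≤ n ∧ g.reverse ≠ g} : Set (Finset ℕ)).ncard : ℝ)
          / (2 : ℝ) ^ (n - 1) ≤ Real.exp (-(c * n)) := by
  classical
  refine ⟨1 / 1024, by norm_num, 20000, fun n hn => ?_⟩
  have e1 : ({S : Finset ℕ | S ⊆ Finset.Ioo 0 n ∧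
        ∃ g : ℤ[X], g ∣ fS n S ∧ 2 * g.natDegree ≤ n ∧ g.reverse ≠ g} : Set (Finset ℕ))
      = ↑(((Ioo 0 n).powerset).filter fun S =>
        ∃ g : ℤ[X], g ∣ fS n S ∧ 2 * g.natDegree ≤ n ∧ g.reverse ≠ g) := by
    ext S
    simp
  rw [e1, Set.ncard_coe_finset]
  constructor
  · obtain ⟨S, h1, h2⟩ := nonrec_example (n := n) (by omega)
    have h3 : (1 : ℝ) ≤ (((Ioo 0 n).powerset).filter fun S =>
        ∃ g : ℤ[X], g ∣ fS n S ∧ 2 * g.natDegree ≤ n ∧ g.reverse ≠ g).card := by
      exact_mod_cast Finset.card_pos.2 ⟨S, Finset.mem_filter.2 ⟨Finset.mem_powerset.2 h1, h2⟩⟩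
    rw [le_div_iff₀ (by positivity)]
    refine le_trans ?_ h3
    rw [Real.exp_neg, inv_mul_le_iff₀ (Real.exp_pos _), mul_one]
    calc (2 : ℝ) ^ (n - 1) ≤ 2 ^ n := pow_le_pow_right₀ (by norm_num) (by omega)
      _ ≤ Real.exp 1 ^ n := by
          gcongr
          linarith [Real.add_one_le_exp 1]
      _ = _ := by rw [← Real.exp_nat_mul, mul_one]
  · rw [div_le_iff₀ (by positivity), mul_comm]
    refine (nonrec_le n (by omega)).trans (mul_le_mul_of_nonneg_left ?_ (by positivity))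
    have h1 : (7 / 8 : ℝ) ≤ Real.exp (-(1 / 8)) := by linarith [Real.add_one_le_exp (-(1 / 8))]
    have h2 : (9000 : ℝ) ≤ Real.exp 14 := by
      have : (2 : ℝ) ^ 14 ≤ Real.exp 1 ^ 14 := by
        gcongr
        linarith [Real.add_one_le_exp 1]
      rw [← Real.exp_nat_mul, mul_one] at this
      norm_num at this ⊢
      linarith
    have h3 : (n : ℝ) ≤ 64 * ((n / 64 : ℕ) + 1) := by
      exact_mod_cast (by omega : n ≤ 64 * (n / 64 + 1))
    have h4 : (20000 : ℝ) ≤ n := by exact_mod_cast hn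
    calc (9000 : ℝ) * (7 / 8) ^ (n / 64) ≤ Real.exp 14 * Real.exp (-(1 / 8)) ^ (n / 64) := by
          gcongr
      _ = Real.exp (14 + (n / 64 : ℕ) * (-(1 / 8))) := by rw [← Real.exp_nat_mul, ← Real.exp_add]
      _ ≤ _ := Real.exp_le_exp.2 (by linarith)

end Pool.Agent.P.MP_8cce2a_nt
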