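import Pool.Agent.P.MP_8cce2a_nt.GAlg
import Pool.Agent.P.MP_8cce2a_nt.NonRec

/-!
Factors of small degree which are not reciprocal, and reciprocal factors.
-/

namespace Pool.Agent.P.MP_8cce2a_nt.G

open Polynomial Finset Real

/-- the Gaussian rate used for small degrees -/
noncomputable def b2 (q : ℕ) (κ : ℤ) : ℝ := 3 / (4 * (κ : ℝ) ^ 2 * (q : ℝ) ^ 2)

lemma b2_pos {q : ℕ} (hq : 0 < q) {κ : ℤ} (hκ : κ ≠ 0) : 0 < b2 q κ := by
  have : (0 : ℝ) < q := by exact_mod_cast hq
  have : (κ : ℝ) ≠ 0 := by exact_mod_cast hκ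
  rw [b2]
  positivity

/-- the error from distant lifts -/
noncomputable def tl (β : ℝ) (Q : ℕ) : ℝ :=
  exp (-(β * (Q : ℝ) ^ 2 / 8)) * (exp (β / 2 / 12) * √(π / (β / 2)))

lemma cong_sum {β m : ℝ} (hβ : 0 < β) {Q : ℕ} (Y : Finset ℤ)
    (hY : ∀ y ∈ Y, ∀ y' ∈ Y, (Q : ℤ) ∣ y - y') :
    ∑ y ∈ Y, exp (-(β / 4 * (2 * (y : ℝ) - m) ^ 2)) ≤ 1 + tl β Q := by
  classical
  rw [← Finset.sum_filter_add_sum_filter_not Y fun y : ℤ => |2 * (y : ℝ) - m| < Q]
  refine add_le_add ?_ ?_
  · have h1 : (Y.filter fun y : ℤ => |2 * (y : ℝ) - m| < Q).card ≤ 1 := by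
      refine Finset.card_le_one.2 fun y hy y' hy' => ?_
      obtain ⟨a1, a2⟩ := Finset.mem_filter.1 hy
      obtain ⟨a3, a4⟩ := Finset.mem_filter.1 hy'
      rw [abs_lt] at a2 a4
      have a5 : |(y : ℝ) - y'| < Q := by
        rw [abs_lt]
        constructor <;> linarith [a2.1, a2.2, a4.1, a4.2]
      exact sub_eq_zero.1 (Int.eq_zero_of_abs_lt_dvd (hY y a1 y' a3) (by exact_mod_cast a5))
    refine (Finset.sum_le_card_nsmul _ _ 1 fun y _ => exp_le_one_iff.2 ?_).trans ?_
    · exact neg_nonpos.2 (by positivity)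
    · rw [nsmul_eq_mul, mul_one]
      exact_mod_cast h1
  · refine le_trans (Finset.sum_le_sum (g := fun y : ℤ => exp (-(β * (Q : ℝ) ^ 2 / 8))
      * exp (-(β / 2) * ((y : ℝ) - m / 2) ^ 2)) fun y hy => ?_) ?_
    · have a1 := not_lt.1 (Finset.mem_filter.1 hy).2
      have a2 : (Q : ℝ) ^ 2 ≤ (2 * (y : ℝ) - m) ^ 2 := by
        rw [← sq_abs (2 * (y : ℝ) - m)]
        gcongr
      rw [← exp_add]
      refine exp_le_exp.2 ?_
      nlinarith [mul_le_mul_of_nonneg_left a2 hβ.le]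
    · rw [← Finset.mul_sum]
      exact mul_le_mul_of_nonneg_left (gauss_sum (by positivity) _ _) (exp_pos _).le

lemma step2 (A : ℤ) {q : ℕ} (hq : 0 < q) {α κ : ℤ} (hα : α ≠ 0) (hακ : α ^ 2 ≤ κ ^ 2) {Q : ℕ}
    (U : Finset (ℤ × ℤ)) (hU : ∀ s ∈ U, s.1 ∈ Ico A (A + q))
    (hQ : ∀ s ∈ U, ∀ s' ∈ U, (Q : ℤ) ∣ (α * s.1 - s.2) - (α * s'.1 - s'.2)) :
    ∑ s ∈ U, exp (b2 q κ * (cc A q s.1 ^ 2 - cc A q s.2 ^ 2)
      + b2 q κ / 4 * (α * cc A q s.1 - cc A q s.2) ^ 2) ≤ q * (1 + tl (b2 q κ) Q) := by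
  classical
  have hκ : κ ≠ 0 := by
    rintro rfl
    have := sq_pos_of_ne_zero hα
    omega
  have hb := b2_pos hq hκ
  set β := b2 q κ with hβ
  have a1 : (1 : ℝ) ≤ α ^ 2 := by
    have := sq_pos_of_ne_zero hα
    exact_mod_cast (by omega : 1 ≤ α ^ 2)
  have a2 : (α : ℝ) ^ 2 ≤ κ ^ 2 := by exact_mod_cast hακ
  set m : ℝ := (2 * A + q - 1) * (α - 1) with hm
  set j : ℤ × ℤ → ℤ × ℤ := fun s => (α * s.1 - s.2, s.1) with hj
  set Ψ : ℤ × ℤ → ℝ := fun p => exp (-(3 / 4 * β * (2 * (p.1 : ℝ) - m) ^ 2))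
    * exp (2 * β * α * (2 * (p.1 : ℝ) - m) * cc A q p.2) with hΨ
  have h1 : ∀ s ∈ U, exp (β * (cc A q s.1 ^ 2 - cc A q s.2 ^ 2)
      + β / 4 * (α * cc A q s.1 - cc A q s.2) ^ 2) ≤ Ψ (j s) := by
    intro s _
    have e : 2 * (((α * s.1 - s.2 : ℤ)) : ℝ) - m = α * cc A q s.1 - cc A q s.2 := by
      simp only [cc, hm]
      push_cast
      ring
    simp only [hΨ, hj]
    rw [e, ← exp_add]
    refine exp_le_exp.2 ?_
    nlinarith [mul_nonneg (mul_nonneg hb.le (sub_nonneg.2 a1)) (sq_nonneg (cc A q s.1))]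
  refine (Finset.sum_le_sum h1).trans ?_
  rw [← Finset.sum_image (g := j) (f := Ψ) (by
    intro s _ s' _ e
    simp only [hj, Prod.mk.injEq] at e
    obtain ⟨e1, e2⟩ := e
    rw [e2] at e1
    exact Prod.ext e2 (by linarith))]
  have hsub : U.image j ⊆ (U.image fun s => α * s.1 - s.2) ×ˢ Ico A (A + q) := by
    intro p hp
    obtain ⟨s, hs, rfl⟩ := Finset.mem_image.1 hp
    exact Finset.mem_product.2 ⟨Finset.mem_image_of_mem _ hs, hU s hs⟩
  refine (Finset.sum_le_sum_of_subset_of_nonneg hsub fun _ _ _ => by positivity).trans ?_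
  simp only [Finset.sum_product, hΨ, ← Finset.mul_sum]
  have h2 : ∀ z : ℝ, exp (-(3 / 4 * β * z ^ 2))
      * ∑ b ∈ Ico A (A + q), exp (2 * β * α * z * cc A q b) ≤ q * exp (-(β / 4 * z ^ 2)) := by
    intro z
    refine (mul_le_mul_of_nonneg_left (subgauss A q _) (exp_pos _).le).trans ?_
    rw [mul_left_comm, ← exp_add]
    refine mul_le_mul_of_nonneg_left (exp_le_exp.2 ?_) (Nat.cast_nonneg _)
    have e : β * κ ^ 2 * q ^ 2 = 3 / 4 := by
      have : (0 : ℝ) < q := by exact_mod_cast hq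
      have : (κ : ℝ) ≠ 0 := by exact_mod_cast hκ
      rw [hβ, b2]
      field_simp
    have a3 : β * α ^ 2 * q ^ 2 ≤ 3 / 4 := by
      rw [← e]
      gcongr
    have a4 : 0 ≤ β * z ^ 2 := by positivity
    nlinarith [mul_le_mul_of_nonneg_left a3 a4]
  refine (Finset.sum_le_sum fun y _ => h2 _).trans ?_
  rw [← Finset.mul_sum]
  refine mul_le_mul_of_nonneg_left (cong_sum hb _ fun y hy y' hy' => ?_) (Nat.cast_nonneg _)
  obtain ⟨s, hs, rfl⟩ := Finset.mem_image.1 hy
  obtain ⟨s', hs', rfl⟩ := Finset.mem_image.1 hy'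
  exact hQ s hs s' hs'

lemma card_many2 {A κ α γ : ℤ} {q n d e Q : ℕ} {δ : ℝ} (hq : 0 < q) (hQ : 0 < Q) (hκ : κ ≠ 0)
    (hαγ : α * γ = κ) (hn0 : 0 < n) (hn : d + e = n) (B : Finset ℤ[X])
    (hB : ∀ f ∈ B, Adm A q κ n f ∧ ∃ g h, GF α γ d e g h ∧ g * h = f ∧
      δ * n ≤ ∑ t ∈ range (n - 1), (α * cc A q ((reflect n f).coeff (t + 1))
        - cc A q ((reflect e h * g).coeff (t + 1))) ^ 2) :
    (B.card : ℝ) ≤ Q ^ (d + 1) * (q * (1 + tl (b2 q κ) Q)) ^ (n - 1)
      * exp (b2 q κ * (cc A q κ ^ 2 + cc A q 1 ^ 2) - b2 q κ / 4 * (δ * n)) := by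
  have : NeZero Q := ⟨hQ.ne'⟩
  have hb := b2_pos hq hκ
  have hα : α ≠ 0 := left_ne_zero_of_mul (hαγ ▸ hκ)
  have hγ : γ ≠ 0 := right_ne_zero_of_mul (hαγ ▸ hκ)
  have hακ : α ^ 2 ≤ κ ^ 2 := by
    have := sq_pos_of_ne_zero hγ
    rw [← hαγ, mul_pow]
    exact le_mul_of_one_le_right (sq_nonneg _) (by omega)
  have hA := fun f hf => (hB f hf).1
  have hC := fun f hf => (hB f hf).2
  choose! g h hF hgh h1 using hC
  subst hn
  set φ := Int.castRingHom (ZMod Q) with hφ
  have hv0 : ∀ f ∈ B, (reflect e (h f) * g f).coeff 0 = α := fun f hf => by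
    rw [mul_coeff_zero, refl0 (hF f hf).mh (hF f hf).dh, (hF f hf).g0, one_mul]
  have hr : ∀ f ∈ B, reflect (d + e) f = reflect d (g f) * reflect e (h f) := fun f hf => by
    rw [← (hF f hf).f_refl, hgh f hf]
  have htl : 0 ≤ tl (b2 q κ) Q := by
    rw [tl]
    positivity
  have key := wb_card (Λ := Fin (d + 1) → ZMod Q) B
    (fun f t => ((reflect (d + e) f).coeff (t + 1), (reflect e (h f) * g f).coeff (t + 1)))
    (fun f i => ((g f).coeff i.1 : ZMod Q))
    (fun _ s => b2 q κ * (cc A q s.1 ^ 2 - cc A q s.2 ^ 2)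
      + b2 q κ / 4 * (α * cc A q s.1 - cc A q s.2) ^ 2) (T := q * (1 + tl (b2 q κ) Q))
    (R := -(b2 q κ * (cc A q κ ^ 2 + cc A q 1 ^ 2) - b2 q κ / 4 * (δ * (d + e : ℕ))))
    (by positivity) (d + e - 1) (by
      intro a ha b hb _ hx
      refine (hA a ha).ext (hA b hb) fun i i1 i2 => ?_
      have := (Prod.mk.inj (hx (d + e - i - 1) (by omega))).1
      rwa [coeff_reflect, coeff_reflect, revAt_le (by omega),
        show d + e - (d + e - i - 1 + 1) = i by omega] at this) (by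
      intro t ht a ha U hU
      have hc : ∀ s ∈ U, ((α * s.1 - s.2 : ℤ) : ZMod Q)
          = ((α * (reflect (d + e) a).coeff (t + 1)
            - (reflect e (h a) * g a).coeff (t + 1) : ℤ) : ZMod Q) := by
        intro s hs
        obtain ⟨b, hb, hl, hx, rfl⟩ := hU s hs
        have hg : (g b).map φ = (g a).map φ := by
          ext i
          rw [coeff_map, coeff_map]
          by_cases hi : i < d + 1
          · exact congrFun hl ⟨i, hi⟩
          · rw [coeff_eq_zero_of_natDegree_lt (by rw [(hF b hb).dg]; omega),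
              coeff_eq_zero_of_natDegree_lt (by rw [(hF a ha).dg]; omega)]
        have hg' : (reflect d (g b)).map φ = (reflect d (g a)).map φ := by
          rw [← reflect_map, ← reflect_map, hg]
        have p1 := mapq_dvd Q (dvd_of_coeffs ((refl0 (hA b hb).mo (hA b hb).dg).trans
          (refl0 (hA a ha).mo (hA a ha).dg).symm) fun r hr => (Prod.mk.inj (hx r hr)).1)
        have p3 := mapq_dvd Q (dvd_of_coeffs ((hv0 b hb).trans (hv0 a ha).symm)
          fun r hr => (Prod.mk.inj (hx r hr)).2)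
        have e1 : ((reflect (d + e) b).map φ - (reflect (d + e) a).map φ) * (g a).map φ
            = ((reflect e (h b) * g b).map φ - (reflect e (h a) * g a).map φ)
              * (reflect d (g a)).map φ := by
          rw [hr a ha, hr b hb]
          simp only [Polynomial.map_mul, hg, hg']
          ring
        have e2 := congrArg (fun p => p.coeff (t + 1)) e1
        simp only [coeff_mul_of_dvd p1, coeff_mul_of_dvd p3, coeff_map, (hF a ha).g0,
          refl0 (hF a ha).mg (hF a ha).dg, map_one, mul_one, coeff_sub, hφ, eq_intCast] at e2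
        push_cast
        linear_combination e2
      refine step2 A hq hα hακ U (fun s hs => ?_) fun s hs s' hs' => ?_
      · obtain ⟨b, hb, -, -, rfl⟩ := hU s hs
        exact (hA b hb).rmem (by omega) (by omega)
      · exact (ZMod.intCast_eq_intCast_iff_dvd_sub _ _ _).1 ((hc s' hs').trans (hc s hs).symm)) (by
      intro f hf
      have F := hF f hf
      have a1 := h1 f hf
      have a2 := F.symm.l2 A q
      rw [add_comm e d, mul_comm (h f) (g f), hgh f hf] at a2
      have a3 : ∑ i ∈ range (d + e + 1), cc A q ((reflect (d + e) f).coeff i) ^ 2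
          = ∑ i ∈ range (d + e + 1), cc A q (f.coeff i) ^ 2 := by
        refine l2_eq A q (natDegree_reflect_le' (hA f hf).dg.le) (hA f hf).dg.le ?_
          (eval_one_reflect (hA f hf).dg.le)
        rw [reflect_reflect, mul_comm]
      rw [← a3, sum_ends _ hn0, sum_ends _ hn0, refl0 (hA f hf).mo (hA f hf).dg,
        coeff_reflect (d + e) f (d + e), revAt_le le_rfl, Nat.sub_self, (hA f hf).c0] at a2
      rw [Finset.sum_add_distrib, ← Finset.mul_sum, ← Finset.mul_sum, Finset.sum_sub_distrib]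
      have a4 := mul_le_mul_of_nonneg_left a1 (show 0 ≤ b2 q κ / 4 by positivity)
      have a5 : -(cc A q κ ^ 2 + cc A q 1 ^ 2)
          ≤ ∑ t ∈ range (d + e - 1), cc A q ((reflect (d + e) f).coeff (t + 1)) ^ 2
            - ∑ t ∈ range (d + e - 1), cc A q ((reflect e (h f) * g f).coeff (t + 1)) ^ 2 := by
        linarith [sq_nonneg (cc A q ((reflect e (h f) * g f).coeff 0)),
          sq_nonneg (cc A q ((reflect e (h f) * g f).coeff (d + e)))]
      nlinarith [mul_le_mul_of_nonneg_left a5 hb.le])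
  rw [Fintype.card_fun, ZMod.card, Fintype.card_fin, neg_neg] at key
  exact_mod_cast key

lemma low_card {ι : Type*} {A : ℤ} {q : ℕ} (hq : 0 < q) (B : Finset ι) (L : ℕ) (p : ι → ℤ[X])
    (c : ℤ) (h0 : ∀ a ∈ B, (p a).coeff 0 = c)
    (hm : ∀ a ∈ B, ∀ t < L, (p a).coeff (t + 1) ∈ Ico A (A + q))
    (hinj : ∀ a ∈ B, ∀ b ∈ B, X ^ (L + 1) ∣ p a - p b → a = b) : B.card ≤ q ^ L := by
  have : NeZero q := ⟨hq.ne'⟩
  have := Finset.card_le_card_of_injOn (s := B) (t := (univ : Finset (Fin L → ZMod q)))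
    (fun a t => ((p a).coeff (t.1 + 1) : ZMod q)) (fun _ _ => Finset.mem_univ _) (by
      intro a ha b hb h
      exact hinj a ha b hb (dvd_of_coeffs ((h0 a ha).trans (h0 b hb).symm) fun r hr =>
        eq_of_cast (hm a ha r hr) (hm b hb r hr) (congrFun h ⟨r, hr⟩)))
  simpa using this

lemma half_card {A κ : ℤ} {q n : ℕ} (hq : 0 < q) (hn : 2 < n) (B : Finset ℤ[X])
    (hA : ∀ f ∈ B, Adm A q κ n f)
    (h : (∀ a ∈ B, ∀ b ∈ B, ∃ P R : ℤ[X], (a - b) * P + reflect n (a - b) * R = 0 ∧ ¬ X ∣ P) ∨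
      ∀ a ∈ B, ∀ b ∈ B, ∃ P R : ℤ[X], (a - b) * P + reflect n (a - b) * R = 0 ∧ ¬ X ∣ R) :
    B.card ≤ q ^ (n / 2) := by
  have hdeg : ∀ a ∈ B, ∀ b ∈ B, (a - b).natDegree ≤ n := fun a ha b hb =>
    (natDegree_sub_le _ _).trans (max_le (hA a ha).dg.le (hA b hb).dg.le)
  rcases h with h | h
  · refine low_card hq B _ (fun a => reflect n a) 1 (fun a ha => refl0 (hA a ha).mo (hA a ha).dg)
      (fun a ha t ht => (hA a ha).rmem (by omega) (by omega)) fun a ha b hb hd => ?_
    obtain ⟨P, R, e, hP⟩ := h a ha b hb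
    rw [← reflect_sub] at hd
    refine sub_eq_zero.1 (eq_zero_of_halves (hdeg a ha b hb) ?_ hd)
    refine prime_X.pow_dvd_of_dvd_mul_left _ hP ?_
    have : P * (a - b) = -(reflect n (a - b) * R) := by linear_combination e
    rw [this]
    exact (hd.mul_right _).neg_right
  · refine low_card hq B _ (fun a => a) κ (fun a ha => (hA a ha).c0)
      (fun a ha t ht => (hA a ha).mem _ (by omega) (by omega)) fun a ha b hb hd => ?_
    obtain ⟨P, R, e, hP⟩ := h a ha b hb
    refine sub_eq_zero.1 (eq_zero_of_halves (hdeg a ha b hb) hd ?_)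
    refine prime_X.pow_dvd_of_dvd_mul_left _ hP ?_
    have : R * reflect n (a - b) = -((a - b) * P) := by linear_combination e
    rw [this]
    exact (hd.mul_right _).neg_right

lemma fixed_card {A κ α : ℤ} {q n : ℕ} (hq : 0 < q) (hn : 2 < n) (hα : α ≠ 0) (K : ℤ[X])
    (hK0 : K.coeff 0 = 0) (hK : α ^ 2 = 1 → K ≠ 0) (B : Finset ℤ[X])
    (hA : ∀ f ∈ B, Adm A q κ n f)
    (h : ∀ f ∈ B, (C α * reflect n f + K) * (C α * f + reflect n K) = reflect n f * f) :
    B.card ≤ q ^ (n / 2) := by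
  classical
  have key : ∀ a ∈ B, ∀ b ∈ B, (a - b) * ((C α ^ 2 - 1) * reflect n a + C α * K)
      + reflect n (a - b) * ((C α ^ 2 - 1) * b + C α * reflect n K) = 0 := by
    intro a ha b hb
    rw [reflect_sub]
    linear_combination h a ha - h b hb
  refine half_card hq hn B hA ?_
  by_cases h1 : α ^ 2 = 1
  swap
  · refine Or.inl fun a ha b hb => ⟨_, _, key a ha b hb, ?_⟩
    rw [X_dvd_iff, coeff_add, mul_coeff_zero, mul_coeff_zero, hK0, refl0 (hA a ha).mo (hA a ha).dg,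
      ← C_pow, coeff_sub, coeff_C_zero, coeff_one_zero, mul_zero, add_zero, mul_one, sub_eq_zero]
    exact h1
  have hε := hK h1
  have hC : (C α ^ 2 - 1 : ℤ[X]) = 0 := by rw [← C_pow, h1, C_1, sub_self]
  have hex : ∃ i : ℕ, ¬ (X ^ (i + 1) ∣ K ∧ X ^ (i + 1) ∣ reflect n K) :=
    ⟨K.natDegree, fun h => by
      have := natDegree_le_of_dvd h.1 hε
      rw [natDegree_X_pow] at this
      omega⟩
  have hi : X ^ Nat.find hex ∣ K ∧ X ^ Nat.find hex ∣ reflect n K := by
    rcases hD : Nat.find hex with _ | j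
    · simp
    · exact not_not.1 (Nat.find_min hex (m := j) (by omega))
  have hi2 := Nat.find_spec hex
  generalize Nat.find hex = i at hi hi2
  obtain ⟨⟨p, hp⟩, ⟨r, hr⟩⟩ := hi
  have key2 : ∀ a ∈ B, ∀ b ∈ B, (a - b) * p + reflect n (a - b) * r = 0 := by
    intro a ha b hb
    have e := key a ha b hb
    rw [hC, hr] at e
    have : (C α * X ^ i) * ((a - b) * p + reflect n (a - b) * r) = 0 := by
      linear_combination e - (a - b) * C α * hp
    exact (mul_eq_zero.1 this).resolve_left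
      (mul_ne_zero (C_ne_zero.2 hα) (pow_ne_zero _ X_ne_zero))
  by_cases hX : X ∣ p
  · exact Or.inr fun a ha b hb => ⟨_, _, key2 a ha b hb, fun h => hi2
      ⟨by rw [hp, pow_succ]; exact mul_dvd_mul_left _ hX,
        by rw [hr, pow_succ]; exact mul_dvd_mul_left _ h⟩⟩
  · exact Or.inl fun a ha b hb => ⟨_, _, key2 a ha b hb, hX⟩

lemma few_const : exp (6 / 12) * √(π / 6) ≤ 6 / 5 := by
  have e1 : √(π / 6) ≤ 7237 / 10000 := by
    rw [sqrt_le_left (by norm_num)]
    linarith [pi_lt_d4]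
  have e3 : exp (6 / 12) ≤ 33 / 20 := by
    refine le_of_pow_le_pow_left₀ (n := 2) (by norm_num) (by norm_num) ?_
    rw [← exp_nat_mul, show ((2 : ℕ) : ℝ) * (6 / 12) = 1 by norm_num]
    linarith [exp_one_lt_d9]
  calc _ ≤ (33 / 20 : ℝ) * (7237 / 10000) := mul_le_mul e3 e1 (sqrt_nonneg _) (by norm_num)
    _ ≤ _ := by norm_num

lemma card_few2 {A κ α γ : ℤ} {q n d e : ℕ} (hq : 0 < q) (hκ : κ ≠ 0)
    (hαγ : α * γ = κ) (hn0 : 2 < n) (hn : d + e = n) (B : Finset ℤ[X])
    (hB : ∀ f ∈ B, Adm A q κ n f ∧ ∃ g h, GF α γ d e g h ∧ g * h = f ∧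
      ¬ (α ^ 2 = 1 ∧ reflect d g = C α * g) ∧
      ∑ t ∈ range (n - 1), (α * cc A q ((reflect n f).coeff (t + 1))
        - cc A q ((reflect e h * g).coeff (t + 1))) ^ 2 ≤ 1 / 20 * n) :
    (B.card : ℝ) ≤ q ^ (n / 2) * (13 / 10) ^ n := by
  classical
  have hα : α ≠ 0 := left_ne_zero_of_mul (hαγ ▸ hκ)
  have hA := fun f hf => (hB f hf).1
  have hC := fun f hf => (hB f hf).2
  choose! g h hF hgh h0 h1 using hC
  subst hn
  set K : ℤ[X] → ℤ[X] := fun f => reflect e (h f) * g f - C α * reflect (d + e) f with hK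
  have hK0 : ∀ f ∈ B, (K f).coeff 0 = 0 := fun f hf => by
    simp only [hK]
    rw [coeff_sub, mul_coeff_zero, refl0 (hF f hf).mh (hF f hf).dh, (hF f hf).g0, coeff_C_mul,
      refl0 (hA f hf).mo (hA f hf).dg]
    ring
  have hw : ∀ f ∈ B, reflect (d + e) (reflect e (h f) * g f) = reflect d (g f) * h f :=
    fun f hf => by rw [add_comm, (hF f hf).symm.w_refl, mul_comm]
  have hr : ∀ f ∈ B, reflect (d + e) f = reflect d (g f) * reflect e (h f) := fun f hf => by
    rw [← (hF f hf).f_refl, hgh f hf]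
  have hKn : ∀ f ∈ B, (K f).coeff (d + e) = γ - α * κ := fun f hf => by
    have a1 := congrArg (fun p => p.coeff 0) (hw f hf)
    simp only [coeff_reflect, revAt_le (Nat.zero_le _), Nat.sub_zero] at a1
    simp only [hK]
    rw [coeff_sub, a1, mul_coeff_zero, refl0 (hF f hf).mg (hF f hf).dg, (hF f hf).h0, coeff_C_mul,
      coeff_reflect, revAt_le le_rfl, Nat.sub_self, (hA f hf).c0, one_mul]
  have hKd : ∀ f ∈ B, (K f).natDegree ≤ d + e := fun f hf =>
    (natDegree_sub_le _ _).trans (max_le (add_comm d e ▸ (hF f hf).symm.w_deg)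
      ((natDegree_C_mul_le _ _).trans (natDegree_reflect_le' (hA f hf).dg.le)))
  have c1 : B.card ≤ q ^ ((d + e) / 2) * (B.image K).card := by
    refine Finset.card_le_mul_card_image B _ fun K0 hK0' => ?_
    obtain ⟨a, ha, rfl⟩ := Finset.mem_image.1 hK0'
    refine fixed_card (A := A) (κ := κ) hq hn0 hα (K a) (hK0 a ha) (fun h2 h3 => h0 a ha ⟨h2, ?_⟩)
      _ (fun f hf => hA f (Finset.mem_filter.1 hf).1) fun f hf => ?_
    · have a1 := congrArg (reflect (d + e)) (sub_eq_zero.1 h3)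
      rw [hw a ha, reflect_C_mul, reflect_reflect] at a1
      refine mul_right_cancel₀ (hF a ha).mh.ne_zero (a1.trans ?_)
      rw [mul_assoc, hgh a ha]
    · obtain ⟨b1, b2⟩ := Finset.mem_filter.1 hf
      rw [← b2]
      simp only [hK]
      rw [reflect_sub, hw f b1, reflect_C_mul, reflect_reflect, add_sub_cancel, add_sub_cancel,
        hr f b1]
      linear_combination (reflect d (g f) * reflect e (h f)) * hgh f b1
  have c2 := wb_card (Λ := Unit) (B.image K) (fun p t => p.coeff (t + 1)) (fun _ => ())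
    (fun _ s => -6 * ((s : ℝ) - (2 * A + q - 1) * (1 - α) / 2) ^ 2) (T := 6 / 5)
    (R := -(3 / 40 * (d + e : ℕ))) (by norm_num) (d + e - 1) (by
      intro p hp p' hp' _ hx
      obtain ⟨a, ha, rfl⟩ := Finset.mem_image.1 hp
      obtain ⟨b, hb, rfl⟩ := Finset.mem_image.1 hp'
      ext i
      rcases i with _ | i
      · rw [hK0 a ha, hK0 b hb]
      rcases lt_trichotomy (i + 1) (d + e) with h2 | h2 | h2
      · exact hx i (by omega)
      · rw [h2, hKn a ha, hKn b hb]
      · rw [coeff_eq_zero_of_natDegree_lt ((hKd a ha).trans_lt h2),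
          coeff_eq_zero_of_natDegree_lt ((hKd b hb).trans_lt h2)])
    (fun t _ p _ U _ => (gauss_sum (by norm_num) _ U).trans few_const) (by
      intro p hp
      obtain ⟨a, ha, rfl⟩ := Finset.mem_image.1 hp
      have a1 := h1 a ha
      have e : ∀ t, -6 * ((((K a).coeff (t + 1) : ℤ) : ℝ) - (2 * A + q - 1) * (1 - α) / 2) ^ 2
          = -(3 / 2) * (α * cc A q ((reflect (d + e) a).coeff (t + 1))
            - cc A q ((reflect e (h a) * g a).coeff (t + 1))) ^ 2 := by
        intro t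
        simp only [hK, coeff_sub, coeff_C_mul, cc]
        push_cast
        ring
      simp only [e, ← Finset.mul_sum]
      linarith)
  have c3 : ((B.image K).card : ℝ) ≤ (13 / 10) ^ (d + e) := by
    refine c2.trans ?_
    rw [Fintype.card_unique, Nat.cast_one, one_mul, neg_neg, mul_comm (3 / 40 : ℝ), exp_nat_mul]
    have a1 : exp (3 / 40) ≤ 13 / 12 := by
      have a2 := add_one_le_exp (-(3 / 40))
      have a3 : exp (3 / 40) * exp (-(3 / 40)) = 1 := by rw [← exp_add, add_neg_cancel, exp_zero]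
      nlinarith [exp_pos (3 / 40)]
    calc (6 / 5 : ℝ) ^ (d + e - 1) * exp (3 / 40) ^ (d + e)
        ≤ (6 / 5) ^ (d + e) * (13 / 12) ^ (d + e) := by
          gcongr
          · norm_num
          · omega
      _ = _ := by
          rw [← mul_pow]
          norm_num
  have c4 : (B.card : ℝ) ≤ q ^ ((d + e) / 2) * (B.image K).card := by exact_mod_cast c1
  exact c4.trans (by gcongr)

lemma card_R3 {A κ α γ : ℤ} {q n d e : ℕ} (hq : 2 ≤ q) (he : 0 < e) (hn : d + e = n)
    (B : Finset ℤ[X])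
    (hB : ∀ f ∈ B, Adm A q κ n f ∧ ∃ g h, GF α γ d e g h ∧ g * h = f ∧ reflect d g = C α * g) :
    (B.card : ℝ) ≤ q ^ (n - 1) * (3 / 4) ^ d := by
  have : NeZero q := ⟨by omega⟩
  have hA := fun f hf => (hB f hf).1
  have hC := fun f hf => (hB f hf).2
  choose! g h hF hgh h0 using hC
  set φ := Int.castRingHom (ZMod q) with hφ
  have c1 := Finset.card_le_card_of_injOn (s := B)
    (t := (univ : Finset ((Fin (d / 2) → ZMod q) × (Fin (e - 1) → ZMod q))))
    (fun f => (fun i => ((g f).coeff (i.1 + 1) : ZMod q), fun i => ((h f).coeff (i.1 + 1) : ZMod q)))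
    (fun _ _ => Finset.mem_univ _) (by
      intro a ha b hb hl
      obtain ⟨l1, l2⟩ := Prod.mk.inj hl
      have F := hF a ha
      have F' := hF b hb
      have G1 : X ^ (d / 2 + 1) ∣ (g a).map φ - (g b).map φ :=
        dvd_of_coeffs (by rw [coeff_map, coeff_map, F.g0, F'.g0]) fun r hr => by
          rw [coeff_map, coeff_map]
          exact congrFun l1 ⟨r, hr⟩
      have eg : (g a).map φ = (g b).map φ := by
        refine low_high (m := d / 2 + 1) (natDegree_map_le.trans F.dg.le)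
          (natDegree_map_le.trans F'.dg.le) G1 ?_ fun i _ _ => by omega
        rw [reflect_map, reflect_map, h0 a ha, h0 b hb, Polynomial.map_mul, Polynomial.map_mul,
          ← mul_sub]
        exact G1.mul_left _
      have eh : (h a).map φ = (h b).map φ := by
        refine map_eq_of_low q F.mh F'.mh F.dh F'.dh ?_
        rw [← Nat.sub_add_cancel he]
        refine dvd_of_coeffs (by rw [coeff_map, coeff_map, F.h0, F'.h0]) fun r hr => ?_
        rw [coeff_map, coeff_map]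
        exact congrFun l2 ⟨r, hr⟩
      refine (hA a ha).ext_map (hA b hb) ?_
      rw [← hgh a ha, ← hgh b hb, Polynomial.map_mul, Polynomial.map_mul, eg, eh])
  rw [Finset.card_univ, Fintype.card_prod, Fintype.card_fun, Fintype.card_fun, ZMod.card,
    Fintype.card_fin, Fintype.card_fin] at c1
  have c2 : (B.card : ℝ) ≤ q ^ (d / 2) * q ^ (e - 1) := by exact_mod_cast c1
  refine c2.trans ?_
  have hq' : (2 : ℝ) ≤ q := by exact_mod_cast hq
  have c3 : (1 : ℝ) ≤ q ^ (d - d / 2) * (3 / 4) ^ d := by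
    calc (1 : ℝ) ≤ (2 * (3 / 4) ^ 2) ^ (d - d / 2) := one_le_pow₀ (by norm_num)
      _ = 2 ^ (d - d / 2) * (3 / 4) ^ (2 * (d - d / 2)) := by rw [mul_pow, pow_mul]
      _ ≤ _ := mul_le_mul (pow_le_pow_left₀ (by norm_num) hq' _)
          (pow_le_pow_of_le_one (by norm_num) (by norm_num) (by omega)) (by positivity)
          (by positivity)
  rw [show n - 1 = d / 2 + (e - 1) + (d - d / 2) by omega, pow_add, pow_add, mul_assoc _ _ (_ ^ d)]
  exact le_mul_of_one_le_right (by positivity) c3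

end Pool.Agent.P.MP_8cce2a_nt.G
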