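import Pool.Agent.P.MP_8cce2a_nt.GLarge
import Pool.Agent.P.MP_8cce2a_nt.GSmall
import Pool.Agent.P.MP_8cce2a_nt.GRoot

/-!
Random monic polynomials with coefficients in an interval of integers are irreducible
with probability tending to one.
-/

namespace Pool.Agent.P.MP_8cce2a_nt.G

open Polynomial Finset Real Filter Topology

lemma cover_sum {ι : Type*} (B : Finset ℤ[X]) (I : Finset ι) (P : ι → ℤ[X] → Prop)
    (h : ∀ f ∈ B, ∃ i ∈ I, P i f) (x : ι → ℝ)
    (hx : ∀ i ∈ I, ∀ B' : Finset ℤ[X], (∀ f ∈ B', P i f) → (B'.card : ℝ) ≤ x i) :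
    (B.card : ℝ) ≤ ∑ i ∈ I, x i := by
  classical
  have hsub : B ⊆ I.biUnion fun i => B.filter (P i) := fun f hf => by
    obtain ⟨i, hi, hp⟩ := h f hf
    exact Finset.mem_biUnion.2 ⟨i, hi, Finset.mem_filter.2 ⟨hf, hp⟩⟩
  have c1 := (Finset.card_le_card hsub).trans Finset.card_biUnion_le
  have c2 : (B.card : ℝ) ≤ ∑ i ∈ I, ((B.filter (P i)).card : ℝ) := by exact_mod_cast c1
  exact c2.trans (Finset.sum_le_sum fun i hi => hx i hi _ fun f hf => (Finset.mem_filter.1 hf).2)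

lemma cover_or (B : Finset ℤ[X]) (P1 P2 : ℤ[X] → Prop) (h : ∀ f ∈ B, P1 f ∨ P2 f) {x y : ℝ}
    (h1 : ∀ B' : Finset ℤ[X], (∀ f ∈ B', P1 f) → (B'.card : ℝ) ≤ x)
    (h2 : ∀ B' : Finset ℤ[X], (∀ f ∈ B', P2 f) → (B'.card : ℝ) ≤ y) :
    (B.card : ℝ) ≤ x + y := by
  classical
  rw [← Finset.card_filter_add_card_filter_not (s := B) P1]
  push_cast
  exact add_le_add (h1 _ fun f hf => (Finset.mem_filter.1 hf).2) (h2 _ fun f hf =>
    (h f (Finset.mem_filter.1 hf).1).resolve_left (Finset.mem_filter.1 hf).2)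

lemma exists_Q {β c : ℝ} (hβ : 0 < β) (hc : 0 < c) : ∃ Q : ℕ, 0 < Q ∧ tl β Q ≤ c := by
  have h1 : Tendsto (fun Q : ℕ => β * (Q : ℝ) ^ 2 / 8) atTop atTop :=
    (((tendsto_pow_atTop two_ne_zero).comp tendsto_natCast_atTop_atTop).const_mul_atTop
      hβ).atTop_div_const (by norm_num)
  have h2 := (tendsto_exp_neg_atTop_nhds_zero.comp h1).mul_const
    (exp (β / 2 / 12) * √(π / (β / 2)))
  rw [zero_mul] at h2
  obtain ⟨Q, h3, h4⟩ := ((h2.eventually (ge_mem_nhds hc)).and (eventually_gt_atTop 0)).exists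
  exact ⟨Q, h4, h3⟩

/-- small degrees -/
lemma small_class {A κ : ℤ} {q : ℕ} (hq : 2 ≤ q) (hκ : κ ≠ 0) :
    ∃ (K : ℕ) (c C0 : ℝ), 0 < K ∧ 0 < c ∧ 0 ≤ C0 ∧ ∀ (n d e : ℕ) (α γ : ℤ), 2 < n → α * γ = κ →
      d + e = n → d ≤ 2 * (n / K) → ∀ B : Finset ℤ[X],
      (∀ f ∈ B, Adm A q κ n f ∧ ∃ g h, GF α γ d e g h ∧ g * h = f ∧
        ¬ (α ^ 2 = 1 ∧ reflect d g = C α * g)) →
      (B.card : ℝ) ≤ q ^ (n - 1) * (C0 * exp (-(c * n))) := by
  have hq0 : 0 < q := by omega
  have hq' : (2 : ℝ) ≤ q := by exact_mod_cast hq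
  have hb := b2_pos hq0 hκ
  set β := b2 q κ with hβ
  obtain ⟨Q, hQ, htl⟩ := exists_Q hb (c := β / 320) (by positivity)
  have hQ' : (0 : ℝ) < Q := by exact_mod_cast hQ
  have hlog : 0 ≤ log Q := log_natCast_nonneg Q
  obtain ⟨K, hK⟩ := exists_nat_gt (640 * log Q / β)
  have hK0 : (0 : ℝ) < K := lt_of_le_of_lt (by positivity) hK
  refine ⟨K, min (β / 160) (1 / 20), Q * exp (β * (cc A q κ ^ 2 + cc A q 1 ^ 2)) + q,
    by exact_mod_cast hK0, lt_min (by positivity) (by norm_num), by positivity,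
    fun n d e α γ hn hαγ hde hd B hB => ?_⟩
  have n0 : (0 : ℝ) ≤ n := Nat.cast_nonneg n
  rw [add_mul, mul_add]
  refine cover_or B _ _ (fun f hf => ?_)
    (fun B' hB' => (card_many2 (A := A) (δ := 1 / 20) hq0 hQ hκ hαγ (by omega) hde B' hB').trans ?_)
    (fun B' hB' => (card_few2 (A := A) hq0 hκ hαγ hn hde B' hB').trans ?_)
  · obtain ⟨h1, g, h, F, e1, e2⟩ := hB f hf
    rcases le_total (1 / 20 * (n : ℝ)) (∑ t ∈ range (n - 1),
      (α * cc A q ((reflect n f).coeff (t + 1))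
        - cc A q ((reflect e h * g).coeff (t + 1))) ^ 2) with h2 | h2
    · exact Or.inl ⟨h1, g, h, F, e1, h2⟩
    · exact Or.inr ⟨h1, g, h, F, e1, e2, h2⟩
  · have htl0 : 0 ≤ tl β Q := by
      rw [tl]
      positivity
    have a1 : (1 + tl β Q) ^ (n - 1) ≤ exp (β / 320 * n) := by
      calc (1 + tl β Q) ^ (n - 1) ≤ (1 + tl β Q) ^ n :=
            pow_le_pow_right₀ (by linarith) (Nat.sub_le _ _)
        _ ≤ exp (β / 320) ^ n := by
            gcongr
            linarith [add_one_le_exp (β / 320)]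
        _ = _ := by rw [← exp_nat_mul, mul_comm]
    have a2 : (Q : ℝ) ^ d ≤ exp (β / 320 * n) := by
      rw [← exp_log hQ', ← exp_nat_mul]
      refine exp_le_exp.2 ?_
      have b1 : (d : ℝ) * K ≤ 2 * n := by
        have := Nat.div_mul_le_self n K
        have : d * K ≤ 2 * n := by nlinarith
        exact_mod_cast this
      rw [div_lt_iff₀ hb] at hK
      refine le_of_mul_le_mul_right ?_ hK0
      nlinarith [mul_le_mul_of_nonneg_right b1 hlog, mul_le_mul_of_nonneg_right hK.le n0]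
    have a3 : exp (-(β / 160 * n)) ≤ exp (-(min (β / 160) (1 / 20) * n)) :=
      exp_le_exp.2 (neg_le_neg (mul_le_mul_of_nonneg_right (min_le_left _ _) n0))
    rw [mul_pow, pow_succ, sub_eq_add_neg, exp_add, ← hβ]
    set E := exp (β * (cc A q κ ^ 2 + cc A q 1 ^ 2))
    have : 0 ≤ E := (exp_pos _).le
    calc _ ≤ exp (β / 320 * n) * Q * (q ^ (n - 1) * exp (β / 320 * n))
          * (E * exp (-(β / 4 * (1 / 20 * n)))) := by gcongr
      _ = q ^ (n - 1) * (Q * E * (exp (β / 320 * n) * exp (β / 320 * n)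
          * exp (-(β / 4 * (1 / 20 * n))))) := by ring
      _ = q ^ (n - 1) * (Q * E * exp (-(β / 160 * n))) := by
          rw [← exp_add, ← exp_add]
          congr 3
          ring
      _ ≤ _ := by gcongr
  · have a1 : (13 / 10 : ℝ) ^ n ≤ q ^ (n - n / 2) * (19 / 20) ^ n := by
      have : (26 / 19 : ℝ) ^ n ≤ q ^ (n - n / 2) := by
        calc (26 / 19 : ℝ) ^ n ≤ (26 / 19) ^ (2 * (n - n / 2)) :=
              pow_le_pow_right₀ (by norm_num) (by omega)
          _ ≤ _ := by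
              rw [pow_mul]
              exact pow_le_pow_left₀ (by norm_num) (le_trans (by norm_num) hq') _
      calc (13 / 10 : ℝ) ^ n = (26 / 19) ^ n * (19 / 20) ^ n := by
            rw [← mul_pow]
            norm_num
        _ ≤ _ := by gcongr
    have a2 : (19 / 20 : ℝ) ^ n ≤ exp (-(min (β / 160) (1 / 20) * n)) := by
      calc (19 / 20 : ℝ) ^ n ≤ exp (-(1 / 20)) ^ n := by
            gcongr
            linarith [add_one_le_exp (-(1 / 20))]
        _ = exp (-(1 / 20 * n)) := by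
            rw [← exp_nat_mul]
            ring_nf
        _ ≤ _ := exp_le_exp.2 (neg_le_neg (mul_le_mul_of_nonneg_right (min_le_right _ _) n0))
    calc (q : ℝ) ^ (n / 2) * (13 / 10) ^ n
        ≤ q ^ (n / 2) * (q ^ (n - n / 2) * exp (-(min (β / 160) (1 / 20) * n))) := by
          refine mul_le_mul_of_nonneg_left (a1.trans ?_) (by positivity)
          gcongr
      _ = _ := by
          rw [← mul_assoc, ← mul_assoc, ← pow_add, ← pow_succ]
          congr 2
          omega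

/-- large degrees -/
lemma large_class {A κ : ℤ} {q : ℕ} (hq : 2 ≤ q) (hκ : κ ≠ 0) {K : ℕ} (hK : 0 < K) :
    ∃ c C0 : ℝ, 0 < c ∧ 0 ≤ C0 ∧ ∀ (n d e : ℕ) (α γ : ℤ), α * γ = κ →
      d + e = n → 2 * (n / K) < d → d ≤ e → ∀ B : Finset ℤ[X],
      (∀ f ∈ B, Adm A q κ n f ∧ ∃ g h, GF α γ d e g h ∧ g * h = f) →
      (B.card : ℝ) ≤ q ^ (n - 1) * (C0 * exp (-(c * n))) := by
  have hq0 : 0 < q := by omega
  have hq' : (2 : ℝ) ≤ q := by exact_mod_cast hq
  have hK1 : (1 : ℝ) ≤ K := by exact_mod_cast hK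
  set η : ℝ := 1 / (75 * K) with hη
  have η0 : 0 < η := by positivity
  have η1 : η ≤ 1 := by
    rw [hη, div_le_one (by positivity)]
    linarith
  refine ⟨min (η ^ 2 / (16 * q ^ 4)) (1 / (50 * K)),
    4 + exp (b1 q * (s2 q + cc A q κ ^ 2 + cc A q 1 ^ 2)) * exp (1 / 25),
    lt_min (by positivity) (by positivity), by positivity,
    fun n d e α γ hαγ hde hd hde' B hB => ?_⟩
  have n0 : (0 : ℝ) ≤ n := Nat.cast_nonneg n
  set k := n / K with hk
  set c : ℝ := min (η ^ 2 / (16 * q ^ 4)) (1 / (50 * K)) with hc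
  have a0 : (q : ℝ) ^ (n - 1) * exp (-(η ^ 2 / (16 * q ^ 4) * n))
      ≤ q ^ (n - 1) * exp (-(c * n)) := by
    gcongr
    exact min_le_left _ _
  have a1 : (24 / 25 : ℝ) ^ k * exp (b1 q * (4 * η * n)) ≤ exp (1 / 25) * exp (-(c * n)) := by
    have b0 : (24 / 25 : ℝ) ^ k ≤ exp (-(1 / 25)) ^ k := by
      gcongr
      linarith [add_one_le_exp (-(1 / 25))]
    refine (mul_le_mul_of_nonneg_right b0 (exp_pos _).le).trans ?_
    rw [← exp_nat_mul, ← exp_add, ← exp_add]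
    refine exp_le_exp.2 ?_
    have b1' : b1 q ≤ 3 / 8 := by
      rw [b1, div_le_div_iff₀ (by positivity) (by norm_num)]
      nlinarith
    have b2' : (n : ℝ) ≤ K * (k + 1) := by exact_mod_cast (Nat.lt_mul_div_succ n hK).le
    have b3 : (n : ℝ) / K ≤ k + 1 := by rwa [div_le_iff₀ (by positivity), mul_comm]
    have b4 : c * n ≤ 1 / (50 * K) * n := mul_le_mul_of_nonneg_right (min_le_right _ _) n0
    have b5 : b1 q * (4 * η * n) ≤ 3 / 8 * (4 * η * n) := by gcongr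
    have b6 : 3 / 8 * (4 * η * n) = 1 / 50 * (n / K) := by
      rw [hη]
      field_simp
      ring
    have b7 : 1 / (50 * (K : ℝ)) * n = 1 / 50 * (n / K) := by field_simp
    linarith
  have key : (B.card : ℝ) ≤ q ^ (n - 1) * exp (-(c * n)) + (q ^ (n - 1) * exp (-(c * n))
      + (q ^ (n - 1) * exp (-(c * n)) + (q ^ (n - 1) * exp (-(c * n))
      + q ^ (n - 1) * (exp (b1 q * (s2 q + cc A q κ ^ 2 + cc A q 1 ^ 2))
        * (exp (1 / 25) * exp (-(c * n))))))) := by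
    refine cover_or B _ _ (fun f hf => ?_)
      (fun B' hB' => (card_E1 (A := A) (κ := κ) hq0 η0.le η1 B' hB').trans a0)
      fun B1 h1 => cover_or B1 _ _ h1
        (fun B' hB' => (card_E4 (A := A) (κ := κ) (k := k) hq0 η0.le η1 (by omega) B' hB').trans a0)
        fun B2 h2 => cover_or B2 _ _ h2
          (fun B' hB' => (card_E2 (A := A) (κ := κ) (α := α) (γ := γ) k hq0 η0.le η1
            (by omega) (by omega) hde B' hB').trans a0)
          fun B3 h3 => cover_or B3 _ _ h3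
            (fun B' hB' => (card_E2 (A := A) (κ := κ) (α := γ) (γ := α) (d := e) (e := d) k hq0
              η0.le η1 (by omega) (by omega) (by omega) B' hB').trans a0)
            fun B' hB' => (card_R1 (A := A) (k := k) (η := η) hq hκ hαγ hd (by omega) hde B'
              hB').trans (by gcongr)
    obtain ⟨h1, g, h, F, e1⟩ := hB f hf
    by_contra hcon
    simp only [not_or, not_and, not_exists, not_le] at hcon
    obtain ⟨c1, c2, c3, c4, c5⟩ := hcon
    exact absurd (c4 h1 h g F.symm (by rw [mul_comm, e1])).le (not_le.2 (c5 h1 g h F e1 (c1 h1).le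
      (c2 h1).le (c3 h1 g h F e1).le))
  refine key.trans (le_of_eq ?_)
  ring

lemma Adm.fac {A κ : ℤ} {q n : ℕ} {f : ℤ[X]} (h : Adm A q κ n f) (hn : 0 < n)
    (h2 : ¬ Irreducible f) : ∃ (d e : ℕ) (α γ : ℤ) (g h : ℤ[X]), 0 < d ∧ d ≤ e ∧ d + e = n ∧
      α * γ = κ ∧ GF α γ d e g h ∧ g * h = f := by
  rw [h.mo.irreducible_iff_natDegree', h.dg] at h2
  have hne : f ≠ 1 := by
    intro e
    have := h.dg
    rw [e, natDegree_one] at this
    omega
  simp only [not_and, not_forall, not_not] at h2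
  obtain ⟨u, g, hu, hg, e, hd⟩ := h2 hne
  obtain ⟨d1, d2⟩ := Finset.mem_Ioc.1 hd
  have := h.dg
  rw [← e, hu.natDegree_mul hg] at this
  exact ⟨g.natDegree, u.natDegree, g.coeff 0, u.coeff 0, g, u, d1, by omega, by omega,
    by rw [← mul_coeff_zero, mul_comm, e, h.c0], ⟨hg, hu, rfl, rfl, rfl, rfl⟩,
    by rw [mul_comm, e]⟩

lemma bad_small {A κ : ℤ} {q : ℕ} (hq : 2 ≤ q) (hκ : κ ≠ 0) {ε : ℝ} (hε : 0 < ε) :
    ∀ᶠ m : ℕ in atTop, ∀ B : Finset ℤ[X],
      (∀ f ∈ B, Adm A q κ (m + 1) f ∧ ¬ Irreducible f) → (B.card : ℝ) ≤ q ^ m * ε := by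
  classical
  have hq' : (2 : ℝ) ≤ q := by exact_mod_cast hq
  obtain ⟨K, c1, C1, hK, hc1, hC1, H1⟩ := small_class (A := A) hq hκ
  obtain ⟨c2, C2, hc2, hC2, H2⟩ := large_class (A := A) hq hκ hK
  set J := Finset.Icc (-|κ|) |κ| with hJ
  have hJm : ∀ α γ : ℤ, α * γ = κ → (α, γ) ∈ J ×ˢ J := fun α γ h =>
    Finset.mem_product.2 ⟨Finset.mem_Icc.2 (abs_le.1 (Int.le_of_dvd (abs_pos.2 hκ)
      ((abs_dvd_abs _ _).2 ⟨γ, h.symm⟩))), Finset.mem_Icc.2 (abs_le.1 (Int.le_of_dvd (abs_pos.2 hκ)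
      ((abs_dvd_abs _ _).2 ⟨α, by rw [← h, mul_comm]⟩)))⟩
  set N : ℝ := ((J ×ˢ J).card : ℝ) with hN
  have N0 : 0 ≤ N := Nat.cast_nonneg _
  obtain ⟨D, hD⟩ := exists_pow_lt_of_lt_one (show 0 < ε / 4 / (3 * (N + 1)) by positivity)
    (show (3 / 4 : ℝ) < 1 by norm_num)
  obtain ⟨Z, hZ⟩ := root_set D (A.natAbs + q + κ.natAbs + 2) (by omega)
  obtain ⟨M, hM⟩ := exists_nat_gt (Z.card * (4 / ε))
  have hM0 : (0 : ℝ) < M := lt_of_le_of_lt (by positivity) hM
  have t1 : Tendsto (fun m : ℕ => (Z.card : ℝ) * 2 ^ (M ^ 2) * (((q : ℝ) - 1) / q) ^ m) atTop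
      (𝓝 0) := by
    have := (tendsto_pow_atTop_nhds_zero_of_lt_one (r := ((q : ℝ) - 1) / q)
      (div_nonneg (by linarith) (by linarith))
      (by rw [div_lt_one (by linarith)]; linarith)).const_mul ((Z.card : ℝ) * 2 ^ (M ^ 2))
    rwa [mul_zero] at this
  have t2 : ∀ c C0 : ℝ, 0 < c → Tendsto (fun m : ℕ =>
      N * (((m + 1 : ℕ) : ℝ) * (C0 * exp (-(c * ((m + 1 : ℕ) : ℝ)))))) atTop (𝓝 0) := by
    intro c C0 hc
    have h1 : Tendsto (fun m : ℕ => c * ((m + 1 : ℕ) : ℝ)) atTop atTop :=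
      (tendsto_natCast_atTop_atTop.comp (tendsto_add_atTop_nat 1)).const_mul_atTop hc
    have h2 := ((tendsto_pow_mul_exp_neg_atTop_nhds_zero 1).comp h1).const_mul (N * C0 / c)
    rw [mul_zero] at h2
    refine h2.congr fun m => ?_
    simp only [Function.comp, pow_one]
    field_simp
  have t3 := (t2 c1 C1 hc1).add (t2 c2 C2 hc2)
  rw [add_zero] at t3
  filter_upwards [t1.eventually (ge_mem_nhds (show 0 < ε / 4 by positivity)),
    t3.eventually (ge_mem_nhds (show 0 < ε / 4 by positivity)), eventually_ge_atTop 2]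
    with m e1 e2 hm B hB
  have q0 : (0 : ℝ) < q ^ m := by positivity
  set x := C1 * exp (-(c1 * ((m + 1 : ℕ) : ℝ))) with hx
  set y := C2 * exp (-(c2 * ((m + 1 : ℕ) : ℝ))) with hy
  have x0 : 0 ≤ x := by positivity
  have y0 : 0 ≤ y := by positivity
  have key : (B.card : ℝ) ≤ q ^ m * (ε / 4 + ε / 4) + (q ^ m * (ε / 4) + q ^ m * (ε / 4)) := by
    refine cover_or B (fun f => ∃ z ∈ Z, z ≠ 0 ∧ Adm A q κ (m + 1) f ∧ aeval z f = 0)
      (fun f => (∃ p ∈ J ×ˢ J, ∃ d ∈ Ico (D + 1) (m + 1), Adm A q κ (m + 1) f ∧ ∃ g h,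
          GF p.1 p.2 d (m + 1 - d) g h ∧ g * h = f ∧ reflect d g = C p.1 * g) ∨
        ∃ p ∈ J ×ˢ J, ∃ d ∈ range (m + 1), p.1 * p.2 = κ ∧ d ≤ m + 1 - d ∧
          Adm A q κ (m + 1) f ∧ ∃ g h, GF p.1 p.2 d (m + 1 - d) g h ∧ g * h = f ∧
            ¬ (p.1 ^ 2 = 1 ∧ reflect d g = C p.1 * g)) (fun f hf => ?_) (fun B1 h1 => ?_)
      fun B1 h1 => cover_or B1 _ _ h1 (fun B2 h2 => ?_) fun B2 h2 => ?_
    · obtain ⟨hA, hi⟩ := hB f hf
      obtain ⟨d, e, α, γ, g, h, d0, de, dn, hαγ, F, e0⟩ := hA.fac (by omega) hi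
      obtain rfl : e = m + 1 - d := by omega
      by_cases hd : d ≤ D
      · have hr : ∀ a : ℂ, aeval a g = 0 → aeval a f = 0 := by
          intro a ha
          rw [← e0, map_mul, ha, zero_mul]
        obtain ⟨z, z1, z2⟩ := hZ g F.mg (F.dg ▸ d0) (F.dg ▸ hd) fun a ha => hA.root_le (hr a ha)
        refine Or.inl ⟨z, z1, ?_, hA, hr z z2⟩
        rintro rfl
        have := hr 0 z2
        rw [← coeff_zero_eq_aeval_zero', hA.c0] at this
        exact hκ (by simpa using this)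
      by_cases hr : α ^ 2 = 1 ∧ reflect d g = C α * g
      · exact Or.inr (Or.inl ⟨(α, γ), hJm _ _ hαγ, d, Finset.mem_Ico.2 (by omega), hA, g, h, F,
          e0, hr.2⟩)
      · exact Or.inr (Or.inr ⟨(α, γ), hJm _ _ hαγ, d, Finset.mem_range.2 (by omega), hαγ, de,
          hA, g, h, F, e0, hr⟩)
    · refine (cover_sum B1 Z _ h1 (fun _ => q ^ m / M + 2 ^ (M ^ 2) * ((q : ℝ) - 1) ^ m)
        fun z _ B' hB' => ?_).trans ?_
      · by_cases hz : z = 0
        · rw [Finset.eq_empty_of_forall_notMem fun f hf => (hB' f hf).1 hz, Finset.card_empty,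
            Nat.cast_zero]
          have : (0 : ℝ) ≤ (q : ℝ) - 1 := by linarith
          positivity
        · exact card_root hq hz (by exact_mod_cast hM0) B' fun f hf => (hB' f hf).2
      · rw [Finset.sum_const, nsmul_eq_mul, mul_add, mul_add]
        refine add_le_add ?_ ?_
        · rw [← mul_div_assoc, mul_comm, mul_div_assoc]
          refine mul_le_mul_of_nonneg_left ?_ q0.le
          rw [div_le_iff₀ hM0]
          rw [← mul_div_assoc, div_lt_iff₀ hε] at hM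
          linarith
        · rw [div_pow, ← mul_div_assoc, div_le_iff₀ q0] at e1
          linarith
    · refine (cover_sum B2 _ _ h2 (fun _ => q ^ m * (3 * (3 / 4) ^ D)) fun p _ B3 h3 => ?_).trans ?_
      · refine (cover_sum B3 _ _ h3 (fun d => q ^ m * (3 / 4) ^ d) fun d hd B' hB' => ?_).trans ?_
        · have := Finset.mem_Ico.1 hd
          exact card_R3 (n := m + 1) hq (by omega) (by omega) B' hB'
        · rw [← Finset.mul_sum]
          refine mul_le_mul_of_nonneg_left ?_ q0.le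
          refine (geom_sum_Ico_le_of_lt_one (by norm_num) (by norm_num)).trans (le_of_eq ?_)
          rw [pow_succ]
          ring
      · rw [Finset.sum_const, nsmul_eq_mul, ← hN, mul_left_comm]
        refine mul_le_mul_of_nonneg_left ?_ q0.le
        rw [lt_div_iff₀ (by positivity)] at hD
        have : (0 : ℝ) ≤ (3 / 4) ^ D := by positivity
        nlinarith
    · refine (cover_sum B2 _ _ h2 (fun _ => ((m + 1 : ℕ) : ℝ) * (q ^ m * (x + y)))
        fun p _ B3 h3 => ?_).trans ?_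
      · refine (cover_sum B3 _ _ h3 (fun _ => q ^ m * (x + y)) fun d hd B' hB' => ?_).trans ?_
        · have := Finset.mem_range.1 hd
          rcases B'.eq_empty_or_nonempty with rfl | ⟨f0, hf0⟩
          · rw [Finset.card_empty, Nat.cast_zero]
            positivity
          obtain ⟨a1, a2, -⟩ := hB' f0 hf0
          by_cases hdk : d ≤ 2 * ((m + 1) / K)
          · refine (H1 (m + 1) d _ _ _ (by omega) a1 (by omega) hdk B'
              fun f hf => (hB' f hf).2.2).trans ?_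
            exact mul_le_mul_of_nonneg_left (le_add_of_nonneg_right y0) q0.le
          · refine (H2 (m + 1) d _ _ _ a1 (by omega) (by omega) a2 B' fun f hf => ?_).trans ?_
            · obtain ⟨-, -, b1, g, h, b2, b3, -⟩ := hB' f hf
              exact ⟨b1, g, h, b2, b3⟩
            · exact mul_le_mul_of_nonneg_left (le_add_of_nonneg_left x0) q0.le
        · rw [Finset.sum_const, nsmul_eq_mul, Finset.card_range]
      · rw [Finset.sum_const, nsmul_eq_mul, ← hN]
        calc _ = q ^ m * (N * (((m + 1 : ℕ) : ℝ) * x) + N * (((m + 1 : ℕ) : ℝ) * y)) := by ring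
          _ ≤ _ := mul_le_mul_of_nonneg_left e2 q0.le
  refine key.trans (le_of_eq ?_)
  ring

theorem main (A : ℤ) (q : ℕ) (hq : 2 ≤ q) (κ : ℤ) (hκ : κ ≠ 0) :
    Tendsto (fun n : ℕ =>
      (({f : ℤ[X] | f.Monic ∧ f.natDegree = n ∧ f.coeff 0 = κ ∧
          (∀ i, 0 < i → i < n → A ≤ f.coeff i ∧ f.coeff i < A + q) ∧ Irreducible f} :
          Set ℤ[X]).ncard : ℝ) / (q : ℝ) ^ (n - 1)) atTop (𝓝 1) := by
  classical
  rw [← tendsto_add_atTop_iff_nat 1, Metric.tendsto_nhds]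
  intro ε hε
  filter_upwards [bad_small (A := A) hq hκ (half_pos hε)] with m hm
  obtain ⟨Ω, hc, hΩ⟩ := adm_set A κ q m
  have e1 : ({f : ℤ[X] | f.Monic ∧ f.natDegree = m + 1 ∧ f.coeff 0 = κ ∧
      (∀ i, 0 < i → i < m + 1 → A ≤ f.coeff i ∧ f.coeff i < A + q) ∧ Irreducible f} : Set ℤ[X])
      = ↑(Ω.filter fun f => Irreducible f) := by
    ext f
    simp only [Set.mem_ofPred_eq, Finset.coe_filter, hΩ]
    exact ⟨fun h => ⟨⟨h.1, h.2.1, h.2.2.1, fun i a b => Finset.mem_Ico.2 (h.2.2.2.1 i a b)⟩,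
      h.2.2.2.2⟩, fun h => ⟨h.1.mo, h.1.dg, h.1.c0,
        fun i a b => Finset.mem_Ico.1 (h.1.mem i a b), h.2⟩⟩
  have e2 := Finset.card_filter_add_card_filter_not (s := Ω) fun f => Irreducible f
  rw [hc] at e2
  have e3 : ((Ω.filter fun f => Irreducible f).card : ℝ)
      + (Ω.filter fun f => ¬ Irreducible f).card = q ^ m := by exact_mod_cast e2
  have e4 := hm (Ω.filter fun f => ¬ Irreducible f) fun f hf =>
    ⟨(hΩ f).1 (Finset.mem_filter.1 hf).1, (Finset.mem_filter.1 hf).2⟩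
  have q0 : (0 : ℝ) < q ^ m := by
    have : (0 : ℝ) < q := by exact_mod_cast (by omega : 0 < q)
    positivity
  have e5 : ((Ω.filter fun f => Irreducible f).card : ℝ) / q ^ m - 1
      = -((Ω.filter fun f => ¬ Irreducible f).card / q ^ m) := by
    field_simp
    linarith
  rw [e1, Set.ncard_coe_finset, Nat.add_sub_cancel, Real.dist_eq, e5, abs_neg,
    abs_of_nonneg (by positivity), div_lt_iff₀ q0]
  nlinarith

end Pool.Agent.P.MP_8cce2a_nt.G
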