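import Mathlib

/-!
A lower bound for the largest conjugate of an algebraic integer which is not a root of unity,
by congruences for power sums, and an upper bound for the order of a root of unity.
-/

namespace Pool.Agent.P.MP_8cce2a_nt

open Polynomial Finset

/-- equal power sums force a common point -/
lemma moment_mem {ι κ : Type*} [Fintype ι] [Fintype κ] (x : ι → ℂ) (y : κ → ℂ) (L : ℕ)
    (hL : Fintype.card ι + Fintype.card κ ≤ L)
    (h : ∀ k < L, ∑ i, x i ^ k = ∑ j, y j ^ k) (i0 : ι) : ∃ j, x i0 = y j := by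
  classical
  by_contra hne
  push Not at hne
  set U : Finset ℂ := univ.image x ∪ univ.image y with hU
  have hx0 : x i0 ∈ U := Finset.mem_union_left _ (Finset.mem_image_of_mem _ (mem_univ _))
  set T : Finset ℂ := U.erase (x i0) with hT
  set q : ℂ[X] := ∏ t ∈ T, (X - C t) with hq
  have hUc : U.card ≤ L := by
    refine (Finset.card_union_le _ _).trans (le_trans (add_le_add ?_ ?_) hL)
    · exact Finset.card_image_le
    · exact Finset.card_image_le
  have hd : q.natDegree < L := by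
    rw [hq, natDegree_finsetProd_X_sub_C_eq_card, hT, Finset.card_erase_of_mem hx0]
    have := Finset.card_pos.2 ⟨_, hx0⟩
    omega
  have e : ∑ i, q.eval (x i) = ∑ j, q.eval (y j) := by
    simp only [eval_eq_sum_range' hd]
    rw [Finset.sum_comm, Finset.sum_comm (s := univ)]
    refine Finset.sum_congr rfl fun k hk => ?_
    rw [← Finset.mul_sum, ← Finset.mul_sum, h k (Finset.mem_range.1 hk)]
  have hz : ∀ t ∈ T, q.eval t = 0 := by
    intro t ht
    rw [hq, eval_prod]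
    exact Finset.prod_eq_zero ht (by simp)
  have h0 : q.eval (x i0) ≠ 0 := by
    rw [hq, eval_prod]
    refine Finset.prod_ne_zero_iff.2 fun t ht => ?_
    have := (Finset.mem_erase.1 ht).1
    simpa [sub_eq_zero] using this.symm
  have r0 : ∑ j, q.eval (y j) = 0 := Finset.sum_eq_zero fun j _ => hz _
    (Finset.mem_erase.2 ⟨(hne j).symm,
      Finset.mem_union_right _ (Finset.mem_image_of_mem _ (mem_univ _))⟩)
  have l0 : ∑ i, q.eval (x i)
      = ((univ.filter fun i => x i = x i0).card : ℂ) * q.eval (x i0) := by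
    rw [← Finset.sum_filter_add_sum_filter_not univ (fun i => x i = x i0)]
    have a1 : ∑ i ∈ univ.filter (fun i => ¬ x i = x i0), q.eval (x i) = 0 :=
      Finset.sum_eq_zero fun i hi => hz _ (Finset.mem_erase.2 ⟨(Finset.mem_filter.1 hi).2,
        Finset.mem_union_left _ (Finset.mem_image_of_mem _ (mem_univ _))⟩)
    rw [a1, add_zero, Finset.sum_congr rfl (g := fun _ => q.eval (x i0))
      (fun i hi => by rw [(Finset.mem_filter.1 hi).2]), Finset.sum_const, nsmul_eq_mul]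
  rw [l0, r0] at e
  rcases mul_eq_zero.1 e with e | e
  · have : (univ.filter fun i => x i = x i0).card = 0 := by exact_mod_cast e
    exact absurd this (Finset.card_pos.2 ⟨i0, by simp⟩).ne'
  · exact h0 e

lemma int_of_rat_integral {t : ℚ} (h : IsIntegral ℤ (t : ℂ)) : ∃ a : ℤ, (a : ℚ) = t := by
  have h1 : IsIntegral ℤ (algebraMap ℚ ℂ t) := by simpa using h
  have h2 : IsIntegral ℤ t := (isIntegral_algebraMap_iff (algebraMap ℚ ℂ).injective).1 h1
  obtain ⟨a, ha⟩ := IsIntegrallyClosed.isIntegral_iff.1 h2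
  exact ⟨a, by simpa using ha⟩

lemma sum_pow_prime {R ι : Type*} [CommRing R] {p : ℕ} (hp : p.Prime) (s : Finset ι)
    (z : ι → R) : ∃ r, (∑ i ∈ s, z i) ^ p = ∑ i ∈ s, z i ^ p + p * r := by
  classical
  induction s using Finset.induction_on with
  | empty => exact ⟨0, by simp [hp.ne_zero]⟩
  | insert a s ha ih =>
    obtain ⟨r, hr⟩ := ih
    obtain ⟨r', hr'⟩ := exists_add_pow_prime_eq hp (z a) (∑ i ∈ s, z i)
    refine ⟨r + z a * (∑ i ∈ s, z i) * r', ?_⟩
    rw [Finset.sum_insert ha, Finset.sum_insert ha, hr', hr]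
    ring

section field

variable {K : Type*} [Field K] [Algebra ℚ K] [FiniteDimensional ℚ K]

omit [FiniteDimensional ℚ K] in
lemma emb_integral (σ : K →ₐ[ℚ] ℂ) {x : K} (hx : IsIntegral ℤ x) : IsIntegral ℤ (σ x) :=
  hx.map (σ : K →+* ℂ).toIntAlgHom

lemma psum_int {x : K} (hx : IsIntegral ℤ x) : ∃ a : ℤ, (a : ℂ) = ∑ σ : K →ₐ[ℚ] ℂ, σ x := by
  have h1 := trace_eq_sum_embeddings ℂ (K := ℚ) (L := K) (x := x)
  have h2 : IsIntegral ℤ (∑ σ : K →ₐ[ℚ] ℂ, σ x) :=
    IsIntegral.sum _ fun σ _ => emb_integral σ hx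
  rw [← h1] at h2
  obtain ⟨a, ha⟩ := int_of_rat_integral (t := Algebra.trace ℚ K x) (by simpa using h2)
  refine ⟨a, ?_⟩
  rw [← h1, ← ha]
  simp

lemma psum_cong {p : ℕ} (hp : p.Prime) {x : K} (hx : IsIntegral ℤ x) {a b : ℤ}
    (ha : (a : ℂ) = ∑ σ : K →ₐ[ℚ] ℂ, σ x) (hb : (b : ℂ) = ∑ σ : K →ₐ[ℚ] ℂ, σ x ^ p) :
    (p : ℤ) ∣ a - b := by
  obtain ⟨r, hr⟩ := sum_pow_prime hp univ
    (fun σ : K →ₐ[ℚ] ℂ => (⟨σ x, emb_integral σ hx⟩ : integralClosure ℤ ℂ))
  have h1 := congrArg (fun z : integralClosure ℤ ℂ => (z : ℂ)) hr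
  push_cast at h1
  rw [← ha, ← hb] at h1
  have hp0 : (p : ℂ) ≠ 0 := by exact_mod_cast hp.ne_zero
  have h2 : ((((a ^ p - b : ℤ) : ℚ) / p : ℚ) : ℂ) = r := by
    push_cast
    rw [h1]
    field_simp
    ring
  obtain ⟨c, hc⟩ := int_of_rat_integral (t := ((a ^ p - b : ℤ) : ℚ) / p) (by rw [h2]; exact r.2)
  have hp1 : (p : ℚ) ≠ 0 := by exact_mod_cast hp.ne_zero
  have h3 : (p : ℤ) ∣ a ^ p - b := by
    refine ⟨c, ?_⟩
    have : ((a ^ p - b : ℤ) : ℚ) = p * c := by
      rw [hc]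
      field_simp
    exact_mod_cast this
  have h4 : (p : ℤ) ∣ a ^ p - a := by
    have := Fact.mk hp
    rw [← ZMod.intCast_zmod_eq_zero_iff_dvd]
    push_cast
    rw [ZMod.pow_card, sub_self]
  have : a - b = (a ^ p - b) - (a ^ p - a) := by ring
  rw [this]
  exact dvd_sub h3 h4

end field

lemma pow_le_two {t : ℝ} (ht : 0 ≤ t) {k L : ℕ} (hk : k ≤ L) (h : t ^ L ≤ 2) : t ^ k ≤ 2 := by
  rcases le_total t 1 with h1 | h1
  · exact (pow_le_one₀ ht h1).trans one_le_two
  · exact (pow_le_pow_right₀ h1 hk).trans h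

/-- if all conjugates are small then the `p`-th power is a conjugate -/
lemma pow_conj {α : ℂ} (hα : IsIntegral ℤ α) {D p : ℕ} (hD : (minpoly ℚ α).natDegree ≤ D)
    (hp : p.Prime) (hpD : 4 * D < p)
    (H : ∀ β : ℂ, aeval β (minpoly ℚ α) = 0 → ‖β‖ ^ (2 * D * p) ≤ 2) :
    aeval (α ^ p) (minpoly ℚ α) = 0 := by
  have hq : IsIntegral ℚ α := hα.tower_top
  set K := IntermediateField.adjoin ℚ {α} with hK
  have : FiniteDimensional ℚ K := IntermediateField.adjoin.finiteDimensional hq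
  set a : K := IntermediateField.AdjoinSimple.gen ℚ α with ha
  have hcard : Fintype.card (K →ₐ[ℚ] ℂ) ≤ D := by
    rw [AlgHom.card, IntermediateField.adjoin.finrank hq]
    exact hD
  have haI : IsIntegral ℤ a :=
    (isIntegral_algebraMap_iff (algebraMap K ℂ).injective).1 hα
  have hroot : ∀ σ : K →ₐ[ℚ] ℂ, aeval (σ a) (minpoly ℚ α) = 0 := by
    intro σ
    have : aeval a (minpoly ℚ α) = 0 := IntermediateField.aeval_gen_minpoly ℚ α
    rw [aeval_algHom_apply, this, map_zero]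
  have hb : ∀ k ≤ 2 * D * p, ∀ c : ℤ, (c : ℂ) = ∑ σ : K →ₐ[ℚ] ℂ, σ a ^ k → |c| ≤ 2 * D := by
    intro k hk c hc
    have h1 : ‖(c : ℂ)‖ ≤ ∑ _σ : K →ₐ[ℚ] ℂ, (2 : ℝ) := by
      rw [hc]
      refine norm_sum_le_of_le _ fun σ _ => ?_
      rw [norm_pow]
      exact pow_le_two (norm_nonneg _) hk (H _ (hroot σ))
    rw [Complex.norm_intCast, Finset.sum_const, Finset.card_univ, nsmul_eq_mul] at h1
    have h2 : (Fintype.card (K →ₐ[ℚ] ℂ) : ℝ) ≤ D := by exact_mod_cast hcard
    have h3 : |(c : ℝ)| ≤ 2 * D := by linarith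
    exact_mod_cast h3
  obtain ⟨σ, hσ⟩ := moment_mem (fun σ : K →ₐ[ℚ] ℂ => σ a ^ p) (fun σ : K →ₐ[ℚ] ℂ => σ a)
    (2 * D) (by omega) (by
      intro k hk
      obtain ⟨c, hc⟩ := psum_int (haI.pow k)
      obtain ⟨c', hc'⟩ := psum_int ((haI.pow k).pow p)
      simp only [map_pow] at hc hc'
      have h1 := psum_cong hp (haI.pow k) (a := c) (b := c') (by simpa using hc)
        (by simpa using hc')
      have h2 := hb k (by nlinarith [hp.pos]) c hc
      have h3 := hb (k * p) (Nat.mul_le_mul_right _ hk.le) c' (by simpa [pow_mul] using hc')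
      have h4 : c - c' = 0 := by
        refine Int.eq_zero_of_abs_lt_dvd h1 ?_
        have : (4 * D : ℤ) < p := by exact_mod_cast hpD
        have := abs_sub c c'
        linarith
      have h5 : c = c' := by omega
      rw [← hc, h5, hc']
      refine Finset.sum_congr rfl fun σ _ => ?_
      rw [← pow_mul, ← pow_mul, mul_comm]) K.val
  have : α ^ p = σ a := hσ
  rw [this]
  exact hroot σ

/-- either a conjugate is large or the number is a root of unity -/
lemma house {α : ℂ} (hα : IsIntegral ℤ α) (h0 : α ≠ 0) {D : ℕ} (hD0 : 0 < D)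
    (hD : (minpoly ℚ α).natDegree ≤ D) :
    (∃ β : ℂ, aeval β (minpoly ℚ α) = 0 ∧ 2 ≤ ‖β‖ ^ (16 * D ^ 2)) ∨ IsOfFinOrder α := by
  by_cases hbig : ∃ β : ℂ, aeval β (minpoly ℚ α) = 0 ∧ 2 ≤ ‖β‖ ^ (16 * D ^ 2)
  · exact Or.inl hbig
  right
  push Not at hbig
  obtain ⟨p, hp, h1, h2⟩ := Nat.exists_prime_lt_and_le_two_mul (4 * D) (by omega)
  have hq : IsIntegral ℚ α := hα.tower_top
  have step : ∀ j : ℕ, aeval (α ^ p ^ j) (minpoly ℚ α) = 0 := by
    intro j
    induction j with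
    | zero => simp
    | succ j ih =>
      have e : minpoly ℚ α = minpoly ℚ (α ^ p ^ j) :=
        minpoly.eq_of_irreducible_of_monic (minpoly.irreducible hq) ih (minpoly.monic hq)
      have := pow_conj (hα.pow (p ^ j)) (D := D) (e ▸ hD) hp h1 (by
        intro β hβ
        rw [← e] at hβ
        exact pow_le_two (norm_nonneg _) (by nlinarith) (hbig β hβ).le)
      rwa [← e, ← pow_mul, ← pow_succ] at this
  have hfin : ((minpoly ℚ α).rootSet ℂ).Finite := rootSet_finite _ _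
  obtain ⟨i, j, hij, e⟩ := hfin.exists_lt_map_eq_of_forall_mem (f := fun j : ℕ => α ^ p ^ j)
    (fun j => mem_rootSet.2 ⟨minpoly.ne_zero hq, step j⟩)
  have hlt : p ^ i < p ^ j := Nat.pow_lt_pow_right hp.one_lt hij
  refine isOfFinOrder_iff_pow_eq_one.2 ⟨p ^ j - p ^ i, by omega, ?_⟩
  have e2 : α ^ p ^ i * α ^ (p ^ j - p ^ i) = α ^ p ^ i * 1 := by
    rw [← pow_add, Nat.add_sub_cancel' hlt.le, mul_one]
    exact e.symm
  exact mul_left_cancel₀ (pow_ne_zero _ h0) e2

/-- the order is at most twice the square of the totient -/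
lemma le_totient_sq (m : ℕ) : m ≤ 2 * m.totient ^ 2 ∧ (Odd m → m ≤ m.totient ^ 2) := by
  induction m using Nat.recOnPosPrimePosCoprime with
  | zero => simp
  | one => simp
  | prime_pow p n hp hn =>
    obtain ⟨n, rfl⟩ : ∃ k, n = k + 1 := ⟨n - 1, by omega⟩
    rw [Nat.totient_prime_pow_succ hp]
    obtain ⟨q, rfl⟩ : ∃ q, p = q + 2 := ⟨p - 2, by have := hp.two_le; omega⟩
    have h1 : 1 ≤ (q + 2) ^ n := Nat.one_le_pow _ _ (by omega)
    have e : q + 2 - 1 = q + 1 := by omega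
    rw [e, pow_succ (q + 2), mul_pow]
    set A := (q + 2) ^ n with hA
    have hA2 : A ≤ A ^ 2 := by nlinarith
    refine ⟨?_, fun ho => ?_⟩
    · calc A * (q + 2) ≤ A ^ 2 * (2 * (q + 1) ^ 2) := Nat.mul_le_mul hA2 (by nlinarith)
        _ = _ := by ring
    · have hq : 1 ≤ q := by
        rcases q with _ | q
        · exact absurd (Nat.odd_mul.1 ho).2 (by decide)
        · omega
      exact Nat.mul_le_mul hA2 (by nlinarith)
  | coprime a b ha hb hab iha ihb =>
    rw [Nat.totient_mul hab, mul_pow]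
    refine ⟨?_, fun ho => Nat.mul_le_mul (iha.2 (Nat.odd_mul.1 ho).1) (ihb.2 (Nat.odd_mul.1 ho).2)⟩
    rcases Nat.even_or_odd a with h | h
    · have hb' : Odd b := by
        rcases Nat.even_or_odd b with h' | h'
        · have := Nat.dvd_gcd h.two_dvd h'.two_dvd
          rw [hab] at this
          omega
        · exact h'
      calc a * b ≤ (2 * a.totient ^ 2) * b.totient ^ 2 := Nat.mul_le_mul iha.1 (ihb.2 hb')
        _ = _ := by ring
    · calc a * b ≤ a.totient ^ 2 * (2 * b.totient ^ 2) := Nat.mul_le_mul (iha.2 h) ihb.1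
        _ = _ := by ring

end Pool.Agent.P.MP_8cce2a_nt
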