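import Mathlib

/-!
Zero-one polynomials with a factor of large degree are rare.

If `f = g h` has coefficients in `{0,1}` then so does `w = g * reflect h`, and
`w * reflect w = f * reflect f`.  Counting the pairs `(g, h)` modulo two that are compatible
with this identity in the lowest `k` coefficients saves a factor `(3/4)^k`.
-/

namespace Pool.Agent.P.MP_8cce2a_nt

open Polynomial Finset

/-- all coefficients are zero or one -/
def ZO (p : ℤ[X]) : Prop := ∀ i, p.coeff i = 0 ∨ p.coeff i = 1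

lemma natDegree_reflect_le' {R : Type*} [Semiring R] {N : ℕ} {p : R[X]} (h : p.natDegree ≤ N) :
    (reflect N p).natDegree ≤ N :=
  natDegree_reflect_le.trans (max_le le_rfl h)

lemma coeff_mul_reflect (p : ℤ[X]) (n : ℕ) :
    (p * reflect n p).coeff n = ∑ i ∈ range (n + 1), p.coeff i ^ 2 := by
  rw [coeff_mul, Finset.Nat.sum_antidiagonal_eq_sum_range_succ
    (fun i j => p.coeff i * (reflect n p).coeff j)]
  refine Finset.sum_congr rfl fun i hi => ?_
  have hi' : i ≤ n := Nat.lt_succ_iff.1 (Finset.mem_range.1 hi)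
  rw [coeff_reflect, revAt_le (Nat.sub_le _ _), Nat.sub_sub_self hi', sq]

lemma eval_one_eq {p : ℤ[X]} {n : ℕ} (h : p.natDegree ≤ n) :
    p.eval 1 = ∑ i ∈ range (n + 1), p.coeff i := by
  rw [eval_eq_sum_range' (Nat.lt_succ_of_le h)]
  simp

lemma eval_one_reflect {p : ℤ[X]} {n : ℕ} (h : p.natDegree ≤ n) :
    (reflect n p).eval 1 = p.eval 1 := by
  rw [eval_one_eq h, eval_one_eq (natDegree_reflect_le' h), ← Finset.sum_range_reflect]
  refine Finset.sum_congr rfl fun i hi => ?_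
  have hi' : i ≤ n := Nat.lt_succ_iff.1 (Finset.mem_range.1 hi)
  rw [coeff_reflect, revAt_le (by omega)]
  congr 1
  omega

lemma mul_reflect_eq {R : Type*} [CommRing R] {g h : R[X]} {d e : ℕ} (hg : g.natDegree ≤ d)
    (hh : h.natDegree ≤ e) :
    reflect (d + e) (g * reflect e h) = reflect d g * h := by
  rw [reflect_mul _ _ hg (natDegree_reflect_le' hh), reflect_reflect]

lemma ZO.reflect {p : ℤ[X]} (h : ZO p) (n : ℕ) : ZO (reflect n p) := fun i => by
  rw [coeff_reflect]
  exact h _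

/-- Ljunggren's trick for zero-one polynomials -/
lemma ZO_twist {g h : ℤ[X]} {d e : ℕ} (hg : g.natDegree ≤ d) (hh : h.natDegree ≤ e)
    (hf : ZO (g * h)) : ZO (g * reflect e h) := by
  set w := g * reflect e h with hw
  have hwd : w.natDegree ≤ d + e :=
    natDegree_mul_le.trans (add_le_add hg (natDegree_reflect_le' hh))
  have hfd : (g * h).natDegree ≤ d + e := natDegree_mul_le.trans (add_le_add hg hh)
  have e1 : w * reflect (d + e) w = (g * h) * reflect (d + e) (g * h) := by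
    rw [hw, mul_reflect_eq hg hh, reflect_mul _ _ hg hh]
    ring
  have e2 : ∑ i ∈ range (d + e + 1), w.coeff i ^ 2
      = ∑ i ∈ range (d + e + 1), (g * h).coeff i ^ 2 := by
    rw [← coeff_mul_reflect, ← coeff_mul_reflect, e1]
  have e3 : ∑ i ∈ range (d + e + 1), w.coeff i = ∑ i ∈ range (d + e + 1), (g * h).coeff i := by
    rw [← eval_one_eq hwd, ← eval_one_eq hfd, hw, eval_mul, eval_mul, eval_one_reflect hh]
  have e4 : ∑ i ∈ range (d + e + 1), (g * h).coeff i ^ 2
      = ∑ i ∈ range (d + e + 1), (g * h).coeff i := by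
    refine Finset.sum_congr rfl fun i _ => ?_
    rcases hf i with h | h <;> rw [h] <;> norm_num
  have e5 : ∑ i ∈ range (d + e + 1), (w.coeff i ^ 2 - w.coeff i) = 0 := by
    rw [Finset.sum_sub_distrib, e2, e3, e4, sub_self]
  have hnn : ∀ x : ℤ, 0 ≤ x ^ 2 - x := by
    intro x
    rcases le_or_gt x 0 with h | h <;> nlinarith
  rw [Finset.sum_eq_zero_iff_of_nonneg fun i _ => hnn _] at e5
  intro i
  by_cases hi : i < d + e + 1
  · have := e5 i (Finset.mem_range.2 hi)
    have h2 : w.coeff i * (w.coeff i - 1) = 0 := by linarith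
    rcases mul_eq_zero.1 h2 with h | h
    · exact Or.inl h
    · exact Or.inr (by linarith)
  · exact Or.inl (coeff_eq_zero_of_natDegree_lt (by omega))

/-- rank of a zero-one quadruple among those with the same value of `a + b - c - d` -/
def code (a b c d : ℤ) : Fin 6 :=
  if a = b then (if c = d then (if a = 0 then 0 else 1) else if c = 0 then 0 else 1)
  else if c = d then (if a = 0 then 2 else 3)
  else if a = 0 then (if c = 0 then 2 else 3) else if c = 0 then 4 else 5

lemma code_inj {a b c d a' b' c' d' : ℤ} (ha : a = 0 ∨ a = 1) (hb : b = 0 ∨ b = 1)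
    (hc : c = 0 ∨ c = 1) (hd : d = 0 ∨ d = 1) (ha' : a' = 0 ∨ a' = 1) (hb' : b' = 0 ∨ b' = 1)
    (hc' : c' = 0 ∨ c' = 1) (hd' : d' = 0 ∨ d' = 1)
    (h1 : a + b - c - d = a' + b' - c' - d') (h2 : code a b c d = code a' b' c' d') :
    a = a' ∧ b = b' ∧ c = c' ∧ d = d' := by
  revert h1 h2
  rcases ha with rfl | rfl <;> rcases hb with rfl | rfl <;> rcases hc with rfl | rfl <;>
    rcases hd with rfl | rfl <;> rcases ha' with rfl | rfl <;> rcases hb' with rfl | rfl <;>
    rcases hc' with rfl | rfl <;> rcases hd' with rfl | rfl <;> decide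

lemma coeff_mul_of_dvd {R : Type*} [CommRing R] {p q : R[X]} {j : ℕ} (h : X ^ j ∣ p) :
    (p * q).coeff j = p.coeff j * q.coeff 0 := by
  obtain ⟨u, rfl⟩ := h
  have h1 := coeff_X_pow_mul u j 0
  have h2 := coeff_X_pow_mul (u * q) j 0
  rw [zero_add] at h1 h2
  rw [mul_assoc, h1, h2, mul_coeff_zero]

lemma coeff_mul_sub {A B A' B' : ℤ[X]} {j : ℕ} (hA : X ^ j ∣ A - A') (hB : X ^ j ∣ B - B')
    (h1 : B.coeff 0 = 1) (h2 : A'.coeff 0 = 1) :
    (A * B).coeff j - (A' * B').coeff j
      = (A.coeff j - A'.coeff j) + (B.coeff j - B'.coeff j) := by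
  have : A * B - A' * B' = (A - A') * B + (B - B') * A' := by ring
  rw [← coeff_sub, this, coeff_add, coeff_mul_of_dvd hA, coeff_mul_of_dvd hB, h1, h2,
    coeff_sub, coeff_sub, mul_one, mul_one]

lemma quad_inj {A B C D A' B' C' D' : ℤ[X]} (zA : ZO A) (zB : ZO B) (zC : ZO C) (zD : ZO D)
    (zA' : ZO A') (zB' : ZO B') (zC' : ZO C') (zD' : ZO D')
    (a0 : A.coeff 0 = 1) (b0 : B.coeff 0 = 1) (c0 : C.coeff 0 = 1) (d0 : D.coeff 0 = 1)
    (a0' : A'.coeff 0 = 1) (b0' : B'.coeff 0 = 1) (c0' : C'.coeff 0 = 1) (d0' : D'.coeff 0 = 1)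
    (h : A * B = C * D) (h' : A' * B' = C' * D') (k : ℕ)
    (hc : ∀ j < k, code (A.coeff (j + 1)) (B.coeff (j + 1)) (C.coeff (j + 1)) (D.coeff (j + 1))
      = code (A'.coeff (j + 1)) (B'.coeff (j + 1)) (C'.coeff (j + 1)) (D'.coeff (j + 1))) :
    X ^ (k + 1) ∣ A - A' ∧ X ^ (k + 1) ∣ B - B' ∧ X ^ (k + 1) ∣ C - C' ∧
      X ^ (k + 1) ∣ D - D' := by
  have step : ∀ {P P' : ℤ[X]} {m : ℕ}, X ^ m ∣ P - P' → P.coeff m = P'.coeff m →
      X ^ (m + 1) ∣ P - P' := by
    intro P P' m h1 h2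
    rw [X_pow_dvd_iff] at h1 ⊢
    intro i hi
    rcases Nat.lt_succ_iff_lt_or_eq.1 hi with hi | rfl
    · exact h1 i hi
    · rw [coeff_sub, h2, sub_self]
  induction k with
  | zero =>
    exact ⟨step (by simp) (a0.trans a0'.symm), step (by simp) (b0.trans b0'.symm),
      step (by simp) (c0.trans c0'.symm), step (by simp) (d0.trans d0'.symm)⟩
  | succ k ih =>
    obtain ⟨i1, i2, i3, i4⟩ := ih fun j hj => hc j (by omega)
    have e1 := coeff_mul_sub i1 i2 b0 a0'
    have e2 := coeff_mul_sub i3 i4 d0 c0'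
    rw [h, h', e2] at e1
    obtain ⟨j1, j2, j3, j4⟩ := code_inj (zA _) (zB _) (zC _) (zD _) (zA' _) (zB' _) (zC' _)
      (zD' _) (by linarith) (hc k (by omega))
    exact ⟨step i1 j1, step i2 j2, step i3 j3, step i4 j4⟩

lemma cancel_left {G G' H H' : (ZMod 2)[X]} {m : ℕ} (h0 : G.coeff 0 = 1)
    (h1 : X ^ m ∣ G - G') (h2 : X ^ m ∣ G * H - G' * H') : X ^ m ∣ H - H' := by
  have h3 : X ^ m ∣ G * (H - H') := by
    have : G * (H - H') = (G * H - G' * H') - (G - G') * H' := by ring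
    rw [this]
    exact dvd_sub h2 (h1.mul_right _)
  refine prime_X.pow_dvd_of_dvd_mul_left m ?_ h3
  rw [X_dvd_iff, h0]
  exact one_ne_zero

lemma map_dvd {P P' : ℤ[X]} {m : ℕ} (h : X ^ m ∣ P - P') :
    X ^ m ∣ P.map (Int.castRingHom (ZMod 2)) - P'.map (Int.castRingHom (ZMod 2)) := by
  have := Polynomial.map_dvd (Int.castRingHom (ZMod 2)) h
  simpa using this

/-- the data recorded for a factorisation -/
noncomputable def enc (k r t : ℕ) (g h : ℤ[X]) :
    (Fin (k + r) → ZMod 2) × (Fin t → ZMod 2) × (Fin k → Fin 6) :=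
  (fun i => (g.coeff (i + 1) : ZMod 2), fun i => (h.coeff (k + 1 + i) : ZMod 2),
    fun j => code ((g * h).coeff (j + 1))
      ((reflect (2 * k + 1 + r) g * reflect (2 * k + 1 + t) h).coeff (j + 1))
      ((g * reflect (2 * k + 1 + t) h).coeff (j + 1))
      ((reflect (2 * k + 1 + r) g * h).coeff (j + 1)))

/-- a factorisation of a zero-one polynomial with prescribed degrees -/
structure Fac (d e : ℕ) (g h : ℤ[X]) : Prop where
  mg : g.Monic
  mh : h.Monic
  dg : g.natDegree = d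
  dh : h.natDegree = e
  zo : ZO (g * h)
  c0 : (g * h).coeff 0 = 1

lemma Fac.facts {d e : ℕ} {g h : ℤ[X]} (F : Fac d e g h) :
    g.coeff 0 = 1 ∧ h.coeff 0 = 1 ∧ (reflect d g).coeff 0 = 1 ∧ (reflect e h).coeff 0 = 1 ∧
      ZO (reflect d g * reflect e h) ∧ ZO (g * reflect e h) ∧ ZO (reflect d g * h) := by
  have r1 : (reflect d g).coeff 0 = 1 := by
    rw [coeff_reflect, revAt_le (Nat.zero_le _), Nat.sub_zero, ← F.dg]
    exact F.mg
  have r2 : (reflect e h).coeff 0 = 1 := by
    rw [coeff_reflect, revAt_le (Nat.zero_le _), Nat.sub_zero, ← F.dh]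
    exact F.mh
  have z1 := ZO_twist F.dg.le F.dh.le F.zo
  have c0 := F.c0
  rw [mul_coeff_zero] at c0
  have g0 : g.coeff 0 = 1 := by
    have := z1 0
    rw [mul_coeff_zero, r2, mul_one] at this
    rcases this with h | h
    · rw [h] at c0
      simp at c0
    · exact h
  refine ⟨g0, by rwa [g0, one_mul] at c0, r1, r2, ?_, z1, ?_⟩
  · rw [← reflect_mul _ _ F.dg.le F.dh.le]
    exact F.zo.reflect _
  · rw [← mul_reflect_eq F.dg.le F.dh.le]
    exact z1.reflect _

lemma eq_of_low_high {G G' : (ZMod 2)[X]} {d m a : ℕ} (hG : G.natDegree ≤ d)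
    (hG' : G'.natDegree ≤ d) (h1 : X ^ a ∣ G - G')
    (h2 : X ^ m ∣ reflect d G - reflect d G')
    (h3 : ∀ i, a ≤ i → i + m ≤ d → G.coeff i = G'.coeff i) : G = G' := by
  ext i
  by_cases c1 : i < a
  · have := X_pow_dvd_iff.1 h1 i c1
    rwa [coeff_sub, sub_eq_zero] at this
  by_cases c2 : i + m ≤ d
  · exact h3 i (by omega) c2
  by_cases c3 : i ≤ d
  · have := X_pow_dvd_iff.1 h2 (d - i) (by omega)
    rwa [coeff_sub, sub_eq_zero, coeff_reflect, coeff_reflect, revAt_le (Nat.sub_le _ _),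
      Nat.sub_sub_self c3] at this
  · rw [coeff_eq_zero_of_natDegree_lt (by omega), coeff_eq_zero_of_natDegree_lt (by omega)]

lemma ZO.eq_of_map {p q : ℤ[X]} (hp : ZO p) (hq : ZO q)
    (h : p.map (Int.castRingHom (ZMod 2)) = q.map (Int.castRingHom (ZMod 2))) : p = q := by
  ext i
  have := congrArg (fun r => r.coeff i) h
  simp only [coeff_map, eq_intCast] at this
  rcases hp i with h1 | h1 <;> rcases hq i with h2 | h2 <;> rw [h1, h2] at this ⊢
  all_goals simp at this

lemma enc_inj {k r t : ℕ} {g h g' h' : ℤ[X]} (F : Fac (2 * k + 1 + r) (2 * k + 1 + t) g h)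
    (F' : Fac (2 * k + 1 + r) (2 * k + 1 + t) g' h') (he : enc k r t g h = enc k r t g' h') :
    g * h = g' * h' := by
  obtain ⟨g0, h0, r0, s0, z1, z2, z3⟩ := F.facts
  obtain ⟨g0', h0', r0', s0', z1', z2', z3'⟩ := F'.facts
  simp only [enc, Prod.mk.injEq] at he
  obtain ⟨e1, e2, e3⟩ := he
  obtain ⟨q1, -, q3, q4⟩ := quad_inj F.zo z1 z2 z3 F'.zo z1' z2' z3' F.c0
    (by rw [mul_coeff_zero, r0, s0, mul_one]) (by rw [mul_coeff_zero, g0, s0, mul_one])
    (by rw [mul_coeff_zero, r0, h0, mul_one]) F'.c0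
    (by rw [mul_coeff_zero, r0', s0', mul_one]) (by rw [mul_coeff_zero, g0', s0', mul_one])
    (by rw [mul_coeff_zero, r0', h0', mul_one]) (by ring) (by ring) k
    (fun j hj => congrFun e3 ⟨j, hj⟩)
  have p1 := map_dvd q1
  have p3 := map_dvd q3
  have p4 := map_dvd q4
  simp only [Polynomial.map_mul, ← reflect_map] at p1 p3 p4
  set φ := Int.castRingHom (ZMod 2) with hφ
  have hlow : ∀ i, i ≤ k + r → (g.map φ).coeff i = (g'.map φ).coeff i := by
    intro i hi
    rcases i with _ | i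
    · rw [coeff_map, coeff_map, g0, g0']
    · rw [coeff_map, coeff_map]
      exact congrFun e1 ⟨i, by omega⟩
  have G1 : X ^ (k + 1) ∣ g.map φ - g'.map φ := by
    rw [X_pow_dvd_iff]
    intro i hi
    rw [coeff_sub, hlow i (by omega), sub_self]
  have G0 : (g.map φ).coeff 0 = 1 := by rw [coeff_map, g0, map_one]
  have H0 : (h.map φ).coeff 0 = 1 := by rw [coeff_map, h0, map_one]
  have H1 := cancel_left G0 G1 p1
  have H2 := cancel_left G0 G1 p3
  rw [mul_comm _ (h.map φ), mul_comm _ (h'.map φ)] at p4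
  have G2 := cancel_left H0 H1 p4
  have eg : g.map φ = g'.map φ := eq_of_low_high (natDegree_map_le.trans F.dg.le)
    (natDegree_map_le.trans F'.dg.le) G1 G2 (fun i _ h2 => hlow i (by omega))
  have eh : h.map φ = h'.map φ := eq_of_low_high (natDegree_map_le.trans F.dh.le)
    (natDegree_map_le.trans F'.dh.le) H1 H2 (fun i h1 h2 => by
      rw [coeff_map, coeff_map]
      have := congrFun e2 ⟨i - (k + 1), by omega⟩
      simp only at this
      rwa [show k + 1 + (i - (k + 1)) = i by omega] at this)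
  refine F.zo.eq_of_map F'.zo ?_
  rw [Polynomial.map_mul, Polynomial.map_mul, eg, eh]

/-- the count of zero-one polynomials with a factorisation of given degrees -/
lemma card_fac_le {ι : Type*} (k r t : ℕ) (B : Finset ι) (f : ι → ℤ[X])
    (hf : Set.InjOn f B)
    (hB : ∀ S ∈ B, ∃ g h, Fac (2 * k + 1 + r) (2 * k + 1 + t) g h ∧ g * h = f S) :
    B.card ≤ 2 ^ (k + r) * (2 ^ t * 6 ^ k) := by
  classical
  choose! g h hF hgh using hB
  have := Finset.card_le_card_of_injOn (s := B) (t := univ) (fun S => enc k r t (g S) (h S))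
    (fun _ _ => Finset.mem_univ _) (by
      intro S hS S' hS' he
      have := enc_inj (hF S hS) (hF S' hS') he
      rw [hgh S hS, hgh S' hS'] at this
      exact hf hS hS' this)
  simpa using this

end Pool.Agent.P.MP_8cce2a_nt
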