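import Pool.Agent.P.MP_8cce2a_nt.Large
import Pool.Agent.P.MP_8cce2a_nt.Small

/-!
Random zero-one polynomials are irreducible with probability tending to one.
-/

namespace Pool.Agent.P.MP_8cce2a_nt

open Polynomial Finset

/-- the polynomial attached to a set of exponents -/
noncomputable def fS (n : ℕ) (S : Finset ℕ) : ℤ[X] := X ^ n + 1 + ∑ i ∈ S, X ^ i

lemma coeff_fS {n : ℕ} (hn : 0 < n) {S : Finset ℕ} (hS : S ⊆ Ioo 0 n) (i : ℕ) :
    (fS n S).coeff i = if i = n ∨ i = 0 ∨ i ∈ S then 1 else 0 := by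
  have h1 : n ∉ S := fun h => by simpa using hS h
  have h2 : 0 ∉ S := fun h => by simpa using hS h
  simp only [fS, coeff_add, finsetSum_coeff, coeff_X_pow, coeff_one, Finset.sum_ite_eq]
  by_cases a : i = n
  · subst a
    simp [h1, hn.ne']
  by_cases b : i = 0
  · subst b
    simp [h2, a]
  · simp [a, b]

lemma fS_ZO {n : ℕ} (hn : 0 < n) {S : Finset ℕ} (hS : S ⊆ Ioo 0 n) : ZO (fS n S) := by
  intro i
  rw [coeff_fS hn hS]
  split_ifs <;> simp

lemma fS_monic {n : ℕ} (hn : 0 < n) {S : Finset ℕ} (hS : S ⊆ Ioo 0 n) :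
    (fS n S).Monic ∧ (fS n S).natDegree = n := by
  have h1 : (fS n S).natDegree ≤ n := by
    rw [natDegree_le_iff_coeff_eq_zero]
    intro i hi
    rw [coeff_fS hn hS, if_neg]
    rintro (h | h | h)
    · omega
    · omega
    · have := (Finset.mem_Ioo.1 (hS h)).2
      omega
  have h2 : (fS n S).coeff n = 1 := by simp [coeff_fS hn hS]
  exact ⟨monic_of_natDegree_le_of_coeff_eq_one n h1 h2,
    natDegree_eq_of_le_of_coeff_ne_zero h1 (by rw [h2]; exact one_ne_zero)⟩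

lemma fS_inj {n : ℕ} (hn : 0 < n) {S S' : Finset ℕ} (hS : S ⊆ Ioo 0 n) (hS' : S' ⊆ Ioo 0 n)
    (h : fS n S = fS n S') : S = S' := by
  ext i
  have := congrArg (fun p => p.coeff i) h
  simp only [coeff_fS hn hS, coeff_fS hn hS'] at this
  by_cases hi : i ∈ Ioo 0 n
  · obtain ⟨h1, h2⟩ := Finset.mem_Ioo.1 hi
    by_cases a : i ∈ S <;> by_cases b : i ∈ S' <;> simp_all [h1.ne', h2.ne]
  · exact ⟨fun h => absurd (hS h) hi, fun h => absurd (hS' h) hi⟩

/-- sets of exponents whose polynomial has a monic factor of degree `d` -/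
def HasFac (n d : ℕ) (S : Finset ℕ) : Prop :=
  ∃ g h : ℤ[X], g.Monic ∧ h.Monic ∧ g * h = fS n S ∧ g.natDegree = d

lemma card_large {n d : ℕ} (hd : 0 < d) (hn : 2 * d ≤ n) (B : Finset (Finset ℕ))
    (hB : ∀ S ∈ B, S ⊆ Ioo 0 n ∧ HasFac n d S) :
    (B.card : ℝ) ≤ 2 ^ (n - 1) * (7 / 8) ^ d := by
  obtain ⟨k, r, hr, rfl⟩ : ∃ k r, r ≤ 1 ∧ d = 2 * k + 1 + r :=
    ⟨(d - 1) / 2, (d - 1) % 2, by omega, by omega⟩
  obtain ⟨t, rfl⟩ : ∃ t, n = (2 * k + 1 + r) + (2 * k + 1 + t) :=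
    ⟨n - (2 * k + 1 + r) - (2 * k + 1), by omega⟩
  have hn0 : 0 < (2 * k + 1 + r) + (2 * k + 1 + t) := by omega
  have key := card_fac_le k r t B (fS _)
    (fun S hS S' hS' h => fS_inj hn0 (hB S hS).1 (hB S' hS').1 h) (by
      intro S hS
      obtain ⟨h1, g, h, hg, hh, e, hdg⟩ := hB S hS
      refine ⟨g, h, ⟨hg, hh, hdg, ?_, ?_, ?_⟩, e⟩
      · have := (fS_monic hn0 h1).2
        rw [← e, hg.natDegree_mul hh] at this
        omega
      · rw [e]
        exact fS_ZO hn0 h1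
      · rw [e, coeff_fS hn0 h1]
        simp)
  have key' : (B.card : ℝ) ≤ 2 ^ (k + r) * (2 ^ t * 6 ^ k) := by exact_mod_cast key
  refine key'.trans ?_
  have e1 : (2 : ℝ) ^ (2 * k + 1 + r + (2 * k + 1 + t) - 1)
      = 2 ^ (k + r) * (2 ^ t * (2 * 8 ^ k)) := by
    rw [show 2 * k + 1 + r + (2 * k + 1 + t) - 1 = (k + r) + (t + (1 + 3 * k)) by omega,
      pow_add, pow_add 2 t, pow_add 2 1, pow_mul]
    norm_num
  rw [e1, mul_assoc, mul_assoc]
  gcongr
  have e2 : (7 / 8 : ℝ) ^ (2 * k + 2) ≤ (7 / 8) ^ (2 * k + 1 + r) :=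
    pow_le_pow_of_le_one (by norm_num) (by norm_num) (by omega)
  have e3 : (6 : ℝ) ^ k ≤ 8 ^ k * (7 / 8) ^ (2 * k) := by
    rw [pow_mul, ← mul_pow]
    gcongr
    norm_num
  have e4 : (0 : ℝ) ≤ 8 ^ k * (7 / 8) ^ (2 * k) := by positivity
  calc (6 : ℝ) ^ k ≤ 2 * 8 ^ k * (7 / 8) ^ (2 * k + 2) := by
        rw [pow_add]
        nlinarith
    _ ≤ _ := by gcongr

lemma card_small (D : ℕ) : ∃ M : ℕ, ∀ n : ℕ, 0 < n → ∀ B : Finset (Finset ℕ),
    (∀ S ∈ B, S ⊆ Ioo 0 n ∧ ∃ d, 0 < d ∧ d ≤ D ∧ HasFac n d S) →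
    B.card ≤ M * n.choose (n / 2) := by
  classical
  obtain ⟨Z, hZ⟩ := exists_root_set D
  refine ⟨Z.card, fun n hn B hB => ?_⟩
  have hsub : B ⊆ Z.biUnion fun a => B.filter fun S => aeval a (fS n S) = 0 := by
    intro S hS
    obtain ⟨h1, d, hd0, hdD, g, h, hg, -, e, hdg⟩ := hB S hS
    have hr : ∀ a : ℂ, aeval a g = 0 → aeval a (fS n S) = 0 := by
      intro a ha
      rw [← e, map_mul, ha, zero_mul]
    obtain ⟨a, ha1, ha2⟩ := hZ g hg (by omega) (by omega) (fun a ha => by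
      refine root_le_two (p := (fS n S).map (Int.castRingHom ℂ)) ((fS_monic hn h1).1.map _)
        (fun i => ?_) ?_
      · rw [coeff_map]
        rcases fS_ZO hn h1 i with h | h <;> simp [h]
      · rw [IsRoot.def, eval_map]
        exact hr a ha)
    exact Finset.mem_biUnion.2 ⟨a, ha1, Finset.mem_filter.2 ⟨hS, hr a ha2⟩⟩
  refine (Finset.card_le_card hsub).trans (Finset.card_biUnion_le_card_mul _ _ _ fun a _ => ?_)
  rcases (B.filter fun S => aeval a (fS n S) = 0).eq_empty_or_nonempty with h | ⟨S0, hS0⟩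
  · simp [h]
  have ha : a ≠ 0 := by
    rintro rfl
    obtain ⟨h1, h2⟩ := Finset.mem_filter.1 hS0
    rw [← coeff_zero_eq_aeval_zero', coeff_fS hn (hB S0 h1).1] at h2
    simp at h2
  refine lo_complex n (fun i => a ^ i) (fun i _ => pow_ne_zero i ha) (-(a ^ n + 1)) _
    fun S hS => ?_
  obtain ⟨h1, h2⟩ := Finset.mem_filter.1 hS
  refine ⟨fun i hi => Finset.mem_range.2 (Finset.mem_Ioo.1 ((hB S h1).1 hi)).2, ?_⟩
  simp only [fS, map_add, map_pow, aeval_X, map_one, map_sum] at h2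
  linear_combination h2

open Classical in
lemma card_bad (D : ℕ) : ∃ M : ℕ, ∀ n : ℕ, 0 < n →
    ((((Ioo 0 n).powerset).filter fun S => ¬ Irreducible (fS n S)).card : ℝ)
      ≤ M * n.choose (n / 2) + 2 ^ (n - 1) * (8 * (7 / 8) ^ D) := by
  obtain ⟨M, hM⟩ := card_small D
  refine ⟨M, fun n hn => ?_⟩
  set B1 := ((Ioo 0 n).powerset).filter fun S => ∃ d, 0 < d ∧ d ≤ D ∧ HasFac n d S with hB1
  set B2 := fun d => ((Ioo 0 n).powerset).filter fun S => HasFac n d S with hB2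
  have hsub : (((Ioo 0 n).powerset).filter fun S => ¬ Irreducible (fS n S))
      ⊆ B1 ∪ (Ico (D + 1) (n / 2 + 1)).biUnion B2 := by
    intro S hS
    obtain ⟨h1, h2⟩ := Finset.mem_filter.1 hS
    obtain ⟨m1, m2⟩ := fS_monic hn (Finset.mem_powerset.1 h1)
    rw [m1.irreducible_iff_natDegree', m2] at h2
    have hne : fS n S ≠ 1 := by
      intro h
      rw [h, natDegree_one] at m2
      omega
    simp only [not_and, not_forall, not_not] at h2
    obtain ⟨h, g, hh, hg, e, hd⟩ := h2 hne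
    obtain ⟨d1, d2⟩ := Finset.mem_Ioc.1 hd
    have hF : HasFac n g.natDegree S := ⟨g, h, hg, hh, by rw [mul_comm, e], rfl⟩
    by_cases hD : g.natDegree ≤ D
    · exact Finset.mem_union_left _ (Finset.mem_filter.2 ⟨h1, _, d1, hD, hF⟩)
    · exact Finset.mem_union_right _ (Finset.mem_biUnion.2 ⟨g.natDegree,
        Finset.mem_Ico.2 ⟨by omega, by omega⟩, Finset.mem_filter.2 ⟨h1, hF⟩⟩)
  have c1 := (Finset.card_le_card hsub).trans ((Finset.card_union_le _ _).trans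
    (add_le_add (hM n hn B1 fun S hS => ⟨Finset.mem_powerset.1 (Finset.mem_filter.1 hS).1,
      (Finset.mem_filter.1 hS).2⟩) Finset.card_biUnion_le))
  have c2 : ((((Ioo 0 n).powerset).filter fun S => ¬ Irreducible (fS n S)).card : ℝ)
      ≤ M * n.choose (n / 2) + ∑ d ∈ Ico (D + 1) (n / 2 + 1), ((B2 d).card : ℝ) := by
    exact_mod_cast c1
  refine c2.trans (add_le_add le_rfl ?_)
  calc ∑ d ∈ Ico (D + 1) (n / 2 + 1), ((B2 d).card : ℝ)
      ≤ ∑ d ∈ Ico (D + 1) (n / 2 + 1), (2 : ℝ) ^ (n - 1) * (7 / 8) ^ d := by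
        refine Finset.sum_le_sum fun d hd => ?_
        obtain ⟨d1, d2⟩ := Finset.mem_Ico.1 hd
        exact card_large (by omega) (by omega) _ fun S hS =>
          ⟨Finset.mem_powerset.1 (Finset.mem_filter.1 hS).1, (Finset.mem_filter.1 hS).2⟩
    _ ≤ _ := by
        rw [← Finset.mul_sum]
        refine mul_le_mul_of_nonneg_left ?_ (by positivity)
        refine (geom_sum_Ico_le_of_lt_one (by norm_num) (by norm_num)).trans ?_
        rw [pow_succ, div_le_iff₀ (by norm_num)]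
        have : (0 : ℝ) ≤ (7 / 8) ^ D := by positivity
        linarith

open Classical in
lemma bad_tendsto : Filter.Tendsto (fun n : ℕ =>
    ((((Ioo 0 n).powerset).filter fun S => ¬ Irreducible (fS n S)).card : ℝ) / 2 ^ (n - 1))
    Filter.atTop (nhds 0) := by
  rw [Metric.tendsto_atTop]
  intro ε hε
  obtain ⟨D, hD⟩ := exists_pow_lt_of_lt_one (show 0 < ε / 16 by positivity)
    (show (7 / 8 : ℝ) < 1 by norm_num)
  obtain ⟨M, hM⟩ := card_bad D
  obtain ⟨N, hN⟩ := exists_nat_gt ((4 * M / ε) ^ 2)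
  refine ⟨N + 1, fun n hn => ?_⟩
  have hn0 : 0 < n := by omega
  rw [Real.dist_eq, sub_zero, abs_of_nonneg (by positivity), div_lt_iff₀ (by positivity)]
  refine (hM n hn0).trans_lt ?_
  have h1 := choose_sq_le n
  have h2 : (4 * M / ε) ^ 2 ≤ (n : ℝ) := by
    have : (N : ℝ) ≤ n := by exact_mod_cast (by omega : N ≤ n)
    linarith
  have h3 : (4 : ℝ) ^ n = (2 * 2 ^ (n - 1)) ^ 2 := by
    rw [← pow_succ', Nat.sub_add_cancel hn0, ← pow_mul, mul_comm, pow_mul]
    norm_num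
  have h4 : (n.choose (n / 2) * (4 * M / ε)) ^ 2 ≤ (2 * 2 ^ (n - 1) : ℝ) ^ 2 := by
    rw [mul_pow, ← h3]
    exact (mul_le_mul_of_nonneg_left h2 (sq_nonneg _)).trans h1
  have h5 : n.choose (n / 2) * (4 * M / ε) ≤ (2 * 2 ^ (n - 1) : ℝ) :=
    abs_le_of_sq_le_sq' h4 (by positivity) |>.2
  rw [← mul_div_assoc, div_le_iff₀ hε] at h5
  have h6 : (0 : ℝ) < 2 ^ (n - 1) := by positivity
  nlinarith [mul_lt_mul_of_pos_left hD h6]

theorem main : Filter.Tendsto (fun n : ℕ =>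
    (({S : Finset ℕ | S ⊆ Finset.Ioo 0 n ∧ Irreducible (fS n S)} : Set (Finset ℕ)).ncard : ℝ)
      / (2 : ℝ) ^ (n - 1)) Filter.atTop (nhds 1) := by
  classical
  have h := (tendsto_const_nhds (x := (1 : ℝ))).sub bad_tendsto
  rw [sub_zero] at h
  refine h.congr fun n => ?_
  have e1 : ({S : Finset ℕ | S ⊆ Finset.Ioo 0 n ∧ Irreducible (fS n S)} : Set (Finset ℕ))
      = ↑(((Ioo 0 n).powerset).filter fun S => Irreducible (fS n S)) := by
    ext S
    simp
  have e2 := Finset.card_filter_add_card_filter_not (s := (Ioo 0 n).powerset)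
    (fun S => Irreducible (fS n S))
  rw [Finset.card_powerset, Nat.card_Ioo, Nat.sub_zero] at e2
  have e3 : ((((Ioo 0 n).powerset).filter fun S => Irreducible (fS n S)).card : ℝ)
      + (((Ioo 0 n).powerset).filter fun S => ¬ Irreducible (fS n S)).card = 2 ^ (n - 1) := by
    exact_mod_cast e2
  rw [e1, Set.ncard_coe_finset]
  field_simp
  linarith

end Pool.Agent.P.MP_8cce2a_nt
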