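import Pool.Agent.P.MP_8cce2a_nt.Split

/-!
Up to an error of order `1/n`, a zero-one polynomial is reducible exactly when it vanishes at `-1`.
-/

namespace Pool.Agent.P.MP_8cce2a_nt

open Polynomial Finset

lemma exists_root14 (n : ℕ) : ∃ D : ℕ, D ^ 14 ≤ n ∧ n < (D + 1) ^ 14 := by
  classical
  have h : ∃ D : ℕ, n < (D + 1) ^ 14 :=
    ⟨n, (Nat.lt_succ_self n).trans_le (Nat.le_self_pow (by norm_num) _)⟩
  refine ⟨Nat.find h, ?_, Nat.find_spec h⟩
  rcases hD : Nat.find h with _ | D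
  · simp
  · exact not_lt.1 (Nat.find_min h (m := D) (by omega))

lemma poly_geom_bdd : ∃ C : ℝ, ∀ D : ℕ, ((D : ℝ) + 1) ^ 14 * (7 / 8) ^ D ≤ C := by
  have h := tendsto_pow_const_mul_const_pow_of_abs_lt_one 14
    (r := 7 / 8) (by rw [abs_of_pos] <;> norm_num)
  obtain ⟨C, hC⟩ := h.bddAbove_range
  refine ⟨C * (8 / 7), fun D => ?_⟩
  have := hC ⟨D + 1, rfl⟩
  simp only [Nat.cast_add, Nat.cast_one, pow_succ (7 / 8 : ℝ)] at this
  linarith

lemma not_irr_fac {n : ℕ} (hn : 0 < n) {S : Finset ℕ} (hS : S ⊆ Ioo 0 n)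
    (h2 : ¬ Irreducible (fS n S)) : ∃ d, 0 < d ∧ 2 * d ≤ n ∧ HasFac n d S := by
  obtain ⟨m1, m2⟩ := fS_monic hn hS
  rw [m1.irreducible_iff_natDegree', m2] at h2
  have hne : fS n S ≠ 1 := by
    intro h
    rw [h, natDegree_one] at m2
    omega
  simp only [not_and, not_forall, not_not] at h2
  obtain ⟨h, g, hh, hg, e, hd⟩ := h2 hne
  obtain ⟨d1, d2⟩ := Finset.mem_Ioc.1 hd
  exact ⟨g.natDegree, d1, by omega, g, h, hg, hh, by rw [mul_comm, e], rfl⟩

lemma exists_croot {g : ℤ[X]} (hg : g.Monic) (h0 : 0 < g.natDegree) : ∃ a : ℂ, aeval a g = 0 := by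
  obtain ⟨a, ha⟩ := IsAlgClosed.exists_root (g.map (Int.castRingHom ℂ)) (by
    rw [hg.degree_map]
    exact (natDegree_pos_iff_degree_pos.1 h0).ne')
  refine ⟨a, ?_⟩
  rwa [IsRoot.def, eval_map] at ha

lemma big_term {D n : ℕ} (hD : 2 ≤ D) (h1 : D ^ 14 ≤ n) (h2 : n < (D + 1) ^ 14) :
    (2 * 4 ^ D + 1) ^ (D + 1) * D * 2 ^ (n - 1 - (n - 1) / (16 * D ^ 2)) * n ≤ 2 ^ (n - 1) := by
  set N := (n - 1) / (16 * D ^ 2) with hN
  have hNle : N ≤ n - 1 := Nat.div_le_self _ _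
  have a1 : 2 * 4 ^ D + 1 ≤ 2 ^ (2 * D + 2) := by
    have : 1 ≤ 4 ^ D := Nat.one_le_pow _ _ (by norm_num)
    rw [pow_add, pow_mul]
    norm_num
    omega
  have a2 : D ≤ 2 ^ D := Nat.lt_two_pow_self.le
  have a3 : n ≤ (2 ^ D) ^ 14 := h2.le.trans (Nat.pow_le_pow_left Nat.lt_two_pow_self 14)
  have a4 : (2 * D + 2) * (D + 1) + D + D * 14 ≤ N := by
    rw [hN, Nat.le_div_iff_mul_le (by positivity)]
    have b1 : (2 * D + 2) * (D + 1) + D + D * 14 ≤ 23 * D ^ 2 := by nlinarith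
    have b2 : 2 ^ 10 ≤ D ^ 10 := Nat.pow_le_pow_left hD 10
    have b3 : 1 ≤ D ^ 4 := Nat.one_le_pow _ _ (by omega)
    have b4 : 2 ^ 10 * D ^ 4 ≤ n := by
      refine le_trans ?_ h1
      rw [show D ^ 14 = D ^ 10 * D ^ 4 by ring]
      exact Nat.mul_le_mul_right _ b2
    have b5 : 23 * D ^ 2 * (16 * D ^ 2) = 368 * D ^ 4 := by ring
    have := Nat.mul_le_mul_right (16 * D ^ 2) b1
    omega
  calc (2 * 4 ^ D + 1) ^ (D + 1) * D * 2 ^ (n - 1 - N) * n
      ≤ (2 ^ (2 * D + 2)) ^ (D + 1) * 2 ^ D * 2 ^ (n - 1 - N) * (2 ^ D) ^ 14 := by gcongr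
    _ = 2 ^ ((2 * D + 2) * (D + 1) + D + D * 14 + (n - 1 - N)) := by
        rw [← pow_mul, ← pow_mul, ← pow_add, ← pow_add, ← pow_add]
        congr 1
        ring
    _ ≤ 2 ^ (n - 1) := Nat.pow_le_pow_right (by norm_num) (by omega)

lemma unity_term {D n m : ℕ} (hD : 2 ≤ D) (h1 : D ^ 14 ≤ n) (hm : 0 < m) (hmD : m ≤ 2 * D ^ 2) :
    (m : ℝ) * ((((n - 1) / m).choose ((n - 1) / m / 2) : ℝ) / 2 ^ ((n - 1) / m)) ^ 3
      ≤ 48 / (D ^ 2 * n) := by
  have hmn : m < n := by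
    have b2 : 2 ^ 12 ≤ D ^ 12 := Nat.pow_le_pow_left hD 12
    have b3 : 1 ≤ D ^ 2 := Nat.one_le_pow _ _ (by omega)
    have : 2 ^ 12 * D ^ 2 ≤ n := by
      refine le_trans ?_ h1
      rw [show D ^ 14 = D ^ 12 * D ^ 2 by ring]
      exact Nat.mul_le_mul_right _ b2
    omega
  have h := middle_sq_le hm hmn
  set u : ℝ := (((n - 1) / m).choose ((n - 1) / m / 2) : ℝ) / 2 ^ ((n - 1) / m) with hu
  have u0 : 0 ≤ u := by positivity
  have hn : (0 : ℝ) < n := by exact_mod_cast (by omega : 0 < n)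
  have hD0 : (0 : ℝ) < D := by exact_mod_cast (by omega : 0 < D)
  have c1 : (m : ℝ) ≤ 2 * D ^ 2 := by exact_mod_cast hmD
  have c2 : (D : ℝ) ^ 14 ≤ n := by exact_mod_cast h1
  have c3 : u ^ 2 * n ≤ 8 * D ^ 2 := by
    rw [le_div_iff₀ hn] at h
    linarith
  have c4 : (u * D ^ 6) ^ 2 ≤ 3 ^ 2 := by
    have : (u * D ^ 6) ^ 2 * D ^ 2 ≤ 9 * D ^ 2 := by
      calc (u * D ^ 6) ^ 2 * D ^ 2 = u ^ 2 * D ^ 14 := by ring
        _ ≤ u ^ 2 * n := by gcongr
        _ ≤ 9 * D ^ 2 := by nlinarith [sq_nonneg (D : ℝ)]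
    have := le_of_mul_le_mul_right this (by positivity)
    linarith
  have c5 : u * D ^ 6 ≤ 3 := (abs_le_of_sq_le_sq' c4 (by norm_num)).2
  rw [le_div_iff₀ (by positivity)]
  calc (m : ℝ) * u ^ 3 * (D ^ 2 * n) = m * u * D ^ 2 * (u ^ 2 * n) := by ring
    _ ≤ (2 * D ^ 2) * u * D ^ 2 * (8 * D ^ 2) := by gcongr
    _ = 16 * (u * D ^ 6) := by ring
    _ ≤ 48 := by linarith

open Classical in
lemma bad_le : ∃ C : ℝ, ∀ n : ℕ, 2 ^ 14 ≤ n →
    ((((Ioo 0 n).powerset).filter fun S => ¬ Irreducible (fS n S)).card : ℝ)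
      ≤ (((Ioo 0 n).powerset).filter fun S => aeval (-1 : ℂ) (fS n S) = 0).card
        + 2 ^ (n - 1) * (C / n) := by
  obtain ⟨C, hC⟩ := poly_geom_bdd
  refine ⟨8 * C + 1 + 2048 + 96, fun n hn => ?_⟩
  have hn0 : 0 < n := by omega
  have hnR : (0 : ℝ) < n := by exact_mod_cast hn0
  obtain ⟨D, d1, d2⟩ := exists_root14 n
  have hD : 2 ≤ D := by
    have : 2 ^ 14 < (D + 1) ^ 14 := hn.trans_lt d2
    have := lt_of_pow_lt_pow_left₀ 14 (Nat.zero_le _) this
    omega
  obtain ⟨Z, hZc, hZ⟩ := roots_set D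
  set P := (Ioo 0 n).powerset with hP
  set A0 := P.filter fun S => aeval (-1 : ℂ) (fS n S) = 0 with hA0
  set A1 := P.filter fun S => ∃ d, D < d ∧ 2 * d ≤ n ∧ HasFac n d S with hA1
  set A2 := P.filter fun S => ∃ β ∈ Z, 2 ≤ ‖β‖ ^ (16 * D ^ 2) ∧ aeval β (fS n S) = 0 with hA2
  set A := fun m => P.filter fun S => ∃ α ∈ primitiveRoots m ℂ, aeval α (fS n S) = 0 with hA
  set M2 := (Icc 1 8).filter fun m : ℕ => 2 ≤ m.totient with hM2
  set M3 := (Icc 1 (2 * D ^ 2)).filter fun m : ℕ => 3 ≤ m.totient with hM3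
  have hsub : (P.filter fun S => ¬ Irreducible (fS n S))
      ⊆ A0 ∪ (A1 ∪ (A2 ∪ (M2.biUnion A ∪ M3.biUnion A))) := by
    intro S hS
    obtain ⟨h1, h2⟩ := Finset.mem_filter.1 hS
    have hS' := Finset.mem_powerset.1 h1
    obtain ⟨d, e1, e2, hF⟩ := not_irr_fac hn0 hS' h2
    simp only [Finset.mem_union]
    by_cases hd : D < d
    · exact Or.inr (Or.inl (Finset.mem_filter.2 ⟨h1, d, hd, e2, hF⟩))
    obtain ⟨g, h, hg, -, e, hdg⟩ := hF
    have hr : ∀ a : ℂ, aeval a g = 0 → aeval a (fS n S) = 0 := by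
      intro a ha
      rw [← e, map_mul, ha, zero_mul]
    obtain ⟨α, hα⟩ := exists_croot hg (by omega)
    rcases root_cases hg (D := D) (by omega) (by omega) hα (fS_root_ne hn0 hS' (hr α hα)) with
      ⟨β, b1, b2⟩ | ⟨m, m1, m2, m3⟩
    · exact Or.inr (Or.inr (Or.inl (Finset.mem_filter.2 ⟨h1, β,
        hZ g hg (by omega) (fun a ha => fS_root_le hn0 hS' (hr a ha)) β b1, b2, hr β b1⟩)))
    have hmem : S ∈ A m := Finset.mem_filter.2 ⟨h1, α, (mem_primitiveRoots m1).2 m3, hr α hα⟩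
    have ht := (le_totient_sq m).1
    have hpos := Nat.totient_pos.2 m1
    by_cases t1 : m.totient = 1
    · rcases Nat.totient_eq_one_iff.1 t1 with rfl | rfl
      · exact absurd (IsPrimitiveRoot.one_right_iff.1 m3 ▸ hr α hα) (fS_one_ne n S)
      · exact Or.inl (Finset.mem_filter.2 ⟨h1, m3.eq_neg_one_of_two_right ▸ hr α hα⟩)
    by_cases t2 : m.totient = 2
    · refine Or.inr (Or.inr (Or.inr (Or.inl (Finset.mem_biUnion.2 ⟨m, ?_, hmem⟩))))
      rw [t2] at ht
      exact Finset.mem_filter.2 ⟨Finset.mem_Icc.2 ⟨m1, ht⟩, t2.ge⟩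
    · refine Or.inr (Or.inr (Or.inr (Or.inr (Finset.mem_biUnion.2 ⟨m, ?_, hmem⟩))))
      exact Finset.mem_filter.2 ⟨Finset.mem_Icc.2 ⟨m1, ht.trans
        (Nat.mul_le_mul_left _ (Nat.pow_le_pow_left m2 2))⟩, by omega⟩
  have c0 : (P.filter fun S => ¬ Irreducible (fS n S)).card ≤ A0.card + (A1.card + (A2.card +
      (∑ m ∈ M2, (A m).card + ∑ m ∈ M3, (A m).card))) :=
    (Finset.card_le_card hsub).trans ((Finset.card_union_le _ _).trans (add_le_add le_rfl
      ((Finset.card_union_le _ _).trans (add_le_add le_rfl ((Finset.card_union_le _ _).trans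
        (add_le_add le_rfl ((Finset.card_union_le _ _).trans
          (add_le_add Finset.card_biUnion_le Finset.card_biUnion_le))))))))
  have c0' : ((P.filter fun S => ¬ Irreducible (fS n S)).card : ℝ) ≤ A0.card + (A1.card + (A2.card +
      (∑ m ∈ M2, ((A m).card : ℝ) + ∑ m ∈ M3, ((A m).card : ℝ)))) := by exact_mod_cast c0
  have c1 : (A1.card : ℝ) ≤ 2 ^ (n - 1) * (8 * C / n) := by
    refine (card_tail n D).trans (mul_le_mul_of_nonneg_left ?_ (by positivity))
    rw [le_div_iff₀ hnR, mul_assoc]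
    have : (n : ℝ) ≤ (D + 1) ^ 14 := by exact_mod_cast d2.le
    have h3 : (7 / 8 : ℝ) ^ D * n ≤ (7 / 8) ^ D * (D + 1) ^ 14 := by gcongr
    linarith [hC D]
  have c2 : (A2.card : ℝ) ≤ 2 ^ (n - 1) * (1 / n) := by
    have h1 := card_bigset Z (K := 16 * D ^ 2) (by positivity) n ((n - 1) / (16 * D ^ 2))
      ((Nat.mul_div_le _ _).trans_lt (by omega))
    have h2 : A2.card * n ≤ 2 ^ (n - 1) :=
      (Nat.mul_le_mul_right _ (h1.trans (Nat.mul_le_mul_right _ hZc))).trans (big_term hD d1 d2)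
    rw [mul_one_div, le_div_iff₀ hnR]
    exact_mod_cast h2
  have c3 : ∑ m ∈ M2, ((A m).card : ℝ) ≤ 2 ^ (n - 1) * (2048 / n) := by
    have : ∀ m ∈ M2, ((A m).card : ℝ) ≤ 2 ^ (n - 1) * (256 / n) := by
      intro m hm
      obtain ⟨h1, h2⟩ := Finset.mem_filter.1 hm
      obtain ⟨h3, h4⟩ := Finset.mem_Icc.1 h1
      refine (card_primset h3 h2 n hn0).trans (mul_le_mul_of_nonneg_left ?_ (by positivity))
      have h5 := middle_sq_le (m := m) (n := n) h3 (by omega)
      have h6 : (m : ℝ) ≤ 8 := by exact_mod_cast h4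
      calc _ ≤ (8 : ℝ) * (4 * 8 / n) := mul_le_mul h6 (h5.trans (by gcongr)) (by positivity)
            (by norm_num)
        _ = _ := by ring
    refine (Finset.sum_le_card_nsmul _ _ _ this).trans ?_
    have h8 : (M2.card : ℝ) ≤ 8 := by
      exact_mod_cast (Finset.card_filter_le _ _).trans (by simp)
    rw [nsmul_eq_mul]
    calc _ ≤ (8 : ℝ) * (2 ^ (n - 1) * (256 / n)) := by gcongr
      _ = _ := by ring
  have c4 : ∑ m ∈ M3, ((A m).card : ℝ) ≤ 2 ^ (n - 1) * (96 / n) := by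
    have : ∀ m ∈ M3, ((A m).card : ℝ) ≤ 2 ^ (n - 1) * (48 / (D ^ 2 * n)) := by
      intro m hm
      obtain ⟨h1, h2⟩ := Finset.mem_filter.1 hm
      obtain ⟨h3, h4⟩ := Finset.mem_Icc.1 h1
      exact (card_primset h3 h2 n hn0).trans
        (mul_le_mul_of_nonneg_left (unity_term hD d1 h3 h4) (by positivity))
    refine (Finset.sum_le_card_nsmul _ _ _ this).trans ?_
    have h8 : (M3.card : ℝ) ≤ 2 * D ^ 2 := by
      exact_mod_cast (Finset.card_filter_le _ _).trans (by simp)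
    have hD0 : (0 : ℝ) < D := by exact_mod_cast (by omega : 0 < D)
    rw [nsmul_eq_mul]
    calc _ ≤ (2 * D ^ 2 : ℝ) * (2 ^ (n - 1) * (48 / (D ^ 2 * n))) := by gcongr
      _ = _ := by
        field_simp
        norm_num
  refine c0'.trans (add_le_add le_rfl ?_)
  calc _ ≤ 2 ^ (n - 1) * (8 * C / n) + (2 ^ (n - 1) * (1 / n) + (2 ^ (n - 1) * (2048 / n)
        + 2 ^ (n - 1) * (96 / n) : ℝ)) := by gcongr
    _ = _ := by ring

lemma neg_not_irr {n : ℕ} (hn : 2 ≤ n) {S : Finset ℕ} (hS : S ⊆ Ioo 0 n)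
    (h : aeval (-1 : ℂ) (fS n S) = 0) : ¬ Irreducible (fS n S) := by
  intro hi
  have h1 : (fS n S).IsRoot (-1) := by
    have h2 := aeval_algebraMap_apply_eq_algebraMap_eval (A := ℂ) (-1 : ℤ) (fS n S)
    rw [map_neg, map_one, h] at h2
    exact (algebraMap ℤ ℂ).injective_int (by rw [← h2, map_zero])
  have h3 : (fS n S).natDegree = 1 :=
    natDegree_eq_of_degree_eq_some (degree_eq_one_of_irreducible_of_root hi h1)
  rw [(fS_monic (by omega) hS).2] at h3
  omega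

open Classical in
/-- the number of subsets with a given alternating sum -/
lemma alt_card (n j : ℕ) (c : ℂ)
    (hc : c = j - (((Ioo 0 n).filter fun i => Odd i).card : ℂ)) :
    (((Ioo 0 n).powerset).filter fun S => ∑ i ∈ S, (-1 : ℂ) ^ i = c).card
      = (n - 1).choose j := by
  set O := (Ioo 0 n).filter fun i => Odd i with hO
  have hOI : O ⊆ Ioo 0 n := Finset.filter_subset _ _
  have key : ∀ S ⊆ Ioo 0 n, ∑ i ∈ S, (-1 : ℂ) ^ i = ((symmDiff S O).card : ℂ) - O.card := by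
    intro S hS
    have a1 : ∑ i ∈ S ∩ O, (-1 : ℂ) ^ i = -((S ∩ O).card : ℂ) := by
      rw [Finset.sum_congr rfl (g := fun _ => (-1 : ℂ)) fun i hi =>
        (Finset.mem_filter.1 (Finset.mem_inter.1 hi).2).2.neg_one_pow]
      simp
    have a2 : ∑ i ∈ S \ O, (-1 : ℂ) ^ i = ((S \ O).card : ℂ) := by
      rw [Finset.sum_congr rfl (g := fun _ => (1 : ℂ)) fun i hi => by
        obtain ⟨h1, h2⟩ := Finset.mem_sdiff.1 hi
        exact (Nat.not_odd_iff_even.1 fun h => h2 (Finset.mem_filter.2 ⟨hS h1, h⟩)).neg_one_pow]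
      simp
    have a3 : (symmDiff S O).card = (S \ O).card + (O \ S).card := by
      rw [symmDiff_def, Finset.sup_eq_union, Finset.card_union_of_disjoint disjoint_sdiff_sdiff]
    have a4 := Finset.card_sdiff_add_card_inter O S
    rw [← Finset.sum_inter_add_sum_sdiff S O, a1, a2, a3, ← a4, Finset.inter_comm O S]
    push_cast
    ring
  have hsd : ∀ S ⊆ Ioo 0 n, symmDiff S O ⊆ Ioo 0 n := fun S hS =>
    symmDiff_le_sup.trans (sup_le hS hOI)
  have hI : (Ioo 0 n).card = n - 1 := by simp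
  rw [← hI, ← Finset.card_powersetCard]
  refine Finset.card_nbij' (fun S => symmDiff S O) (fun S => symmDiff S O) ?_ ?_
    (fun S _ => symmDiff_symmDiff_cancel_right _ _)
    (fun S _ => symmDiff_symmDiff_cancel_right _ _)
  · intro S hS
    obtain ⟨h1, h2⟩ := Finset.mem_filter.1 (Finset.mem_coe.1 hS)
    have h3 := Finset.mem_powerset.1 h1
    refine Finset.mem_coe.2 (Finset.mem_powersetCard.2 ⟨hsd S h3, ?_⟩)
    rw [key S h3, hc, sub_left_inj] at h2
    exact_mod_cast h2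
  · intro S hS
    obtain ⟨h1, h2⟩ := Finset.mem_powersetCard.1 (Finset.mem_coe.1 hS)
    refine Finset.mem_coe.2 (Finset.mem_filter.2 ⟨Finset.mem_powerset.2 (hsd S h1), ?_⟩)
    rw [key _ (hsd S h1), symmDiff_symmDiff_cancel_right, h2, hc]

lemma odd_card (n : ℕ) : ((Ioo 0 n).filter fun i => Odd i).card = n / 2 := by
  have : ((Ioo 0 n).filter fun i => Odd i) = (range (n / 2)).image fun t => 2 * t + 1 := by
    ext i
    simp only [Finset.mem_filter, Finset.mem_Ioo, Finset.mem_image, Finset.mem_range]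
    constructor
    · rintro ⟨h, t, rfl⟩
      exact ⟨t, by omega, rfl⟩
    · rintro ⟨t, h, rfl⟩
      exact ⟨by omega, t, rfl⟩
  rw [this, Finset.card_image_of_injective _ fun a b h => by simpa using h, Finset.card_range]

lemma neg_iff (n : ℕ) (S : Finset ℕ) :
    aeval (-1 : ℂ) (fS n S) = 0 ↔ ∑ i ∈ S, (-1 : ℂ) ^ i = -((-1) ^ n + 1) := by
  refine ⟨fS_root_sum, fun h => ?_⟩
  simp only [fS, map_add, map_pow, aeval_X, map_one, map_sum]
  linear_combination h

open Classical in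
lemma neg_card_odd (k : ℕ) : (((Ioo 0 (2 * k + 1)).powerset).filter
    fun S => aeval (-1 : ℂ) (fS (2 * k + 1) S) = 0).card = (2 * k).choose k := by
  simp only [neg_iff]
  refine alt_card (2 * k + 1) k _ ?_
  rw [odd_card, show (2 * k + 1) / 2 = k by omega, (odd_two_mul_add_one k).neg_one_pow]
  ring

open Classical in
lemma neg_card_even (k : ℕ) : (((Ioo 0 (2 * (k + 2))).powerset).filter
    fun S => aeval (-1 : ℂ) (fS (2 * (k + 2)) S) = 0).card = (2 * k + 3).choose k := by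
  simp only [neg_iff]
  refine alt_card (2 * (k + 2)) k _ ?_
  rw [odd_card, show 2 * (k + 2) / 2 = k + 2 by omega, (even_two_mul _).neg_one_pow]
  push_cast
  ring

open Real in
lemma wallis_central (k : ℕ) :
    2 / π ≤ ((k.centralBinom : ℝ) / 4 ^ k) ^ 2 * (2 * k + 1) ∧
      ((k.centralBinom : ℝ) / 4 ^ k) ^ 2 * (2 * k + 1) * (2 * k + 1) ≤ 2 / π * (2 * k + 2) := by
  have e : Wallis.W k * (((k.centralBinom : ℝ) / 4 ^ k) ^ 2 * (2 * k + 1)) = 1 := by
    have h1 : (k.centralBinom : ℝ) * k.factorial * k.factorial = (2 * k).factorial := by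
      have := Nat.choose_mul_factorial_mul_factorial (n := 2 * k) (k := k) (by omega)
      rw [show 2 * k - k = k by omega, ← Nat.centralBinom_eq_two_mul_choose] at this
      exact_mod_cast this
    have h2 : (k.centralBinom : ℝ) ≠ 0 := by exact_mod_cast k.centralBinom_ne_zero
    have h3 : (k.factorial : ℝ) ≠ 0 := by exact_mod_cast k.factorial_ne_zero
    have h4 : (2 : ℝ) ^ (4 * k) = (4 ^ k) ^ 2 := by
      rw [← pow_mul, mul_comm k 2, pow_mul, pow_mul]
      norm_num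
    rw [Wallis.W_eq_factorial_ratio, ← h1, h4]
    field_simp
  set x : ℝ := ((k.centralBinom : ℝ) / 4 ^ k) ^ 2 * (2 * k + 1) with hx
  have x0 : 0 ≤ x := by positivity
  have h1 := Wallis.W_le k
  have h2 := Wallis.le_W k
  constructor
  · rw [div_le_iff₀ pi_pos]
    nlinarith [mul_le_mul_of_nonneg_right h1 x0]
  · rw [div_mul_eq_mul_div, le_div_iff₀ pi_pos]
    rw [div_mul_eq_mul_div, div_le_iff₀ (by positivity)] at h2
    nlinarith [mul_le_mul_of_nonneg_right h2 x0]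

lemma abs_sub_le_of_sq {b s t : ℝ} (hb : 0 ≤ b) (hs : 0 ≤ s) (hs1 : s ≤ 1) (ht : 0 ≤ t)
    (ht1 : t ≤ 1) (h1 : s ^ 2 * (1 - t) ≤ b ^ 2) (h2 : b ^ 2 ≤ s ^ 2 * (1 + t)) :
    |b - s| ≤ t := by
  have a1 : s * (1 - t) ≤ b := by
    refine (abs_le_of_sq_le_sq' ?_ hb).2
    have : (1 - t) ^ 2 ≤ 1 - t := by nlinarith
    calc (s * (1 - t)) ^ 2 = s ^ 2 * (1 - t) ^ 2 := by ring
      _ ≤ s ^ 2 * (1 - t) := by gcongr
      _ ≤ _ := h1
  have a2 : b ≤ s * (1 + t) := by
    refine (abs_le_of_sq_le_sq' ?_ (by positivity)).2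
    have : 1 + t ≤ (1 + t) ^ 2 := by nlinarith
    calc b ^ 2 ≤ s ^ 2 * (1 + t) := h2
      _ ≤ s ^ 2 * (1 + t) ^ 2 := by gcongr
      _ = _ := by ring
  rw [abs_le]
  constructor <;> nlinarith

open Real in
lemma sqrt_facts {x : ℝ} (hx : 1 ≤ x) :
    √(2 / (π * x)) ^ 2 = 2 / π / x ∧ √(2 / (π * x)) ≤ 1 := by
  have hp := pi_pos
  refine ⟨by rw [sq_sqrt (by positivity), div_div], ?_⟩
  rw [Real.sqrt_le_one, div_le_one (by positivity)]
  nlinarith [pi_gt_three]

open Real Classical in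
lemma neg_prob {n : ℕ} (hn : 4 ≤ n) :
    |((((Ioo 0 n).powerset).filter fun S => aeval (-1 : ℂ) (fS n S) = 0).card : ℝ) / 2 ^ (n - 1)
      - √(2 / (π * n))| ≤ 5 / n := by
  have hp := pi_pos
  obtain ⟨k, rfl | rfl⟩ := Nat.even_or_odd' n
  · obtain ⟨k, rfl⟩ : ∃ j, k = j + 2 := ⟨k - 2, by omega⟩
    rw [neg_card_even]
    obtain ⟨w1, w2⟩ := wallis_central (k + 2)
    have k0 : (0 : ℝ) ≤ k := Nat.cast_nonneg k
    obtain ⟨s1, s2⟩ := sqrt_facts (x := ((2 * (k + 2) : ℕ) : ℝ)) (by push_cast; linarith)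
    set s := √(2 / (π * ((2 * (k + 2) : ℕ) : ℝ))) with hs
    set b : ℝ := ((k + 2).centralBinom : ℝ) / 4 ^ (k + 2) with hb
    have b0 : 0 ≤ b := by positivity
    have e1 : ((2 * k + 3).choose k : ℝ) * (k + 3) * 2 = (k + 2).centralBinom * (k + 1) := by
      have a1 := Nat.choose_succ_right_eq (2 * k + 3) k
      have a2 : (k + 2).centralBinom = 2 * (2 * k + 3).choose (k + 1) := by
        rw [Nat.centralBinom_eq_two_mul_choose, show 2 * (k + 2) = 2 * k + 3 + 1 by ring,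
          show k + 2 = k + 1 + 1 by ring, Nat.choose_succ_succ',
          Nat.choose_symm_of_eq_add (n := 2 * k + 3) (a := k + 1 + 1) (b := k + 1) (by ring)]
        ring
      rw [show 2 * k + 3 - k = k + 3 by omega] at a1
      have : (2 * k + 3).choose k * (k + 3) * 2 = (k + 2).centralBinom * (k + 1) := by
        rw [a2, ← a1]
        ring
      exact_mod_cast this
    have e2 : ((2 * k + 3).choose k : ℝ) / 2 ^ (2 * (k + 2) - 1) = b * (1 - 2 / (k + 3)) := by
      have : (4 : ℝ) ^ (k + 2) = 2 ^ (2 * (k + 2) - 1) * 2 := by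
        rw [← pow_succ, show 2 * (k + 2) - 1 + 1 = 2 * (k + 2) by omega, pow_mul]
        norm_num
      rw [hb, this]
      field_simp
      linarith
    push_cast at w1 w2 s1 ⊢
    have c : (0 : ℝ) < 2 / π := by positivity
    set N : ℝ := 2 * ((k : ℝ) + 2) with hN
    have N4 : 4 ≤ N := by linarith
    have e3 : 2 / π = s ^ 2 * N := by
      rw [s1]
      field_simp
    rw [e3] at w1 w2
    have hbs : b ^ 2 ≤ s ^ 2 := by
      have : b ^ 2 * ((N + 1) * (N + 1)) ≤ s ^ 2 * ((N + 1) * (N + 1)) := by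
        nlinarith [sq_nonneg s]
      exact le_of_mul_le_mul_right this (by positivity)
    have t1 : 1 / N ≤ 1 := by
      rw [div_le_one (by positivity)]
      linarith
    have key := abs_sub_le_of_sq b0 (sqrt_nonneg _) s2 (t := 1 / N) (by positivity) t1 (by
      have : s ^ 2 * (1 - 1 / N) * (N + 1) ≤ b ^ 2 * (N + 1) := by
        refine le_trans ?_ w1
        rw [mul_assoc]
        refine mul_le_mul_of_nonneg_left ?_ (sq_nonneg _)
        have : 1 / N * N = 1 := by field_simp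
        have : 0 ≤ 1 / N := by positivity
        nlinarith
      exact le_of_mul_le_mul_right this (by positivity)) (by
      have : 0 ≤ s ^ 2 * (1 / N) := by positivity
      linarith)
    have b1 : b ≤ 1 := ((abs_le_of_sq_le_sq' hbs (sqrt_nonneg _)).2).trans s2
    have t2 : 2 / ((k : ℝ) + 3) ≤ 4 / N := by
      rw [div_le_div_iff₀ (by positivity) (by positivity)]
      linarith
    have t3 : 0 ≤ 2 / ((k : ℝ) + 3) := by positivity
    have t4 : 5 / N = 1 / N + 4 / N := by ring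
    rw [e2, abs_le]
    rw [abs_le] at key
    constructor <;> nlinarith [mul_nonneg b0 t3]
  · rw [neg_card_odd, ← Nat.centralBinom_eq_two_mul_choose]
    obtain ⟨w1, w2⟩ := wallis_central k
    have k0 : (0 : ℝ) ≤ k := Nat.cast_nonneg k
    obtain ⟨s1, s2⟩ := sqrt_facts (x := ((2 * k + 1 : ℕ) : ℝ)) (by push_cast; linarith)
    set s := √(2 / (π * ((2 * k + 1 : ℕ) : ℝ))) with hs
    have e2 : (2 : ℝ) ^ (2 * k + 1 - 1) = 4 ^ k := by
      rw [Nat.add_sub_cancel, pow_mul]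
      norm_num
    rw [e2]
    set b : ℝ := (k.centralBinom : ℝ) / 4 ^ k with hb
    have b0 : 0 ≤ b := by positivity
    push_cast at w1 w2 s1 ⊢
    rw [show 2 * (k : ℝ) + 2 = (2 * k + 1) + 1 by ring] at w2
    set N : ℝ := 2 * (k : ℝ) + 1 with hN
    have N1 : 1 ≤ N := by linarith
    have e3 : 2 / π = s ^ 2 * N := by
      rw [s1]
      field_simp
    rw [e3] at w1 w2
    have t1 : 1 / N ≤ 1 := by
      rw [div_le_one (by positivity)]
      linarith
    have key := abs_sub_le_of_sq b0 (sqrt_nonneg _) s2 (t := 1 / N) (by positivity) t1 (by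
      have := le_of_mul_le_mul_right w1 (by positivity)
      have : 0 ≤ s ^ 2 * (1 / N) := by positivity
      linarith) (by
      have : b ^ 2 * (N * N) ≤ s ^ 2 * (1 + 1 / N) * (N * N) := by
        have : s ^ 2 * (1 + 1 / N) * (N * N) = s ^ 2 * N * (N + 1) := by field_simp
        linarith
      exact le_of_mul_le_mul_right this (by positivity))
    refine key.trans ?_
    gcongr
    norm_num

open Classical in
lemma good_prob (n : ℕ) :
    1 - (({S : Finset ℕ | S ⊆ Finset.Ioo 0 n ∧ Irreducible (fS n S)} : Set (Finset ℕ)).ncard : ℝ)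
      / (2 : ℝ) ^ (n - 1)
    = ((((Ioo 0 n).powerset).filter fun S => ¬ Irreducible (fS n S)).card : ℝ) / 2 ^ (n - 1) := by
  have e1 : ({S : Finset ℕ | S ⊆ Finset.Ioo 0 n ∧ Irreducible (fS n S)} : Set (Finset ℕ))
      = ↑(((Ioo 0 n).powerset).filter fun S => Irreducible (fS n S)) := by
    ext S
    simp
  have e2 := Finset.card_filter_add_card_filter_not (s := (Ioo 0 n).powerset)
    (fun S => Irreducible (fS n S))
  rw [Finset.card_powerset, Nat.card_Ioo, Nat.sub_zero] at e2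
  have e3 : ((((Ioo 0 n).powerset).filter fun S => Irreducible (fS n S)).card : ℝ)
      + (((Ioo 0 n).powerset).filter fun S => ¬ Irreducible (fS n S)).card = 2 ^ (n - 1) := by
    exact_mod_cast e2
  rw [e1, Set.ncard_coe_finset]
  field_simp
  linarith

open Real in
theorem sharp_rate : ∃ C : ℝ, ∀ n : ℕ, 1 ≤ n →
    |1 - (({S : Finset ℕ | S ⊆ Finset.Ioo 0 n ∧ Irreducible (fS n S)} : Set (Finset ℕ)).ncard : ℝ)
      / (2 : ℝ) ^ (n - 1) - √(2 / (π * n))| ≤ C / n := by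
  classical
  obtain ⟨C, hC⟩ := bad_le
  refine ⟨|C| + 5 + 2 ^ 15, fun n hn => ?_⟩
  have hnR : (1 : ℝ) ≤ n := by exact_mod_cast hn
  have hC0 := abs_nonneg C
  rw [good_prob]
  by_cases h : 2 ^ 14 ≤ n
  · have h1 := hC n h
    have h2 := neg_prob (n := n) (by omega)
    have h3 : ((((Ioo 0 n).powerset).filter fun S => aeval (-1 : ℂ) (fS n S) = 0).card : ℝ)
        ≤ (((Ioo 0 n).powerset).filter fun S => ¬ Irreducible (fS n S)).card := by
      exact_mod_cast Finset.card_le_card fun S hS => Finset.mem_filter.2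
        ⟨(Finset.mem_filter.1 hS).1, neg_not_irr (by omega)
          (Finset.mem_powerset.1 (Finset.mem_filter.1 hS).1) (Finset.mem_filter.1 hS).2⟩
    have h4 := div_le_div_of_nonneg_right h3 (c := (2 : ℝ) ^ (n - 1)) (by positivity)
    have h5 := div_le_div_of_nonneg_right h1 (c := (2 : ℝ) ^ (n - 1)) (by positivity)
    rw [add_div, mul_div_cancel_left₀ _ (by positivity)] at h5
    have h6 : C / n ≤ |C| / n := by
      gcongr
      exact le_abs_self C
    have h7 : (|C| + 5 + 2 ^ 15) / n = |C| / n + 5 / n + 2 ^ 15 / n := by ring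
    have h8 : (0 : ℝ) ≤ 2 ^ 15 / n := by positivity
    have h9 : (0 : ℝ) ≤ |C| / n := by positivity
    rw [abs_le] at h2 ⊢
    constructor <;> linarith [h2.1, h2.2]
  · have h1 : (n : ℝ) ≤ 2 ^ 14 := by exact_mod_cast (not_le.1 h).le
    have h2 : ((((Ioo 0 n).powerset).filter fun S => ¬ Irreducible (fS n S)).card : ℝ)
        / 2 ^ (n - 1) ≤ 1 := by
      rw [div_le_one (by positivity)]
      have := Finset.card_filter_le (Ioo 0 n).powerset fun S => ¬ Irreducible (fS n S)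
      rw [Finset.card_powerset, Nat.card_Ioo, Nat.sub_zero] at this
      exact_mod_cast this
    have h3 := (sqrt_facts hnR).2
    have h4 : (0 : ℝ) ≤ ((((Ioo 0 n).powerset).filter fun S => ¬ Irreducible (fS n S)).card : ℝ)
        / 2 ^ (n - 1) := by positivity
    have h5 := sqrt_nonneg (2 / (π * n))
    have h6 : 1 ≤ (|C| + 5 + 2 ^ 15) / n := by
      rw [le_div_iff₀ (by positivity)]
      linarith
    rw [abs_le]
    constructor <;> linarith

end Pool.Agent.P.MP_8cce2a_nt
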