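import Pool.Agent.P.MP_8cce2a_nt.Main
import Pool.Agent.P.MP_8cce2a_nt.House
import Pool.Agent.P.MP_8cce2a_nt.Conc

/-!
Factors of small degree of zero-one polynomials: a large root or a root of unity.
-/

namespace Pool.Agent.P.MP_8cce2a_nt

open Polynomial Finset

lemma roots_set (D : ℕ) : ∃ Z : Finset ℂ, Z.card ≤ (2 * 4 ^ D + 1) ^ (D + 1) * D ∧
    ∀ g : ℤ[X], g.Monic → g.natDegree ≤ D → (∀ a : ℂ, aeval a g = 0 → ‖a‖ ≤ 2) →
      ∀ a : ℂ, aeval a g = 0 → a ∈ Z := by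
  classical
  set P : (Fin (D + 1) → ℤ) → ℤ[X] := fun c => ∑ i : Fin (D + 1), monomial i.1 (c i) with hP
  set A := Fintype.piFinset fun _ : Fin (D + 1) => Finset.Icc (-(4 : ℤ) ^ D) (4 ^ D) with hA
  refine ⟨A.biUnion fun c => ((P c).map (Int.castRingHom ℂ)).roots.toFinset, ?_, ?_⟩
  · refine (Finset.card_biUnion_le_card_mul _ _ D fun c _ => ?_).trans (le_of_eq ?_)
    · refine (Multiset.toFinset_card_le _).trans ((card_roots' _).trans
        (natDegree_map_le.trans ?_))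
      refine natDegree_sum_le_of_forall_le _ _ fun i _ => (natDegree_monomial_le _).trans ?_
      exact Nat.lt_succ_iff.1 i.2
    · rw [hA, Fintype.card_piFinset, Finset.prod_const, Finset.card_univ, Fintype.card_fin,
        Int.card_Icc]
      congr 2
      have : (4 : ℤ) ^ D + 1 - -4 ^ D = ((2 * 4 ^ D + 1 : ℕ) : ℤ) := by
        push_cast
        ring
      rw [this, Int.toNat_natCast]
  · intro g hg hD hr a ha
    have hroot : ∀ a : ℂ, a ∈ (g.map (Int.castRingHom ℂ)).roots ↔ aeval a g = 0 := by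
      intro a
      rw [mem_roots (hg.map _).ne_zero, IsRoot.def, eval_map, aeval_def]
      rfl
    have e : P (fun i => g.coeff i.1) = g := by
      rw [hP]
      simp only
      rw [← Finset.sum_range (fun i => monomial i (g.coeff i))]
      exact (g.as_sum_range' (D + 1) (Nat.lt_succ_of_le hD)).symm
    refine Finset.mem_biUnion.2 ⟨fun i => g.coeff i.1, ?_, ?_⟩
    · refine Fintype.mem_piFinset.2 fun i => ?_
      have := coeff_bdd_of_roots_le (B := 2) (Int.castRingHom ℂ) hg (IsAlgClosed.splits _) hD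
        (fun z hz => hr z ((hroot z).1 hz)) i.1
      rw [coeff_map, max_eq_left (by norm_num : (1 : ℝ) ≤ 2)] at this
      simp only [eq_intCast, Complex.norm_intCast] at this
      have h1 : (D.choose (D / 2) : ℝ) ≤ 2 ^ D := by exact_mod_cast Nat.choose_le_two_pow _ _
      have h2 : |(g.coeff i.1 : ℝ)| ≤ 4 ^ D := by
        refine this.trans ?_
        rw [show (4 : ℝ) = 2 * 2 by norm_num, mul_pow]
        gcongr
      have h3 : |g.coeff i.1| ≤ 4 ^ D := by exact_mod_cast h2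
      exact Finset.mem_Icc.2 (abs_le.1 h3)
    · rw [e, Multiset.mem_toFinset, hroot]
      exact ha

lemma fS_root_le {n : ℕ} (hn : 0 < n) {S : Finset ℕ} (hS : S ⊆ Ioo 0 n) {a : ℂ}
    (ha : aeval a (fS n S) = 0) : ‖a‖ ≤ 2 := by
  refine root_le_two (p := (fS n S).map (Int.castRingHom ℂ)) ((fS_monic hn hS).1.map _)
    (fun i => ?_) ?_
  · rw [coeff_map]
    rcases fS_ZO hn hS i with h | h <;> simp [h]
  · rw [IsRoot.def, eval_map]
    exact ha

lemma fS_root_ne {n : ℕ} (hn : 0 < n) {S : Finset ℕ} (hS : S ⊆ Ioo 0 n) {a : ℂ}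
    (ha : aeval a (fS n S) = 0) : a ≠ 0 := by
  rintro rfl
  rw [← coeff_zero_eq_aeval_zero', coeff_fS hn hS] at ha
  simp at ha

lemma fS_root_sum {n : ℕ} {S : Finset ℕ} {a : ℂ} (ha : aeval a (fS n S) = 0) :
    ∑ i ∈ S, a ^ i = -(a ^ n + 1) := by
  simp only [fS, map_add, map_pow, aeval_X, map_one, map_sum] at ha
  linear_combination ha

lemma fS_one_ne (n : ℕ) (S : Finset ℕ) : aeval (1 : ℂ) (fS n S) ≠ 0 := by
  intro h
  have h1 := fS_root_sum h
  simp only [one_pow, Finset.sum_const, nsmul_eq_mul, mul_one] at h1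
  have h2 : ((S.card + 2 : ℕ) : ℂ) = 0 := by
    push_cast
    linear_combination h1
  have : S.card + 2 = 0 := by exact_mod_cast h2
  omega

lemma minpoly_dvd_map {g : ℤ[X]} {α : ℂ} (h : aeval α g = 0) :
    minpoly ℚ α ∣ g.map (algebraMap ℤ ℚ) :=
  minpoly.dvd ℚ α (by rwa [aeval_map_algebraMap])

lemma conj_root {g : ℤ[X]} {α β : ℂ} (h : aeval α g = 0) (hβ : aeval β (minpoly ℚ α) = 0) :
    aeval β g = 0 := by
  have := aeval_eq_zero_of_dvd_aeval_eq_zero (minpoly_dvd_map h) hβ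
  rwa [aeval_map_algebraMap] at this

lemma minpoly_deg_le {g : ℤ[X]} (hg : g.Monic) {α : ℂ} (h : aeval α g = 0) :
    (minpoly ℚ α).natDegree ≤ g.natDegree :=
  (natDegree_le_of_dvd (minpoly_dvd_map h) (hg.map _).ne_zero).trans natDegree_map_le

lemma prim_deg {α : ℂ} {m : ℕ} (hm : 0 < m) (h : IsPrimitiveRoot α m) :
    (minpoly ℚ α).natDegree = m.totient := by
  rw [← cyclotomic_eq_minpoly_rat h hm, natDegree_cyclotomic]

/-- a root of a factor of small degree -/
lemma root_cases {g : ℤ[X]} (hg : g.Monic) {D : ℕ} (hD0 : 0 < D) (hD : g.natDegree ≤ D) {α : ℂ}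
    (hα : aeval α g = 0) (h0 : α ≠ 0) :
    (∃ β : ℂ, aeval β g = 0 ∧ 2 ≤ ‖β‖ ^ (16 * D ^ 2)) ∨
      ∃ m, 0 < m ∧ m.totient ≤ D ∧ IsPrimitiveRoot α m := by
  have hd := (minpoly_deg_le hg hα).trans hD
  rcases house (α := α) ⟨g, hg, hα⟩ h0 hD0 hd with ⟨β, h1, h2⟩ | h
  · exact Or.inl ⟨β, conj_root hα h1, h2⟩
  · have hm := h.orderOf_pos
    have hp := IsPrimitiveRoot.orderOf α
    exact Or.inr ⟨_, hm, by rwa [← prim_deg hm hp], hp⟩

open Classical in
/-- factorisations with both degrees above `D` -/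
lemma card_tail (n D : ℕ) :
    ((((Ioo 0 n).powerset).filter fun S => ∃ d, D < d ∧ 2 * d ≤ n ∧ HasFac n d S).card : ℝ)
      ≤ 2 ^ (n - 1) * (8 * (7 / 8) ^ D) := by
  set B2 := fun d => ((Ioo 0 n).powerset).filter fun S => HasFac n d S with hB2
  have hsub : (((Ioo 0 n).powerset).filter fun S => ∃ d, D < d ∧ 2 * d ≤ n ∧ HasFac n d S)
      ⊆ (Ico (D + 1) (n / 2 + 1)).biUnion B2 := by
    intro S hS
    obtain ⟨h1, d, d1, d2, hF⟩ := Finset.mem_filter.1 hS
    exact Finset.mem_biUnion.2 ⟨d, Finset.mem_Ico.2 ⟨by omega, by omega⟩,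
      Finset.mem_filter.2 ⟨h1, hF⟩⟩
  have c1 := (Finset.card_le_card hsub).trans Finset.card_biUnion_le
  have c2 : ((((Ioo 0 n).powerset).filter
      fun S => ∃ d, D < d ∧ 2 * d ≤ n ∧ HasFac n d S).card : ℝ)
      ≤ ∑ d ∈ Ico (D + 1) (n / 2 + 1), ((B2 d).card : ℝ) := by
    exact_mod_cast c1
  refine c2.trans ?_
  calc ∑ d ∈ Ico (D + 1) (n / 2 + 1), ((B2 d).card : ℝ)
      ≤ ∑ d ∈ Ico (D + 1) (n / 2 + 1), (2 : ℝ) ^ (n - 1) * (7 / 8) ^ d := by
        refine Finset.sum_le_sum fun d hd => ?_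
        obtain ⟨d1, d2⟩ := Finset.mem_Ico.1 hd
        exact card_large (by omega) (by omega) _ fun S hS =>
          ⟨Finset.mem_powerset.1 (Finset.mem_filter.1 hS).1, (Finset.mem_filter.1 hS).2⟩
    _ ≤ _ := by
        rw [← Finset.mul_sum]
        refine mul_le_mul_of_nonneg_left ?_ (by positivity)
        refine (geom_sum_Ico_le_of_lt_one (by norm_num) (by norm_num)).trans ?_
        rw [pow_succ, div_le_iff₀ (by norm_num)]
        have : (0 : ℝ) ≤ (7 / 8) ^ D := by positivity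
        linarith

open Classical in
/-- polynomials with a large root in a given finite set -/
lemma card_bigset (Z : Finset ℂ) {K : ℕ} (hK : 0 < K) (n N : ℕ) (hN : K * N < n) :
    (((Ioo 0 n).powerset).filter
      fun S => ∃ β ∈ Z, 2 ≤ ‖β‖ ^ K ∧ aeval β (fS n S) = 0).card ≤ Z.card * 2 ^ (n - 1 - N) := by
  have hsub : (((Ioo 0 n).powerset).filter
      fun S => ∃ β ∈ Z, 2 ≤ ‖β‖ ^ K ∧ aeval β (fS n S) = 0) ⊆ Z.biUnion fun β =>
        ((Ioo 0 n).powerset).filter fun S => 2 ≤ ‖β‖ ^ K ∧ aeval β (fS n S) = 0 := by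
    intro S hS
    obtain ⟨h1, β, h2, h3⟩ := Finset.mem_filter.1 hS
    exact Finset.mem_biUnion.2 ⟨β, h2, Finset.mem_filter.2 ⟨h1, h3⟩⟩
  refine (Finset.card_le_card hsub).trans (Finset.card_biUnion_le_card_mul _ _ _ fun β _ => ?_)
  by_cases hβ : 2 ≤ ‖β‖ ^ K
  · exact card_big hK hβ n N hN _ _ fun S hS => ⟨Finset.mem_powerset.1 (Finset.mem_filter.1 hS).1,
      fS_root_sum (Finset.mem_filter.1 hS).2.2⟩
  · simp [hβ]

open Classical in
/-- polynomials vanishing at a primitive root of unity of given order -/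
lemma card_primset {m r : ℕ} (hm : 0 < m) (hr : r ≤ m.totient) (n : ℕ) (hn : 0 < n) :
    ((((Ioo 0 n).powerset).filter
      fun S => ∃ α ∈ primitiveRoots m ℂ, aeval α (fS n S) = 0).card : ℝ)
      ≤ 2 ^ (n - 1) *
        (m * ((((n - 1) / m).choose ((n - 1) / m / 2) : ℝ) / 2 ^ ((n - 1) / m)) ^ r) := by
  set N := (n - 1) / m with hN
  have hmN : m * N ≤ n - 1 := Nat.mul_div_le _ _
  have hrm : r ≤ m := hr.trans (Nat.totient_le m)
  have hsub : (((Ioo 0 n).powerset).filter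
      fun S => ∃ α ∈ primitiveRoots m ℂ, aeval α (fS n S) = 0) ⊆ (primitiveRoots m ℂ).biUnion
        fun α => ((Ioo 0 n).powerset).filter fun S => aeval α (fS n S) = 0 := by
    intro S hS
    obtain ⟨h1, β, h2, h3⟩ := Finset.mem_filter.1 hS
    exact Finset.mem_biUnion.2 ⟨β, h2, Finset.mem_filter.2 ⟨h1, h3⟩⟩
  have c1 := (Finset.card_le_card hsub).trans (Finset.card_biUnion_le_card_mul _ _
    (N.choose (N / 2) ^ r * 2 ^ (n - 1 - r * N)) fun α hα => by
      have hp := (mem_primitiveRoots hm).1 hα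
      have hli : LinearIndependent ℚ fun j : Fin r => α ^ j.1 :=
        (linearIndependent_pow (K := ℚ) α).comp
          (Fin.castLE (by rwa [prim_deg hm hp])) (Fin.castLE_injective _)
      exact card_unity hm hp.pow_eq_one hrm hli n N (by omega) _ _ fun S hS =>
        ⟨Finset.mem_powerset.1 (Finset.mem_filter.1 hS).1,
          fS_root_sum (Finset.mem_filter.1 hS).2⟩)
  rw [Complex.card_primitiveRoots] at c1
  have c2 := c1.trans (Nat.mul_le_mul_right _ (Nat.totient_le m))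
  have c3 : ((((Ioo 0 n).powerset).filter
      fun S => ∃ α ∈ primitiveRoots m ℂ, aeval α (fS n S) = 0).card : ℝ)
      ≤ m * (N.choose (N / 2) ^ r * 2 ^ (n - 1 - r * N)) := by exact_mod_cast c2
  refine c3.trans (le_of_eq ?_)
  have hrN : r * N ≤ n - 1 := (Nat.mul_le_mul_right _ hrm).trans hmN
  have e : (2 : ℝ) ^ (n - 1) = 2 ^ (n - 1 - r * N) * (2 ^ N) ^ r := by
    rw [← pow_mul, ← pow_add]
    congr 1
    rw [mul_comm N]
    omega
  rw [e, div_pow]
  field_simp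

lemma middle_sq_le {m n : ℕ} (hm : 0 < m) (h : m < n) :
    ((((n - 1) / m).choose ((n - 1) / m / 2) : ℝ) / 2 ^ ((n - 1) / m)) ^ 2 ≤ 4 * m / n := by
  set N := (n - 1) / m with hN
  have h1 : n - 1 < m * (N + 1) := Nat.lt_mul_div_succ _ hm
  have h2 : 1 ≤ N := (Nat.le_div_iff_mul_le hm).2 (by omega)
  have h3 : n ≤ 4 * m * N := by
    have : m * (N + 1) ≤ m * (2 * N) := Nat.mul_le_mul_left _ (by omega)
    have h4 : m * (2 * N) ≤ 4 * m * N := by nlinarith
    omega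
  have h4 : (n : ℝ) ≤ 4 * m * N := by exact_mod_cast h3
  have h5 := choose_sq_le N
  have hn : (0 : ℝ) < n := by exact_mod_cast (by omega : 0 < n)
  rw [div_pow, div_le_div_iff₀ (by positivity) hn, ← pow_mul, mul_comm N 2, pow_mul]
  calc (N.choose (N / 2) : ℝ) ^ 2 * n ≤ (N.choose (N / 2) : ℝ) ^ 2 * (4 * m * N) := by gcongr
    _ = 4 * m * ((N.choose (N / 2) : ℝ) ^ 2 * N) := by ring
    _ ≤ 4 * m * (2 ^ 2) ^ N := by
        norm_num
        gcongr

end Pool.Agent.P.MP_8cce2a_nt
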